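import Pool.Agent.Helper853.Df.Chart2

open scoped Topology ENNReal ComplexConjugate ContDiff
open MeasureTheory Filter Metric

namespace Pool.Agent.Helper853.Df

section

variable {ψ : ℂ × ℂ → ℝ} {N : Set (ℂ × ℂ)} {ε : ℝ} (H : Nrm ψ N ε) (hε : 0 ≤ ε) (hε4 : ε ≤ 1 / 64)

/-- dependence of the discs on the centre -/
lemma ff_lip (c c' : ℂ) {z : ℂ} (hz : ‖z‖ ≤ 1 / 2) :
    ‖(ff H hε hε4 c z - ff H hε hε4 c' z) - (c - c')‖ ≤ (1 / 3) * ‖c - c'‖ := by
  have hz1 : ‖z‖ ≤ 1 := by linarith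
  have h1 := summable_term (summable_aa H hε hε4 c) hz1
  have h2 := summable_term (summable_aa H hε hε4 c') hz1
  have e : (ff H hε hε4 c z - ff H hε hε4 c' z) - (c - c') =
      ∑' n, ((aa H hε hε4 c).1 n - (aa H hε hε4 c').1 n) * z ^ (n + 1) := by
    have h3 := h1.tsum_sub h2
    unfold ff FF
    have h4 : (fun n => ((aa H hε hε4 c).1 n - (aa H hε hε4 c').1 n) * z ^ (n + 1)) =
        fun n => (aa H hε hε4 c).1 n * z ^ (n + 1) - (aa H hε hε4 c').1 n * z ^ (n + 1) := by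
      funext n
      ring
    rw [h4, h3]
    ring
  rw [e]
  set D := ‖(aa H hε hε4 c).1 - (aa H hε hε4 c').1‖ with hD
  have hDle : D ≤ (1 / 3) * ‖c - c'‖ := norm_sol_sub hε (hε4.trans (by norm_num)) (HL_hh H hε) c c'
  have hgeo : HasSum (fun n : ℕ => D * (1 / 2) ^ (n + 1)) D := by
    have h5 := (hasSum_geometric_two).mul_left (D * (1 / 2))
    have e1 : (fun n : ℕ => D * (1 / 2) * (1 / 2) ^ n) = fun n : ℕ => D * (1 / 2) ^ (n + 1) := by
      funext n
      ring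
    have e2 : D * (1 / 2) * 2 = D := by ring
    rwa [e1, e2] at h5
  have h6 := tsum_of_norm_bounded hgeo (f := fun n =>
    ((aa H hε hε4 c).1 n - (aa H hε hε4 c').1 n) * z ^ (n + 1)) (fun n => by
      rw [norm_mul, norm_pow]
      have h7 : ‖(aa H hε hε4 c).1 n - (aa H hε hε4 c').1 n‖ ≤ D :=
        lp.norm_apply_le_norm (by norm_num) ((aa H hε hε4 c).1 - (aa H hε hε4 c').1) n
      gcongr)
  exact h6.trans hDle

lemma exists_centre {z : ℂ} (hz : ‖z‖ ≤ 1 / 2) (w : ℂ) : ∃ c, ff H hε hε4 c z = w := by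
  have hc : ContractingWith (1 / 3 : NNReal) fun c : ℂ => w - (ff H hε hε4 c z - c) := by
    constructor
    · rw [← NNReal.coe_lt_coe]
      norm_num
    · apply LipschitzWith.of_dist_le_mul
      intro c c'
      rw [dist_eq_norm, dist_eq_norm]
      have h1 := ff_lip H hε hε4 c c' hz
      have e : w - (ff H hε hε4 c z - c) - (w - (ff H hε hε4 c' z - c')) =
          -((ff H hε hε4 c z - ff H hε hε4 c' z) - (c - c')) := by ring
      rw [e, norm_neg]
      simpa using h1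
  refine ⟨hc.fixedPoint, ?_⟩
  have h2 : w - (ff H hε hε4 hc.fixedPoint z - hc.fixedPoint) = hc.fixedPoint :=
    hc.fixedPoint_isFixedPt
  linear_combination -h2

open Classical in
/-- the centre of the disc through a point -/
noncomputable def cinv (q : ℂ × ℂ) : ℂ :=
  if h : ‖q.1‖ ≤ 1 / 2 then Classical.choose (exists_centre H hε hε4 h q.2) else 0

lemma cinv_spec {q : ℂ × ℂ} (h : ‖q.1‖ ≤ 1 / 2) : ff H hε hε4 (cinv H hε hε4 q) q.1 = q.2 := by
  unfold cinv
  rw [dif_pos h]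
  exact Classical.choose_spec (exists_centre H hε hε4 h q.2)

lemma cinv_sub_le {q : ℂ × ℂ} (h : ‖q.1‖ ≤ 1 / 2) (c' : ℂ) :
    ‖cinv H hε hε4 q - c'‖ ≤ (3 / 2) * ‖q.2 - ff H hε hε4 c' q.1‖ := by
  have h1 := ff_lip H hε hε4 (cinv H hε hε4 q) c' h
  rw [cinv_spec H hε hε4 h] at h1
  have h3 : ‖cinv H hε hε4 q - c'‖ ≤ ‖(q.2 - ff H hε hε4 c' q.1) - (cinv H hε hε4 q - c')‖ +
      ‖q.2 - ff H hε hε4 c' q.1‖ := by
    have e : cinv H hε hε4 q - c' = (q.2 - ff H hε hε4 c' q.1) -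
        ((q.2 - ff H hε hε4 c' q.1) - (cinv H hε hε4 q - c')) := by ring
    calc ‖cinv H hε hε4 q - c'‖ = ‖(q.2 - ff H hε hε4 c' q.1) -
        ((q.2 - ff H hε hε4 c' q.1) - (cinv H hε hε4 q - c'))‖ := by rw [← e]
      _ ≤ ‖q.2 - ff H hε hε4 c' q.1‖ +
        ‖(q.2 - ff H hε hε4 c' q.1) - (cinv H hε hε4 q - c')‖ := norm_sub_le _ _
      _ = _ := by ring
  linarith

lemma cinv_ff {z c : ℂ} (hz : ‖z‖ ≤ 1 / 2) : cinv H hε hε4 (z, ff H hε hε4 c z) = c := by
  have h := cinv_sub_le H hε hε4 (q := (z, ff H hε hε4 c z)) hz c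
  simp only [sub_self, norm_zero, mul_zero] at h
  exact sub_eq_zero.mp (norm_le_zero_iff.mp h)

lemma continuousOn_cinv : ContinuousOn (cinv H hε hε4) {q : ℂ × ℂ | ‖q.1‖ < 1 / 2} := by
  intro q₀ hq₀
  apply ContinuousAt.continuousWithinAt
  have hq₀' : ‖q₀.1‖ < 1 / 2 := hq₀
  set c₀ := cinv H hε hε4 q₀ with hc₀
  have hsp : ff H hε hε4 c₀ q₀.1 = q₀.2 := cinv_spec H hε hε4 hq₀'.le
  have hfc : ContinuousAt (ff H hε hε4 c₀) q₀.1 :=
    ((differentiableOn_ff H hε hε4 c₀).differentiableAt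
      (isOpen_ball.mem_nhds (mem_ball_zero_iff.mpr (by linarith)))).continuousAt
  have h1 : ContinuousAt (fun q : ℂ × ℂ => (3 / 2) * ‖q.2 - ff H hε hε4 c₀ q.1‖) q₀ := by
    have h2 : ContinuousAt (fun q : ℂ × ℂ => ff H hε hε4 c₀ q.1) q₀ :=
      ContinuousAt.comp (f := fun q : ℂ × ℂ => q.1) (g := ff H hε hε4 c₀) hfc continuousAt_fst
    exact continuousAt_const.mul (continuousAt_snd.sub h2).norm
  have h3 := h1.tendsto
  rw [hsp, sub_self, norm_zero, mul_zero] at h3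
  rw [ContinuousAt, tendsto_iff_norm_sub_tendsto_zero]
  refine squeeze_zero' (Eventually.of_forall fun _ => norm_nonneg _) ?_ h3
  have hopen : IsOpen {q : ℂ × ℂ | ‖q.1‖ < 1 / 2} :=
    isOpen_lt (continuous_fst.norm) continuous_const
  filter_upwards [hopen.mem_nhds hq₀] with q hq
  exact cinv_sub_le H hε hε4 (le_of_lt hq) c₀

lemma continuousAt_ff2 {p : ℂ × ℂ} (hp : ‖p.1‖ < 1 / 2) :
    ContinuousAt (fun p : ℂ × ℂ => ff H hε hε4 p.2 p.1) p := by
  have hfc : ContinuousAt (ff H hε hε4 p.2) p.1 :=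
    ((differentiableOn_ff H hε hε4 p.2).differentiableAt
      (isOpen_ball.mem_nhds (mem_ball_zero_iff.mpr (by linarith)))).continuousAt
  have h2 : ContinuousAt (fun q : ℂ × ℂ => ff H hε hε4 p.2 q.1) p :=
    ContinuousAt.comp (f := fun q : ℂ × ℂ => q.1) (g := ff H hε hε4 p.2) hfc continuousAt_fst
  have h1 : ContinuousAt (fun q : ℂ × ℂ => (4 / 3) * ‖q.2 - p.2‖ +
      ‖ff H hε hε4 p.2 q.1 - ff H hε hε4 p.2 p.1‖) p :=
    (continuousAt_const.mul (continuousAt_snd.sub continuousAt_const).norm).add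
      (h2.sub continuousAt_const).norm
  have h3 := h1.tendsto
  rw [sub_self, norm_zero, mul_zero, zero_add, sub_self, norm_zero] at h3
  rw [ContinuousAt, tendsto_iff_norm_sub_tendsto_zero]
  refine squeeze_zero' (Eventually.of_forall fun _ => norm_nonneg _) ?_ h3
  have hopen : IsOpen {q : ℂ × ℂ | ‖q.1‖ < 1 / 2} :=
    isOpen_lt (continuous_fst.norm) continuous_const
  filter_upwards [hopen.mem_nhds hp] with q hq
  have h4 := ff_lip H hε hε4 q.2 p.2 (le_of_lt hq)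
  have e : ff H hε hε4 q.2 q.1 - ff H hε hε4 p.2 p.1 =
      ((ff H hε hε4 q.2 q.1 - ff H hε hε4 p.2 q.1) - (q.2 - p.2)) + (q.2 - p.2) +
        (ff H hε hε4 p.2 q.1 - ff H hε hε4 p.2 p.1) := by ring
  rw [e]
  refine (norm_add₃_le).trans ?_
  linarith

/-- the flow box in normalised coordinates -/
noncomputable def box1 : OpenPartialHomeomorph (ℂ × ℂ) (ℂ × ℂ) where
  toFun p := (p.1 / 2, ff H hε hε4 (p.2 / 8) (p.1 / 2))
  invFun q := (2 * q.1, 8 * cinv H hε hε4 q)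
  source := ball 0 1 ×ˢ ball 0 1
  target := {q | ‖q.1‖ < 1 / 2} ∩ cinv H hε hε4 ⁻¹' ball 0 (1 / 8)
  map_source' := by
    rintro ⟨z, t⟩ ⟨hz, ht⟩
    rw [mem_ball_zero_iff] at hz ht
    simp only at hz ht
    have h1 : ‖z / 2‖ < 1 / 2 := by rw [norm_div]; simp; linarith
    refine ⟨h1, ?_⟩
    rw [Set.mem_preimage, cinv_ff H hε hε4 h1.le, mem_ball_zero_iff, norm_div]
    simp
    linarith
  map_target' := by
    rintro ⟨z, w⟩ ⟨hz, hw⟩
    rw [Set.mem_preimage, mem_ball_zero_iff] at hw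
    have hz' : ‖z‖ < 1 / 2 := hz
    refine ⟨?_, ?_⟩
    · rw [mem_ball_zero_iff, norm_mul]
      simp
      linarith
    · rw [mem_ball_zero_iff, norm_mul]
      simp
      linarith
  left_inv' := by
    rintro ⟨z, t⟩ ⟨hz, ht⟩
    rw [mem_ball_zero_iff] at hz ht
    simp only at hz ht
    have h1 : ‖z / 2‖ < 1 / 2 := by rw [norm_div]; simp; linarith
    simp only [cinv_ff H hε hε4 h1.le]
    ext <;> simp <;> ring_nf
  right_inv' := by
    rintro ⟨z, w⟩ ⟨hz, hw⟩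
    have hz' : ‖z‖ < 1 / 2 := hz
    have e1 : 2 * z / 2 = z := by ring
    have e2 : 8 * cinv H hε hε4 (z, w) / 8 = cinv H hε hε4 (z, w) := by ring
    simp only [e1, e2]
    have := cinv_spec H hε hε4 (q := (z, w)) hz'.le
    simp only at this
    rw [this]
  open_source := isOpen_ball.prod isOpen_ball
  open_target := (continuousOn_cinv H hε hε4).isOpen_inter_preimage
    (isOpen_lt (continuous_fst.norm) continuous_const) isOpen_ball
  continuousOn_toFun := by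
    rintro ⟨z, t⟩ ⟨hz, ht⟩
    rw [mem_ball_zero_iff] at hz
    simp only at hz
    apply ContinuousAt.continuousWithinAt
    have h1 : ‖z / 2‖ < 1 / 2 := by rw [norm_div]; simp; linarith
    have h2 : ContinuousAt (fun p : ℂ × ℂ => (p.1 / 2, p.2 / 8)) (z, t) := by fun_prop
    have h3 := continuousAt_ff2 H hε hε4 (p := (z / 2, t / 8)) h1
    have h4 : ContinuousAt (fun p : ℂ × ℂ => ff H hε hε4 (p.2 / 8) (p.1 / 2)) (z, t) :=
      ContinuousAt.comp (f := fun p : ℂ × ℂ => (p.1 / 2, p.2 / 8))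
        (g := fun p : ℂ × ℂ => ff H hε hε4 p.2 p.1) h3 h2
    exact (continuousAt_fst.div_const 2).prodMk h4
  continuousOn_invFun := by
    have h1 : ContinuousOn (cinv H hε hε4) ({q : ℂ × ℂ | ‖q.1‖ < 1 / 2} ∩
        cinv H hε hε4 ⁻¹' ball 0 (1 / 8)) := (continuousOn_cinv H hε hε4).mono fun x hx => hx.1
    exact (continuousOn_const.mul continuousOn_fst).prodMk (continuousOn_const.mul h1)

end

end Pool.Agent.Helper853.Df
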