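import Pool.Agent.Helper853.Df.Defs

open scoped Topology ENNReal ComplexConjugate ContDiff
open Filter Metric InnerProductSpace

namespace Pool.Agent.Helper853.Df

/-- strong minimum principle -/
lemma harm_zero {m : ℂ → ℝ} {ζ₀ : ℂ} {ρ : ℝ} (hρ : 0 < ρ) (hm : HarmonicOnNhd m (ball ζ₀ ρ))
    (h0 : m ζ₀ = 0) (hpos : ∀ z ∈ ball ζ₀ ρ, 0 ≤ m z) : ∀ z ∈ ball ζ₀ ρ, m z = 0 := by
  obtain ⟨F, hF, hFm⟩ := hm.exists_analyticOnNhd_ball_re_eq
  have hFm' : ∀ z ∈ ball ζ₀ ρ, (F z).re = m z := fun z hz => hFm hz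
  have hc : ζ₀ ∈ ball ζ₀ ρ := mem_ball_self hρ
  have hnorm : ∀ z, ‖Complex.exp (-F z)‖ = Real.exp (-(F z).re) := by
    intro z
    rw [Complex.norm_exp]
    simp
  have h1 := Complex.norm_eqOn_of_isPreconnected_of_isMaxOn (f := fun z => Complex.exp (-F z))
    (U := ball ζ₀ ρ) (c := ζ₀) (convex_ball ζ₀ ρ).isPreconnected isOpen_ball
    (hF.differentiableOn.neg.cexp) hc (by
      intro z hz
      change ‖Complex.exp (-F z)‖ ≤ ‖Complex.exp (-F ζ₀)‖
      rw [hnorm, hnorm, hFm' z hz, hFm' ζ₀ hc, h0]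
      apply Real.exp_le_exp.mpr
      linarith [hpos z hz])
  intro z hz
  have h2 := h1 hz
  simp only [Function.comp, Function.const] at h2
  rw [hnorm, hnorm, hFm' z hz, hFm' ζ₀ hc, h0] at h2
  have h3 := Real.exp_injective h2
  linarith

lemma harm_re {f : ℂ → ℂ} {U : Set ℂ} (hU : IsOpen U) (hf : DifferentiableOn ℂ f U) :
    HarmonicOnNhd (fun z => (f z).re) U := fun z hz =>
  (hf.analyticAt (hU.mem_nhds hz)).harmonicAt_re

end Pool.Agent.Helper853.Df
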