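import Pool.Agent.Helper853.Df.Box
import Pool.Agent.Helper853.Df.Harm

open scoped Topology ENNReal ComplexConjugate ContDiff
open MeasureTheory Filter Metric InnerProductSpace

namespace Pool.Agent.Helper853.Df

/-- good flow boxes -/
structure GoodBox (U : Set C2) (φ : C2 → ℝ) (e : OpenPartialHomeomorph (ℂ × ℂ) C2) : Prop where
  src : e.source = ball 0 1 ×ˢ ball 0 1
  tgt : e.target ⊆ U
  hol : ∀ t ∈ ball (0 : ℂ) 1, DifferentiableOn ℂ (fun z => e (z, t)) (ball 0 1)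
  der : ∀ t ∈ ball (0 : ℂ) 1, ∀ z ∈ ball (0 : ℂ) 1, deriv (fun z => e (z, t)) z ≠ 0
  har : ∀ t ∈ ball (0 : ℂ) 1, HarmonicOnNhd (fun z => φ (e (z, t))) (ball (0 : ℂ) 1)
  key : ∀ t ∈ ball (0 : ℂ) 1, ∀ (γ : ℂ → C2) (ζ₀ : ℂ) (ρ : ℝ), 0 < ρ →
    DifferentiableOn ℂ γ (ball ζ₀ ρ) → HarmonicOnNhd (fun z => φ (γ z)) (ball ζ₀ ρ) →
    γ ζ₀ ∈ plaque e t → (∀ ζ ∈ ball ζ₀ ρ, γ ζ ∈ e.target) → ∀ ζ ∈ ball ζ₀ ρ, γ ζ ∈ plaque e t

lemma GoodBox.half {U : Set C2} {φ : C2 → ℝ} {e e' : OpenPartialHomeomorph (ℂ × ℂ) C2}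
    (h : GoodBox U φ e) (h' : GoodBox U φ e') {t t' : ℂ} (ht : t ∈ ball (0 : ℂ) 1)
    (ht' : t' ∈ ball (0 : ℂ) 1) {x : C2} (hx : x ∈ plaque e t) (hx' : x ∈ plaque e' t') :
    ∃ N ∈ 𝓝 x, plaque e t ∩ N ⊆ plaque e' t' := by
  obtain ⟨z, hz, hzx⟩ := hx
  simp only at hzx
  have hsrc : (z, t) ∈ e.source := by
    rw [h.src]
    exact ⟨hz, ht⟩
  have hxt : x ∈ e.target := by
    rw [← hzx]
    exact e.map_source hsrc
  have hxt' : x ∈ e'.target := by
    obtain ⟨z', hz', hzx'⟩ := hx'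
    rw [← hzx']
    apply e'.map_source
    rw [h'.src]
    exact ⟨hz', ht'⟩
  have hcont : ContinuousAt (fun ζ => e (ζ, t)) z :=
    ((h.hol t ht).differentiableAt (isOpen_ball.mem_nhds hz)).continuousAt
  have hmem : e'.target ∈ 𝓝 (e (z, t)) := by
    rw [hzx]
    exact e'.open_target.mem_nhds hxt'
  have hev : ∀ᶠ ζ in 𝓝 z, ζ ∈ ball (0 : ℂ) 1 ∧ e (ζ, t) ∈ e'.target :=
    Filter.Eventually.and (isOpen_ball.mem_nhds hz) (hcont.eventually_mem hmem)
  obtain ⟨ρ, hρ, hball⟩ := Metric.eventually_nhds_iff_ball.mp hev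
  have hk := h'.key t' ht' (fun ζ => e (ζ, t)) z ρ hρ
    ((h.hol t ht).mono fun ζ hζ => (hball ζ hζ).1)
    ((h.har t ht).mono fun ζ hζ => (hball ζ hζ).1) (by
      rw [hzx]
      exact hx') (fun ζ hζ => (hball ζ hζ).2)
  refine ⟨{y | y ∈ e.target ∧ (e.symm y).1 ∈ ball z ρ}, ?_, ?_⟩
  · have h1 : ContinuousAt (fun y => (e.symm y).1) x :=
      (e.continuousAt_symm hxt).fst
    have h2 : (e.symm x).1 = z := by
      rw [← hzx, e.left_inv hsrc]
    exact Filter.Eventually.and (e.open_target.mem_nhds hxt)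
      (h1.eventually_mem (by
        rw [h2]
        exact ball_mem_nhds z hρ))
  · rintro y ⟨⟨ζ, hζ, rfl⟩, -, hy⟩
    have hs : (ζ, t) ∈ e.source := by
      rw [h.src]
      exact ⟨hζ, ht⟩
    rw [e.left_inv hs] at hy
    exact hk ζ hy

lemma GoodBox.compat {U : Set C2} {φ : C2 → ℝ} {e e' : OpenPartialHomeomorph (ℂ × ℂ) C2}
    (h : GoodBox U φ e) (h' : GoodBox U φ e') {t t' : ℂ} (ht : t ∈ ball (0 : ℂ) 1)
    (ht' : t' ∈ ball (0 : ℂ) 1) {x : C2} (hx : x ∈ plaque e t ∩ plaque e' t') :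
    ∃ N ∈ 𝓝 x, plaque e t ∩ N = plaque e' t' ∩ N := by
  obtain ⟨N, hN, hN1⟩ := h.half h' ht ht' hx.1 hx.2
  obtain ⟨N', hN', hN1'⟩ := h'.half h ht' ht hx.2 hx.1
  refine ⟨N ∩ N', inter_mem hN hN', ?_⟩
  ext y
  constructor
  · rintro ⟨hy, hyN, hyN'⟩
    exact ⟨hN1 ⟨hy, hyN⟩, hyN, hyN'⟩
  · rintro ⟨hy, hyN, hyN'⟩
    exact ⟨hN1' ⟨hy, hyN'⟩, hyN, hyN'⟩

theorem foliated_of_boxes {U : Set C2} {φ : C2 → ℝ}
    (h : ∀ x ∈ U, ∃ e, GoodBox U φ e ∧ x ∈ e.target) : FoliatedByHarmonicDiscs U φ := by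
  refine ⟨{e | GoodBox U φ e}, ?_, ?_, ?_, ?_⟩
  · intro e he
    exact ⟨he.src, he.tgt⟩
  · intro x hx
    exact h x hx
  · intro e he t ht
    exact ⟨he.hol t ht, he.der t ht, he.har t ht⟩
  · intro e he e' he' t ht t' ht' x hx
    exact he.compat he' ht ht' hx

section

variable {Ω : Set C2} {φ : C2 → ℝ} (hΩ : IsOpen Ω) (hφ : ContDiffOn ℝ 2 φ Ω)
  (hlev : ∀ x ∈ Ω, ∀ b, 0 ≤ lap2 φ x b) (hmax : IsMaximalOn Ω φ)

include hΩ hφ hlev hmax in
theorem exists_goodBox {x₀ : C2} (hx₀ : x₀ ∈ Ω) (hH : ∃ b, lap2 φ x₀ b ≠ 0) {U : Set C2}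
    (hU : IsOpen U) (hxU : x₀ ∈ U) : ∃ e, GoodBox U φ e ∧ x₀ ∈ e.target := by
  obtain ⟨T, κ, Q, N, hκ, hQ, H, hPU⟩ := exists_chart hΩ hφ hlev hmax hx₀ hH hU hxU
  have hε : (0 : ℝ) ≤ 1 / 64 := by norm_num
  have hε4 : (1 / 64 : ℝ) ≤ 1 / 64 := le_rfl
  set b := box1 H hε hε4 with hb
  set e : OpenPartialHomeomorph (ℂ × ℂ) C2 :=
    b.transHomeomorph (T.toHomeomorph.trans (Homeomorph.addLeft x₀)) with he
  have hex : ∀ p, e p = x₀ + T (p.1 / 2, ff H hε hε4 (p.2 / 8) (p.1 / 2)) := fun p => rfl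
  have hsrc : e.source = ball 0 1 ×ˢ ball 0 1 := rfl
  have htgt : ∀ y, y ∈ e.target ↔ ‖(T.symm (y - x₀)).1‖ < 1 / 2 ∧
      ‖cinv H hε hε4 (T.symm (y - x₀))‖ < 1 / 8 := by
    intro y
    have h1 : y ∈ e.target ↔ T.symm (-x₀ + y) ∈ b.target := Iff.rfl
    rw [h1, neg_add_eq_sub]
    have h2 : b.target = {q : ℂ × ℂ | ‖q.1‖ < 1 / 2} ∩ cinv H hε hε4 ⁻¹' ball 0 (1 / 8) := rfl
    rw [h2]
    simp only [Set.mem_inter_iff, Set.mem_preimage, mem_ball_zero_iff]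
    rfl
  have hnorm2 : ∀ z : ℂ, z ∈ ball (0 : ℂ) 1 → ‖z / 2‖ < 1 / 2 := by
    intro z hz
    rw [mem_ball_zero_iff] at hz
    rw [norm_div]
    simp
    linarith
  have hnorm8 : ∀ t : ℂ, t ∈ ball (0 : ℂ) 1 → ‖t / 8‖ ≤ 1 / 8 := by
    intro z hz
    rw [mem_ball_zero_iff] at hz
    rw [norm_div]
    simp
    linarith
  have hφval : ∀ x, φ (x₀ + T x) = κ * nrm φ x₀ T κ Q x + (Q x).re := by
    intro x
    unfold nrm
    field_simp
    ring
  have hQd : Differentiable ℂ Q := hQ.differentiable (by simp)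
  refine ⟨e, ⟨hsrc, ?_, ?_, ?_, ?_, ?_⟩, ?_⟩
  · intro y hy
    rw [htgt] at hy
    have h1 := cinv_spec H hε hε4 (q := T.symm (y - x₀)) hy.1.le
    have h2 : T.symm (y - x₀) ∈ Pd := by
      refine ⟨by linarith [hy.1], ?_⟩
      rw [← h1]
      have := norm_ff_le H hε hε4 hy.2.le (z := (T.symm (y - x₀)).1) (by linarith [hy.1])
      linarith
    have h3 := hPU _ h2
    simpa using h3
  · intro t ht
    have h1 : DifferentiableOn ℂ (fun z : ℂ => ff H hε hε4 (t / 8) (z / 2)) (ball 0 1) := by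
      refine (differentiableOn_ff H hε hε4 (t / 8)).comp (t := ball 0 1) (by fun_prop) ?_
      intro z hz
      rw [mem_ball_zero_iff]
      linarith [hnorm2 z hz]
    have h2 : DifferentiableOn ℂ (fun z : ℂ => (z / 2, ff H hε hε4 (t / 8) (z / 2)))
        (ball 0 1) := DifferentiableOn.prodMk (by fun_prop) h1
    exact (differentiableOn_const x₀).add (T.differentiable.comp_differentiableOn h2)
  · intro t ht z hz hd
    have h1 : DifferentiableAt ℂ (fun z : ℂ => ff H hε hε4 (t / 8) (z / 2)) z := by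
      have h2 : DifferentiableAt ℂ (ff H hε hε4 (t / 8)) (z / 2) :=
        (differentiableOn_ff H hε hε4 (t / 8)).differentiableAt
          (isOpen_ball.mem_nhds (by
            rw [mem_ball_zero_iff]
            linarith [hnorm2 z hz]))
      exact h2.comp z (by fun_prop)
    have h2 : HasDerivAt (fun z : ℂ => z / 2) (1 / 2) z := (hasDerivAt_id z).div_const 2
    have h3 := h2.prodMk h1.hasDerivAt
    have h4 := ((T : (ℂ × ℂ) →L[ℂ] C2).hasFDerivAt.comp_hasDerivAt z h3).const_add x₀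
    have h5 : deriv (fun z => e (z, t)) z =
        T (1 / 2, deriv (fun z : ℂ => ff H hε hε4 (t / 8) (z / 2)) z) := h4.deriv
    rw [h5] at hd
    have h6 := (map_eq_zero_iff T T.injective).mp hd
    have h7 := congrArg Prod.fst h6
    simp at h7
  · intro t ht
    obtain ⟨L, hL1, hL2, hL3, hL4, hL5⟩ := local_main H hε hε4 (hnorm8 t ht)
    set g : ℂ → ℂ × ℂ := fun z => (z / 2, ff H hε hε4 (t / 8) (z / 2)) with hg
    have hgd : DifferentiableOn ℂ g (ball 0 1) := by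
      have h1 : DifferentiableOn ℂ (fun z : ℂ => ff H hε hε4 (t / 8) (z / 2)) (ball 0 1) := by
        refine (differentiableOn_ff H hε hε4 (t / 8)).comp (t := ball 0 1) (by fun_prop) ?_
        intro z hz
        rw [mem_ball_zero_iff]
        linarith [hnorm2 z hz]
      exact DifferentiableOn.prodMk (by fun_prop) h1
    have hgm : ∀ z ∈ ball (0 : ℂ) 1, g z ∈ {x : ℂ × ℂ | ‖x.1‖ < 1 ∧ ‖x.2‖ < 2} := by
      intro z hz
      refine ⟨by linarith [hnorm2 z hz], ?_⟩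
      have := norm_ff_le H hε hε4 (hnorm8 t ht) (z := z / 2) (by linarith [hnorm2 z hz])
      change ‖ff H hε hε4 (t / 8) (z / 2)‖ < 2
      linarith
    have hF : DifferentiableOn ℂ (fun z => (κ : ℂ) * L (g z) + Q (g z)) (ball 0 1) :=
      (((hL2.differentiableOn (by simp)).comp hgd hgm).const_mul (κ : ℂ)).add
        (hQd.comp_differentiableOn hgd)
    have hh := harm_re isOpen_ball hF
    intro z hz
    refine (harmonicAt_congr_nhds ?_).mp (hh z hz)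
    filter_upwards [isOpen_ball.mem_nhds hz] with y hy
    rw [hex]
    have h1 := hL4 (y / 2) (by linarith [hnorm2 y hy])
    have h2 : φ (x₀ + T (y / 2, ff H hε hε4 (t / 8) (y / 2))) = κ *
        nrm φ x₀ T κ Q (y / 2, ff H hε hε4 (t / 8) (y / 2)) +
          (Q (y / 2, ff H hε hε4 (t / 8) (y / 2))).re := hφval _
    simp only [hg]
    rw [h2, h1]
    simp
  · intro t ht γ ζ₀ ρ hρ hγ hhar hγ0 hγt
    obtain ⟨L, hL1, hL2, hL3, hL4, hL5⟩ := local_main H hε hε4 (hnorm8 t ht)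
    set g : ℂ → ℂ × ℂ := fun z => T.symm (γ z - x₀) with hg
    have hgT : ∀ z, x₀ + T (g z) = γ z := by
      intro z
      simp [hg]
    have hgd : DifferentiableOn ℂ g (ball ζ₀ ρ) :=
      T.symm.differentiable.comp_differentiableOn (hγ.sub_const x₀)
    have hgb : ∀ z ∈ ball ζ₀ ρ, ‖(g z).1‖ < 1 / 2 ∧ ‖(g z).2‖ ≤ 3 / 16 := by
      intro z hz
      have h1 := (htgt _).mp (hγt z hz)
      refine ⟨h1.1, ?_⟩
      have h2 := cinv_spec H hε hε4 (q := g z) h1.1.le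
      rw [← h2]
      exact norm_ff_le H hε hε4 h1.2.le (by linarith [h1.1])
    have hgm : ∀ z ∈ ball ζ₀ ρ, g z ∈ {x : ℂ × ℂ | ‖x.1‖ < 1 ∧ ‖x.2‖ < 2} := by
      intro z hz
      have := hgb z hz
      exact ⟨by linarith, by linarith⟩
    have hgPd : ∀ z ∈ ball ζ₀ ρ, g z ∈ Pd := fun z hz => ⟨(hgm z hz).1.le, (hgm z hz).2.le⟩
    have hF : DifferentiableOn ℂ (fun z => (κ : ℂ) * L (g z) + Q (g z)) (ball ζ₀ ρ) :=
      (((hL2.differentiableOn (by simp)).comp hgd hgm).const_mul (κ : ℂ)).add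
        (hQd.comp_differentiableOn hgd)
    have hm : HarmonicOnNhd ((fun z => φ (γ z)) - fun z => ((κ : ℂ) * L (g z) + Q (g z)).re)
        (ball ζ₀ ρ) := fun z hz => (hhar z hz).sub (harm_re isOpen_ball hF z hz)
    have hmv : ∀ z, ((fun z => φ (γ z)) - fun z => ((κ : ℂ) * L (g z) + Q (g z)).re) z =
        κ * (nrm φ x₀ T κ Q (g z) - (L (g z)).re) := by
      intro z
      simp only [Pi.sub_apply]
      rw [← hgT z, hφval]
      simp
      ring
    have hz0 := harm_zero hρ hm (by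
      rw [hmv]
      obtain ⟨z, hz, hzx⟩ := hγ0
      simp only [hex] at hzx
      have h1 : g ζ₀ = (z / 2, ff H hε hε4 (t / 8) (z / 2)) := by
        simp only [hg]
        rw [← hzx]
        simp
      rw [h1, hL4 (z / 2) (by linarith [hnorm2 z hz])]
      ring) (by
      intro z hz
      rw [hmv]
      have := hL3 (g z) (hgPd z hz)
      have h2 : 0 ≤ nrm φ x₀ T κ Q (g z) - (L (g z)).re := by linarith
      positivity)
    intro z hz
    have h1 := hz0 z hz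
    rw [hmv] at h1
    have h2 : nrm φ x₀ T κ Q (g z) = (L (g z)).re := by
      rcases mul_eq_zero.mp h1 with h | h
      · exact absurd h hκ.ne'
      · linarith
    have h3 := hL5 (g z) (hgPd z hz) h2
    refine ⟨2 * (g z).1, ?_, ?_⟩
    · rw [mem_ball_zero_iff, norm_mul]
      simp
      linarith [(hgb z hz).1]
    · simp only [hex]
      have e1 : 2 * (g z).1 / 2 = (g z).1 := by ring
      rw [e1, ← h3]
      exact hgT z
  · rw [htgt]
    have h1 : T.symm (x₀ - x₀) = 0 := by simp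
    rw [h1]
    have h2 := cinv_ff H hε hε4 (z := 0) (c := 0) (by simp)
    rw [ff_zero] at h2
    have h3 : cinv H hε hε4 (0 : ℂ × ℂ) = 0 := h2
    rw [h3]
    simp

end

end Pool.Agent.Helper853.Df
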