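import Pool.Agent.Helper853.Df.Boxes
import Pool.Agent.Helper853.Zm.LocalPsh

open scoped Topology ENNReal ComplexConjugate ContDiff ComplexOrder
open MeasureTheory Filter Metric InnerProductSpace

namespace Pool.Agent.Helper853.Df

lemma cHess_eq (u : C2 → ℝ) (x : C2) : cHess u x = Helper853.cHess u x := rfl

lemma cHess_ne_zero_iff {u : C2 → ℝ} {x : C2} (hu : ContDiffAt ℝ 2 u x)
    (hpos : ∀ b, 0 ≤ lap2 u x b) : cHess u x ≠ 0 ↔ ∃ b, lap2 u x b ≠ 0 := by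
  rw [cHess_eq]
  constructor
  · intro h
    by_contra hcon
    push Not at hcon
    apply h
    have hps : (Helper853.cHess u x).PosSemidef := (cHess_posSemidef_iff hu).mpr hpos
    rw [← hps.trace_eq_zero_iff]
    unfold Matrix.trace
    apply Finset.sum_eq_zero
    intro i _
    have h1 := cHess_quadForm hu (Pi.single i 1)
    rw [hcon] at h1
    simpa using h1
  · rintro ⟨b, hb⟩ h
    have h1 := cHess_quadForm hu (star b)
    rw [h, star_star, Matrix.zero_mulVec, dotProduct_zero] at h1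
    have h2 : (1 / 4) * lap2 u x b = 0 := by exact_mod_cast h1.symm
    apply hb
    linarith

lemma psh_zm {Ω : Set C2} {u : C2 → EReal} (h : IsPshOn Ω u) : Zm.IsPshOn Ω u := h

lemma lev_of_psh {Ω : Set C2} (hΩ : IsOpen Ω) {φ : C2 → ℝ} (hφ : ContDiffOn ℝ 2 φ Ω)
    (hpsh : IsPshOn Ω fun x => (φ x : EReal)) : ∀ x ∈ Ω, ∀ b, 0 ≤ lap2 φ x b := by
  intro x hx b
  exact Zm.lap2_nonneg_local hΩ hφ.continuousOn
    (Zm.subMean_of_isPshOn hφ.continuousOn (psh_zm hpsh)) hx (hφ.contDiffAt (hΩ.mem_nhds hx)) b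

lemma isOpen_nonzeroSet {Ω : Set C2} (hΩ : IsOpen Ω) {φ : C2 → ℝ} (hφ : ContDiffOn ℝ 2 φ Ω)
    (hlev : ∀ x ∈ Ω, ∀ b, 0 ≤ lap2 φ x b) : IsOpen (nonzeroSet Ω φ) := by
  have hc2 : ContinuousOn (fderiv ℝ (fderiv ℝ φ)) Ω :=
    (hφ.fderiv_of_isOpen hΩ (m := 1) (by norm_num)).continuousOn_fderiv_of_isOpen hΩ (by norm_num)
  have e : nonzeroSet Ω φ = ⋃ b : C2, Ω ∩ (fun x => lap2 φ x b) ⁻¹' {0}ᶜ := by
    ext x
    simp only [nonzeroSet, Set.mem_iUnion, Set.mem_inter_iff, Set.mem_preimage,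
      Set.mem_compl_iff, Set.mem_singleton_iff]
    constructor
    · rintro ⟨hx, hH⟩
      obtain ⟨b, hb⟩ := (cHess_ne_zero_iff (hφ.contDiffAt (hΩ.mem_nhds hx)) (hlev x hx)).mp hH
      exact ⟨b, hx, hb⟩
    · rintro ⟨b, hx, hb⟩
      exact ⟨hx, (cHess_ne_zero_iff (hφ.contDiffAt (hΩ.mem_nhds hx)) (hlev x hx)).mpr ⟨b, hb⟩⟩
  rw [e]
  apply isOpen_iUnion
  intro b
  apply ContinuousOn.isOpen_inter_preimage _ hΩ isOpen_compl_singleton
  unfold lap2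
  exact ((hc2.clm_apply continuousOn_const).clm_apply continuousOn_const).add
    ((hc2.clm_apply continuousOn_const).clm_apply continuousOn_const)

theorem foliation {Ω : Set C2} (hΩ : IsOpen Ω) {φ : C2 → ℝ} (hφ : ContDiffOn ℝ 2 φ Ω)
    (hpsh : IsPshOn Ω fun x => (φ x : EReal)) (hmax : IsMaximalOn Ω φ) :
    IsOpen (nonzeroSet Ω φ) ∧ FoliatedByHarmonicDiscs (nonzeroSet Ω φ) φ := by
  have hlev := lev_of_psh hΩ hφ hpsh
  have hU := isOpen_nonzeroSet hΩ hφ hlev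
  refine ⟨hU, foliated_of_boxes ?_⟩
  intro x hx
  exact exists_goodBox hΩ hφ hlev hmax hx.1
    ((cHess_ne_zero_iff (hφ.contDiffAt (hΩ.mem_nhds hx.1)) (hlev x hx.1)).mp hx.2) hU hx

end Pool.Agent.Helper853.Df
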