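import Pool.Agent.Helper853.Df.Norm

open scoped Topology ENNReal ComplexConjugate ContDiff
open MeasureTheory Filter Metric

namespace Pool.Agent.Helper853.Df

lemma lap2_smul {φ : C2 → ℝ} {x₀ : C2} (h : ContDiffAt ℝ 2 φ x₀) (z : ℂ) (u : C2) :
    lap2 φ x₀ (z • u) = ‖z‖ ^ 2 * lap2 φ x₀ u := by
  have e : Complex.I • z • u = (-z.im) • u + z.re • (Complex.I • u) := by
    rw [complex_smul_eq z u, smul_add, smul_comm Complex.I z.re u,
      smul_comm Complex.I z.im (Complex.I • u), I_smul_I]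
    rw [smul_neg, neg_smul, add_comm]
  rw [lap2_eq, lap2_eq, e, complex_smul_eq z u]
  simp only [BB_add_left, BB_add_right, BB_smul_left, BB_smul_right]
  rw [BB_symm h (Complex.I • u) u, Complex.sq_norm, Complex.normSq_apply]
  ring

lemma exists_equiv {φ : C2 → ℝ} {x₀ : C2} (h : ContDiffAt ℝ 2 φ x₀) {u₀ u₁ : C2} (hu : u₀ ≠ 0)
    (h0 : lap2 φ x₀ u₀ = 0) (h1 : lap2 φ x₀ u₁ ≠ 0) :
    ∃ T : (ℂ × ℂ) ≃L[ℂ] C2, ∀ x, T x = x.1 • u₀ + x.2 • u₁ := by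
  set f : (ℂ × ℂ) →ₗ[ℂ] C2 := (LinearMap.fst ℂ ℂ ℂ).smulRight u₀ +
    (LinearMap.snd ℂ ℂ ℂ).smulRight u₁ with hf
  have hfx : ∀ x, f x = x.1 • u₀ + x.2 • u₁ := fun x => rfl
  have hinj : Function.Injective f := by
    rw [injective_iff_map_eq_zero]
    intro x hx
    rw [hfx] at hx
    by_cases hx2 : x.2 = 0
    · rw [hx2, zero_smul, add_zero, smul_eq_zero] at hx
      rcases hx with hx | hx
      · exact Prod.ext hx hx2
      · exact absurd hx hu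
    · exfalso
      have e : u₁ = (-(x.1 / x.2)) • u₀ := by
        have h2 : x.2 • u₁ = -(x.1 • u₀) := by
          rw [eq_neg_iff_add_eq_zero, add_comm]
          exact hx
        have h3 : u₁ = (x.2)⁻¹ • (x.2 • u₁) := by
          rw [smul_smul, inv_mul_cancel₀ hx2, one_smul]
        rw [h3, h2, smul_neg, smul_smul, ← neg_smul]
        congr 1
        field_simp
      rw [e, lap2_smul h, h0, mul_zero] at h1
      exact h1 rfl
  have hrank : Module.finrank ℂ (ℂ × ℂ) = Module.finrank ℂ C2 := by simp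
  refine ⟨(LinearEquiv.ofInjectiveOfFinrankEq f hinj hrank).toContinuousLinearEquiv, ?_⟩
  intro x
  rfl

lemma isCompact_Pd : IsCompact Pd := by
  have : Pd = closedBall (0 : ℂ) 1 ×ˢ closedBall (0 : ℂ) 2 := by
    ext x
    simp [Pd]
  rw [this]
  exact (isCompact_closedBall _ _).prod (isCompact_closedBall _ _)

section

variable {Ω : Set C2} {φ : C2 → ℝ} (hΩ : IsOpen Ω) (hφ : ContDiffOn ℝ 2 φ Ω)
  (hlev : ∀ x ∈ Ω, ∀ b, 0 ≤ lap2 φ x b) (hmax : IsMaximalOn Ω φ)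

/-- the normalised function -/
noncomputable def nrm (φ : C2 → ℝ) (x₀ : C2) (T : (ℂ × ℂ) ≃L[ℂ] C2) (κ : ℝ) (Q : ℂ × ℂ → ℂ)
    (x : ℂ × ℂ) : ℝ := κ⁻¹ * (φ (x₀ + T x) + -(Q x).re)

lemma T_contDiff (T : (ℂ × ℂ) ≃L[ℂ] C2) : ContDiff ℝ ∞ T :=
  (T : (ℂ × ℂ) →L[ℂ] C2).contDiff.restrict_scalars ℝ

lemma re_contDiff {Q : ℂ × ℂ → ℂ} (hQ : ContDiff ℂ ∞ Q) : ContDiff ℝ ∞ fun x => (Q x).re :=
  Complex.reCLM.contDiff.comp (hQ.restrict_scalars ℝ)

include hφ hΩ in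
lemma nrm_contDiffAt {x₀ : C2} (T : (ℂ × ℂ) ≃L[ℂ] C2) (κ : ℝ) {Q : ℂ × ℂ → ℂ}
    (hQ : ContDiff ℂ ∞ Q) {x : ℂ × ℂ} (hx : x₀ + T x ∈ Ω) :
    ContDiffAt ℝ 2 (nrm φ x₀ T κ Q) x := by
  have h1 : ContDiffAt ℝ 2 (fun x => x₀ + T x) x :=
    (contDiff_const.add ((T_contDiff T).of_le ENat.LEInfty.out)).contDiffAt
  have h2 : ContDiffAt ℝ 2 (fun x => φ (x₀ + T x)) x :=
    (hφ.contDiffAt (hΩ.mem_nhds hx)).comp x h1
  exact contDiffAt_const.mul (h2.add ((re_contDiff hQ).of_le ENat.LEInfty.out).contDiffAt.neg)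

include hφ hΩ hlev in
/-- the Levi form of the normalised function -/
lemma nrm_lev {x₀ : C2} (T : (ℂ × ℂ) ≃L[ℂ] C2) {κ : ℝ} (hκ : 0 < κ) {Q : ℂ × ℂ → ℂ}
    (hQ : ContDiff ℂ ∞ Q) {x : ℂ × ℂ} (hx : x₀ + T x ∈ Ω) (v : ℂ × ℂ) :
    0 ≤ fderiv ℝ (fderiv ℝ (nrm φ x₀ T κ Q)) x v v +
      fderiv ℝ (fderiv ℝ (nrm φ x₀ T κ Q)) x (Complex.I • v) (Complex.I • v) := by
  have hc := nrm_contDiffAt hΩ hφ T κ hQ hx
  have hcφ := hφ.contDiffAt (hΩ.mem_nhds hx)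
  set K : ℂ → ℂ := fun ζ => Q (x + ζ • v) with hK
  have hKd : ∀ᶠ z in 𝓝 (0 : ℂ), DifferentiableAt ℂ K z := by
    filter_upwards with z
    have h1 : DifferentiableAt ℂ (fun ζ : ℂ => x + ζ • v) z := by fun_prop
    exact ((hQ.differentiable (by simp)) _).comp z h1
  have key : ∀ a : ℂ, fderiv ℝ (fderiv ℝ (nrm φ x₀ T κ Q)) x (a • v) (a • v) =
      κ⁻¹ * (fderiv ℝ (fderiv ℝ φ) (x₀ + T x) (a • T v) (a • T v) +
        -(a ^ 2 * deriv (deriv K) 0).re) := by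
    intro a
    have h1 := SD_line hc (b := v) a
    have h2 := ((SD_line hcφ (b := T v) a).add (SD_re hKd a).neg).const_mul κ⁻¹
    refine h1.unique (h2.congr ?_)
    intro z
    simp only [nrm, hK, map_add, map_smul]
    rw [add_assoc]
  have k1 := key 1
  have k2 := key Complex.I
  rw [one_smul, one_smul, one_pow, one_mul] at k1
  rw [Complex.I_sq, neg_one_mul, Complex.neg_re] at k2
  have h3 := hlev _ hx (T v)
  unfold lap2 at h3
  have : fderiv ℝ (fderiv ℝ (nrm φ x₀ T κ Q)) x v v +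
      fderiv ℝ (fderiv ℝ (nrm φ x₀ T κ Q)) x (Complex.I • v) (Complex.I • v) =
      κ⁻¹ * (fderiv ℝ (fderiv ℝ φ) (x₀ + T x) (T v) (T v) +
        fderiv ℝ (fderiv ℝ φ) (x₀ + T x) (Complex.I • T v) (Complex.I • T v)) := by
    rw [k1, k2]
    ring
  rw [this]
  positivity

include hφ hΩ hlev hmax in
/-- the comparison property of the normalised function -/
lemma nrm_mx {x₀ : C2} (T : (ℂ × ℂ) ≃L[ℂ] C2) {κ : ℝ} (hκ : 0 < κ) {Q : ℂ × ℂ → ℂ}
    (hQ : ContDiff ℂ ∞ Q) (hPd : ∀ x ∈ Pd, x₀ + T x ∈ Ω) (L : ℂ × ℂ → ℂ) (hL1 : ContinuousOn L Pd)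
    (hL2 : ContDiffOn ℂ ∞ L {x : ℂ × ℂ | ‖x.1‖ < 1 ∧ ‖x.2‖ < 2})
    (hL3 : ∀ x ∈ Pd, ‖x.1‖ = 1 ∨ ‖x.2‖ = 2 → (L x).re < nrm φ x₀ T κ Q x) :
    ∀ x ∈ Pd, (L x).re ≤ nrm φ x₀ T κ Q x := by
  set Po : Set (ℂ × ℂ) := {x : ℂ × ℂ | ‖x.1‖ < 1 ∧ ‖x.2‖ < 2} with hPo
  have hPoo : IsOpen Po := by
    rw [hPo, Set.ofPred_and]
    exact (isOpen_lt (continuous_fst.norm) continuous_const).inter
      (isOpen_lt (continuous_snd.norm) continuous_const)
  have hPoPd : Po ⊆ Pd := fun x hx => ⟨hx.1.le, hx.2.le⟩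
  set Ai : C2 → ℂ × ℂ := fun y => T.symm (y - x₀) with hAi
  have hAic : ContDiff ℂ ∞ Ai :=
    (T.symm : C2 →L[ℂ] (ℂ × ℂ)).contDiff.comp (contDiff_id.sub contDiff_const)
  have hAAi : ∀ y, x₀ + T (Ai y) = y := by
    intro y
    simp [hAi]
  have hAiA : ∀ x, Ai (x₀ + T x) = x := by
    intro x
    simp [hAi]
  have hψc : ContinuousOn (nrm φ x₀ T κ Q) Pd := fun x hx =>
    (nrm_contDiffAt hΩ hφ T κ hQ (hPd x hx)).continuousAt.continuousWithinAt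
  set O : Set C2 := Ai ⁻¹' Po with hO
  have hOo : IsOpen O := hPoo.preimage hAic.continuous
  set C : Set (ℂ × ℂ) := {x ∈ Pd | nrm φ x₀ T κ Q x ≤ (L x).re} with hC
  have hCc : IsCompact C := by
    have h1 : IsClosed C := by
      have h2 : ContinuousOn (fun x => nrm φ x₀ T κ Q x - (L x).re) Pd :=
        hψc.sub (Complex.continuous_re.comp_continuousOn hL1)
      have h3 := h2.preimage_isClosed_of_isClosed isCompact_Pd.isClosed
        (isClosed_Iic (a := (0 : ℝ)))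
      convert h3 using 1
      ext x
      simp [hC]
    exact isCompact_Pd.of_isClosed_subset h1 (fun x hx => hx.1)
  set K₀ : Set C2 := (fun x => x₀ + T x) '' C with hK₀
  have hK₀c : IsCompact K₀ := hCc.image (by fun_prop)
  have hCPo : C ⊆ Po := by
    rintro x ⟨hx, hx2⟩
    by_contra hcon
    have hor : ‖x.1‖ = 1 ∨ ‖x.2‖ = 2 := by
      by_contra h
      push Not at h
      exact hcon ⟨lt_of_le_of_ne hx.1 h.1, lt_of_le_of_ne hx.2 h.2⟩
    have := hL3 x hx hor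
    linarith
  have hKO : K₀ ⊆ O := by
    rintro y ⟨x, hx, rfl⟩
    change Ai (x₀ + T x) ∈ Po
    rw [hAiA]
    exact hCPo hx
  set f : C2 → ℂ := fun y => (κ : ℂ) * L (Ai y) + Q (Ai y) with hf
  have hfc : ∀ y ∈ O, ContDiffAt ℂ ∞ f y := by
    intro y hy
    have h1 : ContDiffAt ℂ ∞ L (Ai y) := hL2.contDiffAt (hPoo.mem_nhds hy)
    exact (contDiffAt_const.mul (h1.comp y hAic.contDiffAt)).add
      (hQ.contDiffAt.comp y hAic.contDiffAt)
  have hfre : ∀ y ∈ O, ContDiffAt ℝ 2 (fun y => (f y).re) y := by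
    intro y hy
    exact Complex.reCLM.contDiff.contDiffAt.comp y
      (((hfc y hy).restrict_scalars ℝ).of_le ENat.LEInfty.out)
  have hval : ∀ y, (f y).re = κ * (L (Ai y)).re + (Q (Ai y)).re := by
    intro y
    simp [hf]
  have hφval : ∀ y, φ y = κ * nrm φ x₀ T κ Q (Ai y) + (Q (Ai y)).re := by
    intro y
    unfold nrm
    rw [hAAi]
    field_simp
    ring
  have hOΩ : O ⊆ Ω := by
    intro y hy
    have := hPd (Ai y) (hPoPd hy)
    rwa [hAAi] at this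
  have hmain := fun y (hy : y ∈ O) => max_le_of_glue hΩ hφ hlev hmax hOo hOΩ hK₀c hKO
    (w := fun y => (f y).re) hfre (fun y hy b => by
      have hev : ∀ᶠ z in 𝓝 y, DifferentiableAt ℂ f z := by
        filter_upwards [hOo.mem_nhds hy] with z hz
        exact (hfc z hz).differentiableAt (by simp)
      have := levi_re hev (hfre y hy) b
      unfold lap2
      exact this.symm.le)
    (fun y hy => by
      have h1 : ¬ nrm φ x₀ T κ Q (Ai y) ≤ (L (Ai y)).re := by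
        intro h
        apply hy.2
        exact ⟨Ai y, ⟨hPoPd hy.1, h⟩, hAAi y⟩
      push Not at h1
      rw [hval, hφval]
      have := mul_lt_mul_of_pos_left h1 hκ
      linarith) (x := y) hy
  intro x hx
  by_cases hxo : x ∈ Po
  · have h1 := hmain (x₀ + T x) (by
      change Ai (x₀ + T x) ∈ Po
      rw [hAiA]
      exact hxo)
    rw [hval, hφval, hAiA] at h1
    have h2 : κ * (L x).re ≤ κ * nrm φ x₀ T κ Q x := by linarith
    exact le_of_mul_le_mul_left h2 hκ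
  · have hor : ‖x.1‖ = 1 ∨ ‖x.2‖ = 2 := by
      by_contra h
      push Not at h
      exact hxo ⟨lt_of_le_of_ne hx.1 h.1, lt_of_le_of_ne hx.2 h.2⟩
    exact (hL3 x hx hor).le

end

end Pool.Agent.Helper853.Df
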