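import Pool.Agent.Helper853.Df.Chart

open scoped Topology ENNReal ComplexConjugate ContDiff
open MeasureTheory Filter Metric

namespace Pool.Agent.Helper853.Df

section

variable {Ω : Set C2} {φ : C2 → ℝ} (hΩ : IsOpen Ω) (hφ : ContDiffOn ℝ 2 φ Ω)
  (hlev : ∀ x ∈ Ω, ∀ b, 0 ≤ lap2 φ x b) (hmax : IsMaximalOn Ω φ)

/-- derivative of the Taylor remainder -/
noncomputable def DR (φ : C2 → ℝ) (x₀ v : C2) : C2 →L[ℝ] ℝ :=
  fderiv ℝ φ (x₀ + v) - fderiv ℝ φ x₀ - fderiv ℝ (fderiv ℝ φ) x₀ v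

lemma DR_zero (x₀ : C2) : DR φ x₀ 0 = 0 := by simp [DR]

include hφ hΩ in
lemma exists_delta {x₀ : C2} (hx₀ : x₀ ∈ Ω) {U : Set C2} (hU : IsOpen U) (hxU : x₀ ∈ U) {ε' : ℝ}
    (hε' : 0 < ε') : ∃ δ > 0, (∀ v : C2, ‖v‖ < δ → x₀ + v ∈ Ω ∧ x₀ + v ∈ U) ∧
      ∀ v v' : C2, ‖v‖ < δ → ‖v'‖ < δ → ‖DR φ x₀ v - DR φ x₀ v'‖ ≤ ε' * ‖v - v'‖ := by
  have hcd : ContDiffAt ℝ 2 φ x₀ := hφ.contDiffAt (hΩ.mem_nhds hx₀)
  have hD2 : ContinuousAt (fderiv ℝ (fderiv ℝ φ)) x₀ := by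
    have h1 : ContDiffAt ℝ 1 (fderiv ℝ φ) x₀ := hcd.fderiv_right (by norm_num)
    have h2 : ContDiffAt ℝ 0 (fderiv ℝ (fderiv ℝ φ)) x₀ := h1.fderiv_right (by norm_num)
    exact h2.continuousAt
  obtain ⟨δ₁, hδ₁, h1⟩ := (Metric.continuousAt_iff (f := fderiv ℝ (fderiv ℝ φ))
      (a := x₀)).mp hD2 ε' hε'
  obtain ⟨δ₂, hδ₂, h2⟩ := Metric.mem_nhds_iff.mp (Filter.inter_mem (hΩ.mem_nhds hx₀)
    (hU.mem_nhds hxU))
  have hin : ∀ v : C2, ‖v‖ < min δ₁ δ₂ → x₀ + v ∈ Ω ∧ x₀ + v ∈ U := by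
    intro v hv
    have : x₀ + v ∈ Ω ∩ U := h2 (by
      rw [mem_ball, dist_eq_norm, add_sub_cancel_left]
      exact lt_of_lt_of_le hv (min_le_right _ _))
    exact this
  refine ⟨min δ₁ δ₂, lt_min hδ₁ hδ₂, hin, ?_⟩
  intro v v' hv hv'
  have hder : ∀ y ∈ ball (0 : C2) (min δ₁ δ₂), HasFDerivWithinAt (DR φ x₀)
      (fderiv ℝ (fderiv ℝ φ) (x₀ + y) - fderiv ℝ (fderiv ℝ φ) x₀) (ball 0 (min δ₁ δ₂)) y := by
    intro y hy
    rw [mem_ball_zero_iff] at hy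
    have hcy : ContDiffAt ℝ 2 φ (x₀ + y) := hφ.contDiffAt (hΩ.mem_nhds (hin y hy).1)
    have k1 : DifferentiableAt ℝ (fderiv ℝ φ) (x₀ + y) := fderiv_diffAt hcy
    have k2 : HasFDerivAt (fun y => fderiv ℝ φ (x₀ + y)) (fderiv ℝ (fderiv ℝ φ) (x₀ + y)) y := by
      have h3 : HasFDerivAt (fun y : C2 => x₀ + y) (ContinuousLinearMap.id ℝ _) y :=
        (hasFDerivAt_id y).const_add x₀
      exact k1.hasFDerivAt.comp y h3
    have k3 : HasFDerivAt (fun y => fderiv ℝ (fderiv ℝ φ) x₀ y) (fderiv ℝ (fderiv ℝ φ) x₀) y :=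
      (fderiv ℝ (fderiv ℝ φ) x₀).hasFDerivAt
    exact ((k2.sub_const _).sub k3).hasFDerivWithinAt
  have hb := (convex_ball (0 : C2) (min δ₁ δ₂)).norm_image_sub_le_of_norm_hasFDerivWithin_le
    (f := DR φ x₀) (C := ε') hder (fun y hy => by
      rw [mem_ball_zero_iff] at hy
      have h3 : dist (x₀ + y) x₀ < δ₁ := by
        rw [dist_eq_norm, add_sub_cancel_left]
        exact lt_of_lt_of_le hy (min_le_left _ _)
      exact (lt_of_eq_of_lt (dist_eq_norm (fderiv ℝ (fderiv ℝ φ) (x₀ + y)) _).symm (h1 h3)).le)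
    (mem_ball_zero_iff.mpr hv') (mem_ball_zero_iff.mpr hv)
  exact hb

include hφ hΩ in
lemma hasFDerivAt_R {x₀ : C2} (hx₀ : x₀ ∈ Ω) {v : C2} (hv : x₀ + v ∈ Ω) :
    HasFDerivAt (fun v => φ (x₀ + v) - φ x₀ - fderiv ℝ φ x₀ v - (1 / 2) * BB φ x₀ v v)
      (DR φ x₀ v) v := by
  have hcd : ContDiffAt ℝ 2 φ x₀ := hφ.contDiffAt (hΩ.mem_nhds hx₀)
  set B := fderiv ℝ (fderiv ℝ φ) x₀ with hB
  have k1 : HasFDerivAt (fun y => φ (x₀ + y)) (fderiv ℝ φ (x₀ + v)) v := by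
    have hd : DifferentiableAt ℝ φ (x₀ + v) :=
      (hφ.contDiffAt (hΩ.mem_nhds hv)).differentiableAt (by norm_num)
    have h3 : HasFDerivAt (fun y : C2 => x₀ + y) (ContinuousLinearMap.id ℝ _) v :=
      (hasFDerivAt_id v).const_add x₀
    exact hd.hasFDerivAt.comp v h3
  have k2 : HasFDerivAt (fun y => B y y) (B v + B.flip v) v := by
    have := (B.hasFDerivAt (x := v)).clm_apply (hasFDerivAt_id v)
    exact this.congr_fderiv (by ext1 v; simp)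
  have k3 : B.flip v = B v := by
    ext1 w
    rw [ContinuousLinearMap.flip_apply, hB]
    exact snd_symm hcd w v
  rw [k3] at k2
  have k4 := ((k1.sub_const (φ x₀)).sub (fderiv ℝ φ x₀).hasFDerivAt).sub (k2.const_mul (1 / 2))
  refine k4.congr_fderiv ?_
  ext1 w
  simp only [DR, _root_.sub_apply, _root_.add_apply, _root_.smul_apply, smul_eq_mul]
  ring

include hφ hΩ hlev hmax in
/-- existence of normalising coordinates -/
theorem exists_chart {x₀ : C2} (hx₀ : x₀ ∈ Ω) (hH : ∃ b, lap2 φ x₀ b ≠ 0) {U : Set C2}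
    (hU : IsOpen U) (hxU : x₀ ∈ U) : ∃ (T : (ℂ × ℂ) ≃L[ℂ] C2) (κ : ℝ) (Q : ℂ × ℂ → ℂ)
      (N : Set (ℂ × ℂ)), 0 < κ ∧ ContDiff ℂ ∞ Q ∧ Nrm (nrm φ x₀ T κ Q) N (1 / 64) ∧
        ∀ x ∈ Pd, x₀ + T x ∈ U := by
  have hcd : ContDiffAt ℝ 2 φ x₀ := hφ.contDiffAt (hΩ.mem_nhds hx₀)
  obtain ⟨b₀, hb₀, hb₀0⟩ := exists_degenerate hΩ hφ hlev hmax hx₀
  obtain ⟨b₁, hb₁⟩ := hH
  have hb₁pos : 0 < lap2 φ x₀ b₁ := lt_of_le_of_ne (hlev x₀ hx₀ b₁) hb₁.symm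
  obtain ⟨T₁, hT₁⟩ := exists_equiv hcd hb₀ hb₀0 hb₁
  set M : ℝ := ‖(T₁ : (ℂ × ℂ) →L[ℂ] C2)‖ + 1 with hM
  have hMpos : 0 < M := by positivity
  have hT₁M : ∀ x, ‖T₁ x‖ ≤ M * ‖x‖ := by
    intro x
    have := (T₁ : (ℂ × ℂ) →L[ℂ] C2).le_opNorm x
    calc ‖T₁ x‖ ≤ ‖(T₁ : (ℂ × ℂ) →L[ℂ] C2)‖ * ‖x‖ := this
      _ ≤ M * ‖x‖ := by
        gcongr
        linarith
  set h₁ : ℝ := lap2 φ x₀ b₁ with hh₁
  set ε' : ℝ := h₁ / (256 * M ^ 2) with hε'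
  have hε'pos : 0 < ε' := by positivity
  obtain ⟨δ, hδ, hin, hDR⟩ := exists_delta hΩ hφ hx₀ hU hxU hε'pos
  set r : ℝ := δ / (4 * M) with hr
  have hrpos : 0 < r := by positivity
  set u₀ : C2 := (r : ℂ) • b₀ with hu₀
  set u₁ : C2 := (r : ℂ) • b₁ with hu₁
  have hrn : ‖(r : ℂ)‖ = r := by rw [Complex.norm_real, Real.norm_of_nonneg hrpos.le]
  have hu₀0 : lap2 φ x₀ u₀ = 0 := by rw [hu₀, lap2_smul hcd, hb₀0, mul_zero]
  have hu₁l : lap2 φ x₀ u₁ = r ^ 2 * h₁ := by rw [hu₁, lap2_smul hcd, hrn]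
  have hu₁pos : 0 < lap2 φ x₀ u₁ := by rw [hu₁l]; positivity
  have hu₀n : u₀ ≠ 0 := by
    rw [hu₀]
    exact smul_ne_zero (by exact_mod_cast hrpos.ne') hb₀
  obtain ⟨T, hT⟩ := exists_equiv hcd hu₀n hu₀0 hu₁pos.ne'
  set κ : ℝ := lap2 φ x₀ u₁ / 4 with hκ
  have hκpos : 0 < κ := by positivity
  have hTT : ∀ x, T x = (r : ℂ) • T₁ x := by
    intro x
    rw [hT, hT₁, hu₀, hu₁, smul_add, smul_comm x.1, smul_comm x.2]
  have hTn : ∀ x, ‖T x‖ ≤ r * M * ‖x‖ := by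
    intro x
    rw [hTT, norm_smul, hrn, mul_assoc]
    gcongr
    exact hT₁M x
  have hTδ : ∀ x ∈ Pd, ‖T x‖ < δ := by
    intro x hx
    have h1 := hTn x
    have h2 := norm_le_of_mem hx
    calc ‖T x‖ ≤ r * M * ‖x‖ := h1
      _ ≤ r * M * 2 := by gcongr
      _ = δ / 2 := by rw [hr]; field_simp; norm_num
      _ < δ := by linarith
  set Q : ℂ × ℂ → ℂ := QQp φ x₀ u₀ u₁ with hQ
  have hQc : ContDiff ℂ ∞ Q := contDiff_QQp u₀ u₁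
  have hPd : ∀ x ∈ Pd, x₀ + T x ∈ Ω := fun x hx => (hin _ (hTδ x hx)).1
  -- the deviation
  have heta : eta (nrm φ x₀ T κ Q) = fun x => κ⁻¹ * (φ (x₀ + T x) - φ x₀ - fderiv ℝ φ x₀ (T x) -
      (1 / 2) * BB φ x₀ (T x) (T x)) := by
    funext x
    unfold eta nrm
    rw [hQ, QQp_re hcd (fun b => hlev x₀ hx₀ b) hu₀0, ← hT, ← hκ]
    field_simp
    ring
  set TR : (ℂ × ℂ) →L[ℝ] C2 := (T : (ℂ × ℂ) →L[ℂ] C2).restrictScalars ℝ with hTR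
  have hTRa : ∀ x, TR x = T x := fun x => rfl
  have hTRn : ‖TR‖ ≤ r * M := ContinuousLinearMap.opNorm_le_bound _ (by positivity)
    (fun x => hTn x)
  have hD : ∀ x, ‖T x‖ < δ → HasFDerivAt (eta (nrm φ x₀ T κ Q))
      (κ⁻¹ • (DR φ x₀ (T x)).comp TR) x := by
    intro x hx
    rw [heta]
    have h1 := (hasFDerivAt_R hΩ hφ hx₀ (hin _ hx).1).comp x TR.hasFDerivAt
    exact h1.const_mul κ⁻¹
  refine ⟨T, κ, Q, (fun x => x₀ + T x) ⁻¹' ball x₀ δ, hκpos, hQc, ?_, fun x hx =>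
    (hin _ (hTδ x hx)).2⟩
  refine ⟨isOpen_ball.preimage (by fun_prop), ?_, ?_, ?_, ?_, ?_, ?_, ?_⟩
  · intro x hx
    rw [Set.mem_preimage, mem_ball, dist_eq_norm, add_sub_cancel_left]
    exact hTδ x hx
  · intro x hx
    rw [Set.mem_preimage, mem_ball, dist_eq_norm, add_sub_cancel_left] at hx
    exact (nrm_contDiffAt hΩ hφ T κ hQc (hin _ hx).1).contDiffWithinAt
  · intro x hx v
    rw [Set.mem_preimage, mem_ball, dist_eq_norm, add_sub_cancel_left] at hx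
    exact nrm_lev hΩ hφ hlev T hκpos hQc (hin _ hx).1 v
  · intro x hx y hy
    have e : κ⁻¹ • (DR φ x₀ (T x)).comp TR - κ⁻¹ • (DR φ x₀ (T y)).comp TR =
        κ⁻¹ • ((DR φ x₀ (T x) - DR φ x₀ (T y)).comp TR) := by
      apply ContinuousLinearMap.ext
      intro v
      simp only [_root_.sub_apply, _root_.smul_apply, ContinuousLinearMap.comp_apply, smul_eq_mul]
      ring
    rw [(hD x (hTδ x hx)).fderiv, (hD y (hTδ y hy)).fderiv, e, norm_smul,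
      Real.norm_of_nonneg (by positivity)]
    have h1 := hDR (T x) (T y) (hTδ x hx) (hTδ y hy)
    have h2 : ‖T x - T y‖ ≤ r * M * ‖x - y‖ := by
      rw [← map_sub]
      exact hTn _
    have h3 : ‖(DR φ x₀ (T x) - DR φ x₀ (T y)).comp TR‖ ≤
        (ε' * (r * M * ‖x - y‖)) * (r * M) := by
      refine (ContinuousLinearMap.opNorm_comp_le _ _).trans ?_
      apply mul_le_mul _ hTRn (norm_nonneg _) (by positivity)
      calc _ ≤ _ := h1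
        _ ≤ _ := by gcongr
    calc κ⁻¹ * ‖(DR φ x₀ (T x) - DR φ x₀ (T y)).comp TR‖ ≤
        κ⁻¹ * ((ε' * (r * M * ‖x - y‖)) * (r * M)) := by gcongr
      _ = 1 / 64 * ‖x - y‖ := by
        rw [hκ, hu₁l, hε']
        field_simp
        ring
  · rw [(hD 0 (by rw [map_zero, norm_zero]; exact hδ)).fderiv, map_zero, DR_zero]
    simp
  · unfold nrm
    rw [hQ, QQp_re hcd (fun b => hlev x₀ hx₀ b) hu₀0, map_zero]
    simp [BB]
  · exact nrm_mx hΩ hφ hlev hmax T hκpos hQc hPd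

end

end Pool.Agent.Helper853.Df
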