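import Mathlib

open scoped Topology
open Set Metric

namespace Pool.Agent.Helper853.Df

/-- Complex two-space. -/
abbrev C2 : Type := Fin 2 → ℂ

/-- `u : ℂ² → [-∞, ∞]` is plurisubharmonic on the open set `Ω`: on `Ω` it is not identically
`-∞`, nowhere `+∞`, upper semicontinuous, and at the centre `a` of every closed complex disc
`{a + t b : |t| ≤ 1}` contained in `Ω` it is at most its mean over the boundary circle (written
as: at most the mean of `max u M`, for every real `M`). -/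
def IsPshOn (Ω : Set C2) (u : C2 → EReal) : Prop :=
  (∃ z ∈ Ω, u z ≠ ⊥) ∧ (∀ z ∈ Ω, u z ≠ ⊤) ∧ UpperSemicontinuousOn u Ω ∧
    ∀ (a b : C2) (M : ℝ), (∀ t : ℂ, ‖t‖ ≤ 1 → a + t • b ∈ Ω) →
      u a ≤ (((2 * Real.pi)⁻¹ * ∫ θ in (0 : ℝ)..(2 * Real.pi),
        (max (u (a + Complex.exp (θ * Complex.I) • b)) (M : EReal)).toReal : ℝ) : EReal)

/-- `φ` is maximal on `Ω`: every psh function `v` on `Ω` with `v ≤ φ` near the boundary (off a
compact subset of `Ω`) satisfies `v ≤ φ` on `Ω`. -/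
def IsMaximalOn (Ω : Set C2) (φ : C2 → ℝ) : Prop :=
  ∀ v : C2 → EReal, IsPshOn Ω v →
    (∃ K : Set C2, IsCompact K ∧ K ⊆ Ω ∧ ∀ z ∈ Ω \ K, v z ≤ (φ z : EReal)) →
      ∀ z ∈ Ω, v z ≤ (φ z : EReal)

/-- The Wirtinger derivative `∂f/∂z_i`. -/
noncomputable def dz (i : Fin 2) (f : C2 → ℂ) (x : C2) : ℂ :=
  (1 / 2) * (fderiv ℝ f x (Pi.single i 1) - Complex.I * fderiv ℝ f x (Pi.single i Complex.I))

/-- The Wirtinger derivative `∂f/∂\bar z_i`. -/
noncomputable def dzbar (i : Fin 2) (f : C2 → ℂ) (x : C2) : ℂ :=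
  (1 / 2) * (fderiv ℝ f x (Pi.single i 1) + Complex.I * fderiv ℝ f x (Pi.single i Complex.I))

/-- The complex Hessian matrix `(∂²u/∂z_i∂\bar z_j)`. -/
noncomputable def cHess (u : C2 → ℝ) (x : C2) : Matrix (Fin 2) (Fin 2) ℂ :=
  Matrix.of fun i j => dz i (dzbar j fun y => (u y : ℂ)) x

/-- The set of points of `Ω` at which `dd^c φ`, that is the complex Hessian, is not zero. -/
def nonzeroSet (Ω : Set C2) (φ : C2 → ℝ) : Set C2 := {x ∈ Ω | cHess φ x ≠ 0}

/-- The support of `dd^c φ` in `Ω`: the closure (in `Ω`) of the set where the complex Hessian is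
not zero. -/
def supp (Ω : Set C2) (φ : C2 → ℝ) : Set C2 := Ω ∩ closure (nonzeroSet Ω φ)

/-- The plaque with parameter `t` of a flow box `e`, a homeomorphism from an open subset of
`ℂ × ℂ` onto an open subset of `ℂ²`. -/
def plaque (e : OpenPartialHomeomorph (ℂ × ℂ) C2) (t : ℂ) : Set C2 :=
  (fun z => e (z, t)) '' ball 0 1

/-- The open set `U` is foliated by holomorphic discs along which `φ` is harmonic: `U` is covered
by flow boxes `e : D × D → U` (`D` the unit disc), homeomorphisms onto open subsets of `U`, such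
that each map `z ↦ e (z, t)` is holomorphic with nonvanishing derivative, `φ` is harmonic along
it, and plaques of two flow boxes which have a common point agree near that point. -/
def FoliatedByHarmonicDiscs (U : Set C2) (φ : C2 → ℝ) : Prop :=
  ∃ B : Set (OpenPartialHomeomorph (ℂ × ℂ) C2),
    (∀ e ∈ B, e.source = ball 0 1 ×ˢ ball 0 1 ∧ e.target ⊆ U) ∧
    (∀ x ∈ U, ∃ e ∈ B, x ∈ e.target) ∧
    (∀ e ∈ B, ∀ t ∈ ball (0 : ℂ) 1,
      DifferentiableOn ℂ (fun z => e (z, t)) (ball 0 1) ∧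
      (∀ z ∈ ball (0 : ℂ) 1, deriv (fun z => e (z, t)) z ≠ 0) ∧
      InnerProductSpace.HarmonicOnNhd (fun z => φ (e (z, t))) (ball (0 : ℂ) 1)) ∧
    (∀ e ∈ B, ∀ e' ∈ B, ∀ t ∈ ball (0 : ℂ) 1, ∀ t' ∈ ball (0 : ℂ) 1,
      ∀ x ∈ plaque e t ∩ plaque e' t', ∃ N ∈ 𝓝 x, plaque e t ∩ N = plaque e' t' ∩ N)

end Pool.Agent.Helper853.Df
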