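import Pool.Agent.Helper853.Df.Ext
import Pool.Agent.Helper853.Df.Defs
import Pool.Agent.Helper853.Glue

open scoped Topology ENNReal ComplexConjugate
open MeasureTheory Filter Metric

namespace Pool.Agent.Helper853.Df

/-- maximum principle for functions touched from below by functions with nonnegative Laplacian -/
theorem max_principle2 {m : ℂ → ℝ} (hc : ContinuousOn m (closedBall 0 1))
    (hb : ∀ z : ℂ, ‖z‖ = 1 → m z ≤ 0)
    (hL : ∀ z : ℂ, ‖z‖ < 1 → ∃ m₀ : ℂ → ℝ, (∀ᶠ y in 𝓝 z, m₀ y ≤ m y) ∧ m₀ z = m z ∧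
      ∃ s₁ s₂, SD m₀ z 1 s₁ ∧ SD m₀ z Complex.I s₂ ∧ 0 ≤ s₁ + s₂)
    {z : ℂ} (hz : ‖z‖ ≤ 1) : m z ≤ 0 := by
  have key : ∀ δ : ℝ, 0 < δ → m z ≤ δ := by
    intro δ hδ
    set M : ℂ → ℝ := fun z => m z + δ * ‖z‖ ^ 2 with hM
    have hMc : ContinuousOn M (closedBall 0 1) := hc.add (by fun_prop)
    obtain ⟨w, hw, hmax⟩ := (isCompact_closedBall (0 : ℂ) 1).exists_isMaxOn ⟨0, by simp⟩ hMc
    rw [mem_closedBall_zero_iff] at hw
    have hMw : M w ≤ δ := by
      rcases hw.lt_or_eq with h | h
      · exfalso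
        obtain ⟨m₀, hle, heq, s₁, s₂, h1, h2, h3⟩ := hL w h
        have hloc : IsLocalMax (fun z => m₀ z + δ * ‖z‖ ^ 2) w := by
          have h4 : IsLocalMax M w := hmax.isLocalMax
            (mem_of_superset (isOpen_ball.mem_nhds (mem_ball_zero_iff.mpr h)) ball_subset_closedBall)
          filter_upwards [h4, hle] with y hy1 hy2
          simp only [hM] at hy1
          rw [heq]
          linarith
        have k1 := (h1.add (SD_sq δ w 1)).nonpos_of_isLocalMax hloc
        have k2 := (h2.add (SD_sq δ w Complex.I)).nonpos_of_isLocalMax hloc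
        rw [norm_one] at k1
        rw [Complex.norm_I] at k2
        linarith
      · have := hb w h
        simp only [hM, h]
        linarith
    have h1 : M z ≤ M w := hmax (mem_closedBall_zero_iff.mpr hz)
    have h2 : 0 ≤ δ * ‖z‖ ^ 2 := by positivity
    simp only [hM] at h1 hMw
    linarith
  exact le_of_forall_pos_le_add (fun δ hδ => by linarith [key δ hδ])

lemma LL_fourier (n : ℤ) : LL (fourier n : C(Tc, ℂ)) |(n : ℝ)| := by
  intro t
  have e : shift t (fourier n : C(Tc, ℂ)) - fourier n = ((fourier n (t : Tc) : ℂ) - 1) •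
      (fourier n : C(Tc, ℂ)) := by
    ext x
    simp only [ContinuousMap.sub_apply, shift_apply, ContinuousMap.smul_apply, smul_eq_mul]
    have : (fourier n (x + (t : Tc)) : ℂ) = fourier n x * fourier n (t : Tc) := by
      rw [fourier_apply, fourier_apply, fourier_apply, smul_add, AddCircle.toCircle_add]
      rfl
    rw [this]
    ring
  rw [e]
  have h1 : N2 (((fourier n (t : Tc) : ℂ) - 1) • (fourier n : C(Tc, ℂ))) ≤
      N2 (ContinuousMap.const Tc ((fourier n (t : Tc) : ℂ) - 1)) := by
    apply N2_mono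
    intro x
    have h2 : ‖(fourier n x : ℂ)‖ = 1 := by rw [fourier_apply, Circle.norm_coe]
    rw [ContinuousMap.smul_apply, norm_smul, ContinuousMap.const_apply, h2, mul_one]
  rw [N2_const] at h1
  exact h1.trans (fourier_sub_one_le n t)

lemma LL_span {q : C(Tc, ℂ)} (hq : q ∈ Submodule.span ℂ (Set.range (fourier (T := 2 * Real.pi)))) :
    ∃ C, 0 ≤ C ∧ LL q C := by
  induction hq using Submodule.span_induction with
  | mem x hx =>
    obtain ⟨n, rfl⟩ := hx
    exact ⟨_, abs_nonneg _, LL_fourier n⟩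
  | zero =>
    refine ⟨0, le_rfl, ?_⟩
    intro t
    have : shift t (0 : C(Tc, ℂ)) - 0 = 0 := by
      ext x
      simp [shift_apply]
    rw [this]
    simp [N2]
  | add x y _ _ hx hy =>
    obtain ⟨C, hC, h1⟩ := hx
    obtain ⟨D, hD, h2⟩ := hy
    exact ⟨C + D, by positivity, h1.add h2⟩
  | smul c x _ hx =>
    obtain ⟨C, hC, h1⟩ := hx
    refine ⟨‖c‖ * C, by positivity, ?_⟩
    intro t
    have e : shift t (c • x) - c • x = c • (shift t x - x) := by
      ext y
      simp only [ContinuousMap.sub_apply, shift_apply, ContinuousMap.smul_apply, smul_eq_mul]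
      ring
    have e2 : N2 (c • (shift t x - x)) = ‖c‖ * N2 (shift t x - x) := by
      unfold N2
      rw [map_smul, norm_smul]
    rw [e, e2, mul_assoc]
    exact mul_le_mul_of_nonneg_left (h1 t) (norm_nonneg c)

/-- approximation of the boundary values -/
lemma exists_approx {g : ℂ → ℝ} (hg : ContinuousOn g (sphere 0 1)) {δ : ℝ} (hδ : 0 < δ) :
    ∃ K : ℂ → ℂ, ContinuousOn K (closedBall 0 1) ∧ DifferentiableOn ℂ K (ball 0 1) ∧
      ∀ z : ℂ, ‖z‖ = 1 → |g z - (K z).re| < δ := by
  have hgc : Continuous fun x : Tc => g (cir x) :=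
    hg.comp_continuous continuous_cir (fun x => by rw [mem_sphere_zero_iff_norm, norm_cir])
  set q₀ : C(Tc, ℂ) := ⟨fun x => ((g (cir x) : ℝ) : ℂ), Complex.continuous_ofReal.comp hgc⟩ with hq₀
  have hcl : q₀ ∈ closure (Submodule.span ℂ (Set.range (fourier (T := 2 * Real.pi))) :
      Set C(Tc, ℂ)) := by
    have h1 := span_fourier_closure_eq_top (T := 2 * Real.pi)
    have h2 : q₀ ∈ (Submodule.span ℂ (Set.range (fourier (T := 2 * Real.pi)))).topologicalClosure := by
      rw [h1]
      trivial
    exact h2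
  obtain ⟨q, hq, hdist⟩ := Metric.mem_closure_iff.mp hcl δ hδ
  obtain ⟨C, hC, hLL⟩ := LL_span hq
  obtain ⟨K, hK1, hK2, hK3⟩ := ext_re hC hLL
  refine ⟨K, hK1, hK2, ?_⟩
  intro z hz
  obtain ⟨x, rfl⟩ := exists_cir hz
  rw [← hK3]
  have h1 : dist (q₀ x) (q x) < δ := lt_of_le_of_lt (ContinuousMap.dist_apply_le_dist x) hdist
  rw [dist_eq_norm] at h1
  have h2 : (q₀ x - q x).re = g (cir x) - (q x).re := by
    rw [Complex.sub_re]
    rfl
  rw [← h2]
  exact lt_of_le_of_lt (Complex.abs_re_le_norm _) h1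

lemma mean_re {K : ℂ → ℂ} (h1 : ContinuousOn K (closedBall 0 1))
    (h2 : DifferentiableOn ℂ K (ball 0 1)) :
    (K 0).re = (2 * Real.pi)⁻¹ * ∫ θ in (0 : ℝ)..(2 * Real.pi), (K (Complex.exp (θ * Complex.I))).re := by
  have hd : DiffContOnCl ℂ K (ball 0 |1|) := by
    rw [abs_one]
    refine ⟨h2, ?_⟩
    rw [closure_ball _ one_ne_zero]
    exact h1
  have h3 := hd.circleAverage
  rw [Real.circleAverage_def] at h3
  rw [← h3, Complex.smul_re, smul_eq_mul]
  congr 1
  have hcirc : ∀ θ : ℝ, circleMap 0 1 θ = Complex.exp (θ * Complex.I) := by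
    intro θ
    simp [circleMap]
  simp_rw [hcirc]
  have hcont : Continuous fun θ : ℝ => K (Complex.exp (θ * Complex.I)) := by
    apply h1.comp_continuous (by fun_prop)
    intro θ
    rw [mem_closedBall_zero_iff, Complex.norm_exp_ofReal_mul_I]
  have := Complex.reCLM.intervalIntegral_comp_comm (hcont.intervalIntegrable 0 (2 * Real.pi))
    (μ := volume)
  simpa using this.symm

/-- sub-mean value property from the comparison with harmonic functions -/
lemma submean_of_compare {k : ℂ → ℝ} (hk : ContinuousOn k (closedBall 0 1))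
    (h : ∀ K : ℂ → ℂ, ContinuousOn K (closedBall 0 1) → DifferentiableOn ℂ K (ball 0 1) →
      (∀ z : ℂ, ‖z‖ = 1 → k z ≤ (K z).re) → k 0 ≤ (K 0).re) :
    k 0 ≤ (2 * Real.pi)⁻¹ * ∫ θ in (0 : ℝ)..(2 * Real.pi), k (Complex.exp (θ * Complex.I)) := by
  apply le_of_forall_pos_le_add
  intro δ hδ
  obtain ⟨K, hK1, hK2, hK3⟩ := exists_approx (hk.mono sphere_subset_closedBall)
    (half_pos hδ)
  have h1 := h (fun z => K z + ((δ / 2 : ℝ) : ℂ)) (hK1.add continuousOn_const)
    (hK2.add_const _) (fun z hz => by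
      have := (abs_lt.mp (hK3 z hz)).2
      rw [Complex.add_re, Complex.ofReal_re]
      linarith)
  rw [Complex.add_re, Complex.ofReal_re, mean_re hK1 hK2] at h1
  have hcont : Continuous fun θ : ℝ => K (Complex.exp (θ * Complex.I)) := by
    apply hK1.comp_continuous (by fun_prop)
    intro θ
    rw [mem_closedBall_zero_iff, Complex.norm_exp_ofReal_mul_I]
  have hcont2 : Continuous fun θ : ℝ => k (Complex.exp (θ * Complex.I)) := by
    apply hk.comp_continuous (by fun_prop)
    intro θ
    rw [mem_closedBall_zero_iff, Complex.norm_exp_ofReal_mul_I]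
  have h2 : ∫ θ in (0 : ℝ)..(2 * Real.pi), (K (Complex.exp (θ * Complex.I))).re ≤
      ∫ θ in (0 : ℝ)..(2 * Real.pi), (k (Complex.exp (θ * Complex.I)) + δ / 2) := by
    apply intervalIntegral.integral_mono_on (by positivity)
      ((Complex.continuous_re.comp hcont).intervalIntegrable _ _)
      ((hcont2.add continuous_const).intervalIntegrable _ _)
    intro θ _
    have := (abs_lt.mp (hK3 (Complex.exp (θ * Complex.I)) (Complex.norm_exp_ofReal_mul_I θ))).1
    simp only [Function.comp, Pi.add_apply]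
    linarith
  rw [intervalIntegral.integral_add (hcont2.intervalIntegrable _ _)
    (continuous_const.intervalIntegrable _ _), intervalIntegral.integral_const] at h2
  have hpi : (0 : ℝ) < (2 * Real.pi)⁻¹ := by positivity
  have h3 := mul_le_mul_of_nonneg_left h2 hpi.le
  rw [mul_add, sub_zero, smul_eq_mul] at h3
  have h4 : (2 * Real.pi)⁻¹ * (2 * Real.pi * (δ / 2)) = δ / 2 := by
    have := Real.pi_pos.ne'
    field_simp
  rw [h4] at h3
  linarith

lemma coe_max' (a b : ℝ) : max (a : EReal) (b : EReal) = ((max a b : ℝ) : EReal) :=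
  (EReal.coe_strictMono.monotone.map_max).symm

/-- criterion for plurisubharmonicity -/
theorem isPshOn_of_touch {Ω : Set C2} (hne : Ω.Nonempty) {v : C2 → ℝ}
    (hc : ContinuousOn v Ω) (h : ∀ x ∈ Ω, ∀ b : C2, ∃ v₀ : C2 → ℝ, ContDiffAt ℝ 2 v₀ x ∧
      (∀ᶠ y in 𝓝 x, v₀ y ≤ v y) ∧ v₀ x = v x ∧ 0 ≤ lap2 v₀ x b) :
    IsPshOn Ω fun x => (v x : EReal) := by
  refine ⟨?_, fun z _ => EReal.coe_ne_top _, ?_, ?_⟩
  · obtain ⟨z, hz⟩ := hne
    exact ⟨z, hz, EReal.coe_ne_bot _⟩
  · exact (continuous_coe_real_ereal.comp_continuousOn hc).upperSemicontinuousOn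
  · intro a b M hab
    set k : ℂ → ℝ := fun ζ => v (a + ζ • b) with hk
    have hkc : ContinuousOn k (closedBall 0 1) := by
      apply hc.comp (by fun_prop)
      intro ζ hζ
      exact hab ζ (mem_closedBall_zero_iff.mp hζ)
    have hγd : ∀ z : ℂ, HasDerivAt (fun ζ : ℂ => a + ζ • b) b z := by
      intro z
      have := ((hasDerivAt_id z).smul_const b).const_add a
      simpa using this
    have hγ1 : deriv (fun ζ : ℂ => a + ζ • b) = fun _ => b := funext fun z => (hγd z).deriv
    have hsub := submean_of_compare hkc (by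
      intro K hK1 hK2 hK3
      have hm : ContinuousOn (fun z => k z + -(K z).re) (closedBall 0 1) :=
        hkc.add (Complex.continuous_re.comp_continuousOn hK1).neg
      have := max_principle2 hm (fun z hz => by linarith [hK3 z hz]) (fun z hz => by
        obtain ⟨v₀, h1, h2, h3, h4⟩ := h (a + z • b) (hab z hz.le) b
        have hKev : ∀ᶠ y in 𝓝 z, DifferentiableAt ℂ K y := by
          filter_upwards [isOpen_ball.mem_nhds (mem_ball_zero_iff.mpr hz)] with y hy
          exact hK2.differentiableAt (isOpen_ball.mem_nhds hy)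
        have hre : ContDiffAt ℝ 2 (fun y : ℂ => y.re) (K z) := Complex.reCLM.contDiff.contDiffAt
        have hγ : ∀ᶠ y in 𝓝 z, DifferentiableAt ℂ (fun ζ : ℂ => a + ζ • b) y :=
          Eventually.of_forall fun y => (hγd y).differentiableAt
        have k1 := (SD_comp (γ := fun ζ : ℂ => a + ζ • b) h1 hγ 1).add
          (SD_comp (γ := K) hre hKev 1).neg
        have k2 := (SD_comp (γ := fun ζ : ℂ => a + ζ • b) h1 hγ Complex.I).add
          (SD_comp (γ := K) hre hKev Complex.I).neg
        refine ⟨_, ?_, ?_, _, _, k1, k2, ?_⟩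
        · have ht : Tendsto (fun ζ : ℂ => a + ζ • b) (𝓝 z) (𝓝 (a + z • b)) :=
            (hγd z).continuousAt
          filter_upwards [ht.eventually h2] with y hy
          simp only [hk]
          linarith
        · simp only [hk]
          rw [h3]
        · have hf' : fderiv ℝ (fun y : ℂ => y.re) = fun _ => Complex.reCLM := by
            ext1 y
            exact Complex.reCLM.fderiv
          have hf2 : fderiv ℝ (fun _ : ℂ => Complex.reCLM) (K z) = 0 :=
            (hasFDerivAt_const Complex.reCLM (K z)).fderiv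
          rw [hf', hf2, hγ1]
          have hd2 : deriv (fun _ : ℂ => b) z = 0 := by simp
          rw [hd2]
          unfold lap2 at h4
          simp only [_root_.zero_apply, one_smul, one_pow, Complex.I_sq, neg_smul, map_neg,
            smul_zero, map_zero]
          linarith) (z := 0) (by simp)
      linarith)
    have hkc2 : Continuous fun θ : ℝ => k (Complex.exp (θ * Complex.I)) := by
      apply hkc.comp_continuous (by fun_prop)
      intro θ
      rw [mem_closedBall_zero_iff, Complex.norm_exp_ofReal_mul_I]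
    have h0 : k 0 = v a := by simp [hk]
    rw [h0] at hsub
    simp only
    rw [EReal.coe_le_coe_iff]
    refine hsub.trans ?_
    gcongr
    apply intervalIntegral.integral_mono_on (by positivity) (hkc2.intervalIntegrable _ _)
    · apply Continuous.intervalIntegrable
      have e : (fun θ : ℝ => (max ((v (a + Complex.exp (θ * Complex.I) • b) : ℝ) : EReal)
          (M : EReal)).toReal) = fun θ : ℝ => max (k (Complex.exp (θ * Complex.I))) M := by
        ext θ
        rw [coe_max', EReal.toReal_coe]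
      rw [e]
      exact hkc2.max continuous_const
    · intro θ _
      rw [coe_max', EReal.toReal_coe]
      exact le_max_left _ _

end Pool.Agent.Helper853.Df
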