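import Pool.Agent.Helper853.Df.Crit
import Pool.Agent.Helper853.LogSum

open scoped Topology ENNReal ComplexConjugate ContDiff
open MeasureTheory Filter Metric

namespace Pool.Agent.Helper853.Df

section glue

variable {Ω : Set C2} {φ : C2 → ℝ} (hΩ : IsOpen Ω) (hφ : ContDiffOn ℝ 2 φ Ω)
  (hlev : ∀ x ∈ Ω, ∀ b, 0 ≤ lap2 φ x b) (hmax : IsMaximalOn Ω φ)

include hΩ hφ hlev hmax in
/-- comparison with functions on relatively compact subsets -/
theorem max_le_of_glue {O K₀ : Set C2} (hO : IsOpen O) (hOΩ : O ⊆ Ω) (hK : IsCompact K₀)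
    (hKO : K₀ ⊆ O) {w : C2 → ℝ} (hw : ∀ x ∈ O, ContDiffAt ℝ 2 w x)
    (hlw : ∀ x ∈ O, ∀ b, 0 ≤ lap2 w x b) (hle : ∀ x ∈ O \ K₀, w x ≤ φ x) {x : C2} (hx : x ∈ O) :
    w x ≤ φ x := by
  classical
  set v : C2 → ℝ := fun x => if x ∈ O then max (φ x) (w x) else φ x with hv
  have hφv : ∀ y, φ y ≤ v y := by
    intro y
    simp only [hv]
    split_ifs
    · exact le_max_left _ _
    · exact le_rfl
  have hvO : ∀ y ∈ O, v y = max (φ y) (w y) := fun y hy => if_pos hy
  have hvK : ∀ y, y ∉ K₀ → v y = φ y := by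
    intro y hy
    by_cases hyO : y ∈ O
    · rw [hvO y hyO]
      exact max_eq_left (hle y ⟨hyO, hy⟩)
    · exact if_neg hyO
  have hφc : ∀ y ∈ Ω, ContinuousAt φ y := fun y hy =>
    (hφ.contDiffAt (hΩ.mem_nhds hy)).continuousAt
  have hvc : ContinuousOn v Ω := by
    intro y hy
    apply ContinuousAt.continuousWithinAt
    by_cases hyO : y ∈ O
    · have h1 : v =ᶠ[𝓝 y] fun y => max (φ y) (w y) := by
        filter_upwards [hO.mem_nhds hyO] with z hz
        exact hvO z hz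
      have h2 : ContinuousAt (fun y => max (φ y) (w y)) y :=
        (hφc y hy).max (hw y hyO).continuousAt
      exact h2.congr h1.symm
    · have hyK : y ∉ K₀ := fun h => hyO (hKO h)
      have h1 : v =ᶠ[𝓝 y] φ := by
        filter_upwards [hK.isClosed.isOpen_compl.mem_nhds hyK] with z hz
        exact hvK z hz
      exact (hφc y hy).congr h1.symm
  have hpsh : IsPshOn Ω fun x => (v x : EReal) := by
    apply isPshOn_of_touch ⟨x, hOΩ hx⟩ hvc
    intro y hy b
    by_cases hyO : y ∈ O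
    · rcases le_total (w y) (φ y) with h | h
      · refine ⟨φ, hφ.contDiffAt (hΩ.mem_nhds hy), Eventually.of_forall hφv, ?_, hlev y hy b⟩
        rw [hvO y hyO, max_eq_left h]
      · refine ⟨w, hw y hyO, ?_, ?_, hlw y hyO b⟩
        · filter_upwards [hO.mem_nhds hyO] with z hz
          rw [hvO z hz]
          exact le_max_right _ _
        · rw [hvO y hyO, max_eq_right h]
    · refine ⟨φ, hφ.contDiffAt (hΩ.mem_nhds hy), Eventually.of_forall hφv, ?_, hlev y hy b⟩
      exact (if_neg hyO).symm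
  have h1 := hmax _ hpsh ⟨K₀, hK, hKO.trans hOΩ, fun z hz => by rw [hvK z hz.2]⟩ x (hOΩ hx)
  rw [EReal.coe_le_coe_iff] at h1
  exact (le_max_right _ _).trans ((hvO x hx).symm.le.trans h1)

include hΩ hφ hlev hmax in
/-- the Levi form of a maximal function is degenerate -/
theorem exists_degenerate {x₀ : C2} (hx₀ : x₀ ∈ Ω) : ∃ b : C2, b ≠ 0 ∧ lap2 φ x₀ b = 0 := by
  by_contra hcon
  push Not at hcon
  have hcd : ContDiffAt ℝ 2 φ x₀ := hφ.contDiffAt (hΩ.mem_nhds hx₀)
  have hD2 : ContinuousAt (fderiv ℝ (fderiv ℝ φ)) x₀ := by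
    have h1 : ContDiffAt ℝ 1 (fderiv ℝ φ) x₀ := hcd.fderiv_right (by norm_num)
    have h2 : ContDiffAt ℝ 0 (fderiv ℝ (fderiv ℝ φ)) x₀ := h1.fderiv_right (by norm_num)
    exact h2.continuousAt
  -- lower bound at the point
  have hcontl : Continuous fun b : C2 => lap2 φ x₀ b := by
    unfold lap2
    fun_prop
  obtain ⟨b₀, hb₀, hmin⟩ := (isCompact_sphere (0 : C2) 1).exists_isMinOn
    ⟨Pi.single 0 1, by simp [Pi.norm_single]⟩ hcontl.continuousOn
  have hb₀n : b₀ ≠ 0 := by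
    rintro rfl
    simp at hb₀
  set m := lap2 φ x₀ b₀ with hm
  have hmpos : 0 < m := lt_of_le_of_ne (hlev x₀ hx₀ b₀) (hcon b₀ hb₀n).symm
  have hlow : ∀ b : C2, m * ‖b‖ ^ 2 ≤ lap2 φ x₀ b := by
    intro b
    by_cases hb : b = 0
    · rw [hb]
      simp [lap2]
    · have hn : 0 < ‖b‖ := norm_pos_iff.mpr hb
      have h1 : m ≤ lap2 φ x₀ (‖b‖⁻¹ • b) := hmin (by
        rw [mem_sphere_zero_iff_norm, norm_smul, norm_inv, norm_norm, inv_mul_cancel₀ hn.ne'])
      have h2 : lap2 φ x₀ (‖b‖⁻¹ • b) = (‖b‖⁻¹) ^ 2 * lap2 φ x₀ b := by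
        unfold lap2
        rw [smul_comm Complex.I (‖b‖⁻¹) b]
        simp only [map_smul, _root_.smul_apply, smul_eq_mul]
        ring
      rw [h2, inv_pow, inv_mul_eq_div, le_div_iff₀ (by positivity)] at h1
      exact h1
  -- lower bound near the point
  have hev : ∀ᶠ x in 𝓝 x₀, ‖fderiv ℝ (fderiv ℝ φ) x - fderiv ℝ (fderiv ℝ φ) x₀‖ < m / 4 := by
    obtain ⟨δ, hδ, h⟩ := (Metric.continuousAt_iff (f := fderiv ℝ (fderiv ℝ φ))
      (a := x₀)).mp hD2 (m / 4) (by positivity)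
    filter_upwards [Metric.ball_mem_nhds x₀ hδ] with x hx
    exact lt_of_eq_of_lt (dist_eq_norm (fderiv ℝ (fderiv ℝ φ) x) _).symm (h hx)
  obtain ⟨δ, hδ, hball⟩ := Metric.eventually_nhds_iff_ball.mp (hev.and (hΩ.mem_nhds hx₀))
  have hnear : ∀ x ∈ ball x₀ δ, ∀ b : C2, m / 2 * ‖b‖ ^ 2 ≤ lap2 φ x b := by
    intro x hx b
    have h1 := (hball x hx).1
    have h2 : |(fderiv ℝ (fderiv ℝ φ) x - fderiv ℝ (fderiv ℝ φ) x₀) b b| ≤ m / 4 * ‖b‖ ^ 2 := by
      have h3 := (fderiv ℝ (fderiv ℝ φ) x - fderiv ℝ (fderiv ℝ φ) x₀).le_opNorm₂ b b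
      rw [Real.norm_eq_abs] at h3
      refine h3.trans ?_
      rw [mul_assoc, ← sq]
      gcongr
    have h3 : |(fderiv ℝ (fderiv ℝ φ) x - fderiv ℝ (fderiv ℝ φ) x₀) (Complex.I • b)
        (Complex.I • b)| ≤ m / 4 * ‖b‖ ^ 2 := by
      have h3 := (fderiv ℝ (fderiv ℝ φ) x - fderiv ℝ (fderiv ℝ φ) x₀).le_opNorm₂ (Complex.I • b)
        (Complex.I • b)
      rw [Real.norm_eq_abs, norm_smul, Complex.norm_I, one_mul] at h3
      refine h3.trans ?_
      rw [mul_assoc, ← sq]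
      gcongr
    have h4 := hlow b
    unfold lap2 at h4 ⊢
    simp only [_root_.sub_apply] at h2 h3
    have h5 := (abs_le.mp h2).1
    have h6 := (abs_le.mp h3).1
    linarith
  -- the competitor
  set F : Fin 2 → C2 → ℂ := fun i x => x i - x₀ i with hF
  have hFc : ∀ i, ContDiff ℂ ∞ (F i) := by
    intro i
    have : ContDiff ℂ ∞ fun x : C2 => x i := contDiff_apply ℂ ℂ i
    exact this.sub contDiff_const
  set c : ℝ := m / 16 with hc
  set s : ℝ := c * (δ ^ 2 / 4) with hs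
  set w : C2 → ℝ := fun x => φ x + ((-c) * sumSq F x + s) with hw
  have hqc : ∀ x, ContDiffAt ℝ 2 (sumSq F) x := fun x =>
    ((contDiff_sumSq hFc).of_le ENat.LEInfty.out).contDiffAt
  have hcomp := max_le_of_glue hΩ hφ hlev hmax (O := ball x₀ δ) (K₀ := closedBall x₀ (δ / 2))
    isOpen_ball (fun x hx => (hball x hx).2) (isCompact_closedBall _ _)
    (closedBall_subset_ball (by linarith)) (w := w)
    (fun x hx => (hφ.contDiffAt (hΩ.mem_nhds (hball x hx).2)).add
      ((contDiffAt_const.mul (hqc x)).add contDiffAt_const))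
    (fun x hx b => by
      have h1 := hnear x hx b
      have e1 : lap2 w x b = lap2 φ x b + (-c) * lap2 (sumSq F) x b := by
        rw [hw, lap2_add (hφ.contDiffAt (hΩ.mem_nhds (hball x hx).2))
          ((contDiffAt_const.mul (hqc x)).add contDiffAt_const), lap2_add_const,
          lap2_const_mul (hqc x)]
      rw [e1, lap2_sumSq hFc]
      have e2 : ∀ i, fderiv ℝ (F i) x b = b i := by
        intro i
        have : HasFDerivAt (F i) (ContinuousLinearMap.proj (R := ℝ) (φ := fun _ : Fin 2 => ℂ) i) x :=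
          ((ContinuousLinearMap.proj (R := ℝ) (φ := fun _ : Fin 2 => ℂ) i).hasFDerivAt).sub_const _
        rw [this.fderiv]
        rfl
      simp_rw [e2, Fin.sum_univ_two]
      have h2 : ‖b 0‖ ^ 2 ≤ ‖b‖ ^ 2 := by gcongr; exact norm_le_pi_norm b 0
      have h3 : ‖b 1‖ ^ 2 ≤ ‖b‖ ^ 2 := by gcongr; exact norm_le_pi_norm b 1
      rw [hc]
      nlinarith)
    (fun x hx => by
      have h1 : δ / 2 < ‖x - x₀‖ := by
        have := hx.2
        rw [mem_closedBall, dist_eq_norm, not_le] at this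
        exact this
      have h2 : ‖x - x₀‖ ^ 2 ≤ sumSq F x := by
        unfold sumSq
        rw [Fin.sum_univ_two]
        have h3 : ‖x - x₀‖ ≤ max ‖F 0 x‖ ‖F 1 x‖ := by
          rw [pi_norm_le_iff_of_nonneg (le_max_of_le_left (norm_nonneg _))]
          intro i
          fin_cases i
          · exact le_max_left _ _
          · exact le_max_right _ _
        calc ‖x - x₀‖ ^ 2 ≤ (max ‖F 0 x‖ ‖F 1 x‖) ^ 2 := by gcongr
          _ ≤ _ := by
            rcases max_cases ‖F 0 x‖ ‖F 1 x‖ with h | h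
            · rw [h.1]; linarith [sq_nonneg ‖F 1 x‖]
            · rw [h.1]; linarith [sq_nonneg ‖F 0 x‖]
      have h4 : δ ^ 2 / 4 ≤ sumSq F x := by nlinarith
      simp only [hw, hs]
      have hcpos : 0 < c := by positivity
      nlinarith) (x := x₀) (mem_ball_self hδ)
  have e3 : sumSq F x₀ = 0 := by
    simp [sumSq, hF]
  simp only [hw, e3, mul_zero, zero_add] at hcomp
  have : 0 < s := by positivity
  linarith

end glue

end Pool.Agent.Helper853.Df
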