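import Pool.Agent.Helper853.Df.Four

open scoped Topology ENNReal ComplexConjugate
open MeasureTheory Filter Metric

namespace Pool.Agent.Helper853.Df

/-- weighted square summability -/
def QQ (a : ℕ → ℂ) (C : ℝ) : Prop :=
  ∀ s : Finset ℕ, ∑ n ∈ s, ((n : ℝ) + 1) ^ 2 * ‖a n‖ ^ 2 ≤ C ^ 2

lemma sum_inv_sq_le (s : Finset ℕ) : ∑ n ∈ s, (1 / ((n : ℝ) + 1)) ^ 2 ≤ 4 := by
  have h := hasSum_zeta_two
  have h1 : HasSum (fun n : ℕ => 1 / ((n + 1 : ℕ) : ℝ) ^ 2) (Real.pi ^ 2 / 6) := by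
    have := (hasSum_nat_add_iff' (f := fun n : ℕ => 1 / (n : ℝ) ^ 2) 1).mpr h
    simpa using this
  have h2 := sum_le_hasSum s (fun i _ => by positivity) h1
  have h3 : Real.pi ^ 2 / 6 ≤ 4 := by
    have := Real.pi_lt_d2
    have := Real.pi_pos
    nlinarith
  refine le_trans (le_of_eq ?_) (h2.trans h3)
  apply Finset.sum_congr rfl
  intro n _
  push_cast
  rw [div_pow, one_pow]

lemma QQ.sum_norm_le {a : ℕ → ℂ} {C : ℝ} (hC : 0 ≤ C) (h : QQ a C) (s : Finset ℕ) :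
    ∑ n ∈ s, ‖a n‖ ≤ 2 * C := by
  have h1 := Finset.sum_mul_sq_le_sq_mul_sq s (fun n : ℕ => ((n : ℝ) + 1) * ‖a n‖)
    (fun n : ℕ => 1 / ((n : ℝ) + 1))
  have h2 : ∑ n ∈ s, (((n : ℝ) + 1) * ‖a n‖) * (1 / ((n : ℝ) + 1)) = ∑ n ∈ s, ‖a n‖ := by
    apply Finset.sum_congr rfl
    intro n _
    have : ((n : ℝ) + 1) ≠ 0 := by positivity
    field_simp
  rw [h2] at h1
  have h3 : ∑ n ∈ s, (((n : ℝ) + 1) * ‖a n‖) ^ 2 ≤ C ^ 2 := by
    refine le_trans (le_of_eq ?_) (h s)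
    apply Finset.sum_congr rfl
    intro n _
    ring
  have h4 := sum_inv_sq_le s
  have h5 : (∑ n ∈ s, ‖a n‖) ^ 2 ≤ (2 * C) ^ 2 := by
    calc _ ≤ _ := h1
      _ ≤ C ^ 2 * 4 := by
        apply mul_le_mul h3 h4 (Finset.sum_nonneg fun _ _ => by positivity) (by positivity)
      _ = (2 * C) ^ 2 := by ring
  exact le_of_sq_le_sq h5 (by positivity)

lemma QQ.summable {a : ℕ → ℂ} {C : ℝ} (hC : 0 ≤ C) (h : QQ a C) : Summable fun n => ‖a n‖ :=
  summable_of_sum_le (fun _ => norm_nonneg _) (h.sum_norm_le hC)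

lemma QQ.tsum_le {a : ℕ → ℂ} {C : ℝ} (hC : 0 ≤ C) (h : QQ a C) : ∑' n, ‖a n‖ ≤ 2 * C :=
  (h.summable hC).tsum_le_of_sum_le (h.sum_norm_le hC)

/-- the holomorphic function with given coefficients -/
noncomputable def FF (c : ℂ) (a : ℕ → ℂ) (z : ℂ) : ℂ := c + ∑' n, a n * z ^ (n + 1)

lemma FF_zero (c : ℂ) (a : ℕ → ℂ) : FF c a 0 = c := by simp [FF]

section

variable {c : ℂ} {a : ℕ → ℂ} (ha : Summable fun n => ‖a n‖)

lemma norm_term_le (a : ℕ → ℂ) {z : ℂ} (hz : ‖z‖ ≤ 1) (n : ℕ) : ‖a n * z ^ (n + 1)‖ ≤ ‖a n‖ := by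
  rw [norm_mul, norm_pow]
  exact mul_le_of_le_one_right (norm_nonneg _) (pow_le_one₀ (norm_nonneg _) hz)

include ha in
lemma summable_term {z : ℂ} (hz : ‖z‖ ≤ 1) : Summable fun n => a n * z ^ (n + 1) :=
  Summable.of_norm_bounded ha (norm_term_le a hz)

include ha in
lemma continuousOn_FF : ContinuousOn (FF c a) (closedBall 0 1) := by
  unfold FF
  apply ContinuousOn.add continuousOn_const
  apply continuousOn_tsum (u := fun n => ‖a n‖) (fun n => by fun_prop) ha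
  intro n z hz
  exact norm_term_le a (mem_closedBall_zero_iff.mp hz) n

include ha in
lemma differentiableOn_FF : DifferentiableOn ℂ (FF c a) (ball 0 1) := by
  unfold FF
  apply DifferentiableOn.const_add
  apply Complex.differentiableOn_tsum_of_summable_norm ha (fun n => by fun_prop) isOpen_ball
  intro n z hz
  exact norm_term_le a (mem_ball_zero_iff.mp hz).le n

include ha in
lemma norm_FF_sub_le {z : ℂ} (hz : ‖z‖ ≤ 1) : ‖FF c a z - c‖ ≤ ∑' n, ‖a n‖ := by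
  unfold FF
  rw [add_sub_cancel_left]
  exact tsum_of_norm_bounded ha.hasSum (norm_term_le a hz)

end

/-- the two sided coefficients -/
def bz (c : ℂ) (a : ℕ → ℂ) : ℤ → ℂ
  | Int.ofNat 0 => c
  | Int.ofNat (n + 1) => a n
  | Int.negSucc _ => 0

/-- the boundary function -/
noncomputable def Fc (c : ℂ) (a : ℕ → ℂ) (ha : Summable fun n => ‖a n‖) : C(Tc, ℂ) :=
  ⟨fun x => FF c a (cir x), (continuousOn_FF ha).comp_continuous continuous_cir
    (fun x => by rw [mem_closedBall_zero_iff, norm_cir])⟩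

lemma Fc_apply {c : ℂ} {a : ℕ → ℂ} (ha : Summable fun n => ‖a n‖) (x : Tc) :
    Fc c a ha x = FF c a (cir x) := rfl

lemma hasSum_Fc {c : ℂ} {a : ℕ → ℂ} (ha : Summable fun n => ‖a n‖) :
    HasSum (fun n : ℤ => bz c a n • (fourier n : C(Tc, ℂ))) (Fc c a ha) := by
  set g : ℕ → C(Tc, ℂ) := fun n => bz c a n • (fourier (n : ℤ) : C(Tc, ℂ)) with hg
  have hs : Summable fun n : ℕ => g (n + 1) := by
    apply Summable.of_norm
    have e : ∀ n : ℕ, ‖g (n + 1)‖ = ‖a n‖ := by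
      intro n
      rw [hg]
      simp only
      rw [norm_smul, fourier_norm, mul_one]
      rfl
    simp_rw [e]
    exact ha
  have hs2 : Summable g := (summable_nat_add_iff 1).mp hs
  set G : ℤ → C(Tc, ℂ) := fun n => bz c a n • (fourier n : C(Tc, ℂ)) with hG
  have hs3 : HasSum (fun n : ℕ => G n) (∑' n : ℕ, g n) := hs2.hasSum
  have hs4 : HasSum (fun n : ℕ => G (-((n : ℤ) + 1))) 0 := by
    have : ∀ n : ℕ, G (-((n : ℤ) + 1)) = 0 := by
      intro n
      rw [← Int.negSucc_eq]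
      change (0 : ℂ) • _ = _
      rw [zero_smul]
    simp_rw [this]
    exact hasSum_zero
  have h1 : HasSum G ((∑' n : ℕ, g n) + 0) := HasSum.of_nat_of_neg_add_one (f := G) hs3 hs4
  rw [add_zero] at h1
  suffices hF : Fc c a ha = ∑' n : ℕ, g n by rw [hF]; exact h1
  ext x
  have h2 := (ContinuousMap.evalCLM ℂ x).hasSum hs2.hasSum
  have e1 : ∀ n : ℕ, (ContinuousMap.evalCLM ℂ x) (g n) = bz c a n * cir x ^ n := by
    intro n
    change bz c a n • (fourier (n : ℤ) x) = _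
    rw [fourier_nat, smul_eq_mul]
  simp_rw [e1] at h2
  have h3 : HasSum (fun n : ℕ => bz c a n * cir x ^ n) (Fc c a ha x) := by
    rw [← hasSum_nat_add_iff' 1]
    have h4 := (summable_term ha (norm_cir x).le).hasSum
    have e5 : Fc c a ha x - bz c a ((0 : ℕ) : ℤ) * cir x ^ 0 = ∑' n, a n * cir x ^ (n + 1) := by
      change FF c a (cir x) - c * cir x ^ 0 = _
      unfold FF
      rw [pow_zero, mul_one, add_sub_cancel_left]
    rw [Finset.range_one, Finset.sum_singleton, e5]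
    exact h4
  exact h3.unique h2

lemma fourierCoeff_Fc {c : ℂ} {a : ℕ → ℂ} (ha : Summable fun n => ‖a n‖) (m : ℤ) :
    fourierCoeff (Fc c a ha) m = bz c a m := fourierCoeff_of_hasSum (hasSum_Fc ha) m

/-- sums over the integers of functions vanishing on negative integers -/
lemma hasSum_bz {f : ℤ → ℝ} {S : ℝ} (h : HasSum f S) (hneg : ∀ n : ℕ, f (Int.negSucc n) = 0) :
    HasSum (fun n : ℕ => f ((n + 1 : ℕ) : ℤ)) (S - f 0) := by
  have h1 := h.nat_add_neg_add_one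
  have h2 : (fun n : ℕ => f n + f (-((n : ℤ) + 1))) = fun n : ℕ => f n := by
    ext n
    rw [← Int.negSucc_eq, hneg, add_zero]
  rw [h2] at h1
  have h3 := (hasSum_nat_add_iff' (f := fun n : ℕ => f n) 1).mpr h1
  simpa using h3

/-- Parseval for the difference of two functions -/
lemma parseval_sub {c c' : ℂ} {a a' : ℕ → ℂ} (ha : Summable fun n => ‖a n‖)
    (ha' : Summable fun n => ‖a' n‖) :
    HasSum (fun n : ℕ => ‖a n - a' n‖ ^ 2) (N2 (Fc c a ha - Fc c' a' ha') ^ 2 - ‖c - c'‖ ^ 2) := by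
  have h1 := hasSum_N2 (Fc c a ha - Fc c' a' ha')
  simp_rw [fourierCoeff_sub, fourierCoeff_Fc] at h1
  exact hasSum_bz h1 (fun n => by simp [bz])

end Pool.Agent.Helper853.Df
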