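import Mathlib

open scoped Topology ComplexConjugate
open Filter Metric

namespace Pool.Agent.Helper853.Df

/-- `s` is the second derivative of `m` at `ζ` in direction `v` -/
def SD (m : ℂ → ℝ) (ζ v : ℂ) (s : ℝ) : Prop :=
  ∃ m' : ℝ → ℝ, (∀ᶠ t : ℝ in 𝓝 0, HasDerivAt (fun t : ℝ => m (ζ + t • v)) (m' t) t) ∧
    HasDerivAt m' s 0

lemma SD.add {m₁ m₂ : ℂ → ℝ} {ζ v : ℂ} {s₁ s₂ : ℝ} (h₁ : SD m₁ ζ v s₁) (h₂ : SD m₂ ζ v s₂) :
    SD (fun z => m₁ z + m₂ z) ζ v (s₁ + s₂) := by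
  obtain ⟨m₁', a₁, b₁⟩ := h₁
  obtain ⟨m₂', a₂, b₂⟩ := h₂
  refine ⟨fun t => m₁' t + m₂' t, ?_, b₁.add b₂⟩
  filter_upwards [a₁, a₂] with t c₁ c₂
  exact c₁.add c₂

lemma SD.neg {m₁ : ℂ → ℝ} {ζ v : ℂ} {s₁ : ℝ} (h₁ : SD m₁ ζ v s₁) :
    SD (fun z => -m₁ z) ζ v (-s₁) := by
  obtain ⟨m₁', a₁, b₁⟩ := h₁
  refine ⟨fun t => -m₁' t, ?_, b₁.neg⟩
  filter_upwards [a₁] with t c₁
  exact c₁.neg

lemma SD_sq (δ : ℝ) (ζ v : ℂ) : SD (fun z => δ * ‖z‖ ^ 2) ζ v (2 * δ * ‖v‖ ^ 2) := by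
  have e : ∀ t : ℝ, δ * ‖ζ + t • v‖ ^ 2 =
      δ * (‖ζ‖ ^ 2 + 2 * (ζ.re * v.re + ζ.im * v.im) * t + ‖v‖ ^ 2 * t ^ 2) := by
    intro t
    rw [Complex.sq_norm, Complex.sq_norm, Complex.sq_norm, Complex.normSq_apply,
      Complex.normSq_apply, Complex.normSq_apply]
    simp only [Complex.add_re, Complex.add_im, Complex.real_smul, Complex.mul_re, Complex.mul_im,
      Complex.ofReal_re, Complex.ofReal_im, zero_mul, sub_zero, add_zero]
    ring
  refine ⟨fun t => δ * (2 * (ζ.re * v.re + ζ.im * v.im) + 2 * ‖v‖ ^ 2 * t), ?_, ?_⟩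
  · filter_upwards with t
    simp_rw [e]
    have h1 : HasDerivAt (fun t : ℝ => 2 * (ζ.re * v.re + ζ.im * v.im) * t)
        (2 * (ζ.re * v.re + ζ.im * v.im)) t := by
      simpa using (hasDerivAt_id t).const_mul (2 * (ζ.re * v.re + ζ.im * v.im))
    have h2 : HasDerivAt (fun t : ℝ => ‖v‖ ^ 2 * t ^ 2) (‖v‖ ^ 2 * (2 * t)) t := by
      have := ((hasDerivAt_id t).pow 2).const_mul (‖v‖ ^ 2)
      simpa using this
    have h3 := ((h1.const_add (‖ζ‖ ^ 2)).add h2).const_mul δ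
    refine h3.congr_deriv ?_
    ring
  · have h1 : HasDerivAt (fun t : ℝ => 2 * ‖v‖ ^ 2 * t) (2 * ‖v‖ ^ 2) 0 := by
      simpa using (hasDerivAt_id (0 : ℝ)).const_mul (2 * ‖v‖ ^ 2)
    have h3 := (h1.const_add (2 * (ζ.re * v.re + ζ.im * v.im))).const_mul δ
    refine h3.congr_deriv ?_
    ring

/-- second derivative test -/
lemma SD.nonpos_of_isLocalMax {m : ℂ → ℝ} {ζ v : ℂ} {s : ℝ} (h : SD m ζ v s)
    (hmax : IsLocalMax m ζ) : s ≤ 0 := by
  obtain ⟨m', a, b⟩ := h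
  by_contra hs
  push Not at hs
  set g : ℝ → ℝ := fun t => m (ζ + t • v) with hg
  have hg0 : g 0 = m ζ := by simp [hg]
  have hgmax : IsLocalMax g 0 := by
    have hc : Tendsto (fun t : ℝ => ζ + t • v) (𝓝 0) (𝓝 ζ) := by
      have : Continuous fun t : ℝ => ζ + t • v := by fun_prop
      have := this.tendsto 0
      simpa using this
    have := hc.eventually hmax
    rw [IsLocalMax, IsMaxFilter, hg0]
    exact this
  have hd : deriv g =ᶠ[𝓝 0] m' := by
    filter_upwards [a] with t ht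
    exact ht.deriv
  have hdd : deriv (deriv g) 0 = s := by
    rw [hd.deriv_eq]
    exact b.deriv
  have h0 : deriv g 0 = 0 := hgmax.deriv_eq_zero
  have hcont : ContinuousAt g 0 := (a.self_of_nhds).continuousAt
  have hmin : IsLocalMin g 0 := isLocalMin_of_deriv_deriv_pos (by rw [hdd]; exact hs) h0 hcont
  have hconst : g =ᶠ[𝓝 0] fun _ => g 0 := by
    filter_upwards [hgmax, hmin] with t h1 h2
    exact le_antisymm h1 h2
  have h2 : deriv g =ᶠ[𝓝 0] fun _ => 0 := by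
    have := hconst.deriv
    filter_upwards [this] with t ht
    rw [ht]
    simp
  rw [h2.deriv_eq] at hdd
  simp at hdd
  linarith

/-- maximum principle -/
theorem max_principle {m : ℂ → ℝ} (hc : ContinuousOn m (closedBall 0 1))
    (hb : ∀ z : ℂ, ‖z‖ = 1 → m z ≤ 0)
    (hL : ∀ z : ℂ, ‖z‖ < 1 → ∃ s₁ s₂, SD m z 1 s₁ ∧ SD m z Complex.I s₂ ∧ 0 ≤ s₁ + s₂)
    {z : ℂ} (hz : ‖z‖ ≤ 1) : m z ≤ 0 := by
  have key : ∀ δ : ℝ, 0 < δ → m z ≤ δ := by
    intro δ hδ
    set M : ℂ → ℝ := fun z => m z + δ * ‖z‖ ^ 2 with hM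
    have hMc : ContinuousOn M (closedBall 0 1) := hc.add (by fun_prop)
    obtain ⟨w, hw, hmax⟩ := (isCompact_closedBall (0 : ℂ) 1).exists_isMaxOn ⟨0, by simp⟩ hMc
    rw [mem_closedBall_zero_iff] at hw
    have hMw : M w ≤ δ := by
      rcases hw.lt_or_eq with h | h
      · exfalso
        obtain ⟨s₁, s₂, h1, h2, h3⟩ := hL w h
        have hloc : IsLocalMax M w := hmax.isLocalMax
          (mem_of_superset (isOpen_ball.mem_nhds (mem_ball_zero_iff.mpr h)) ball_subset_closedBall)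
        have k1 := (h1.add (SD_sq δ w 1)).nonpos_of_isLocalMax hloc
        have k2 := (h2.add (SD_sq δ w Complex.I)).nonpos_of_isLocalMax hloc
        rw [norm_one] at k1
        rw [Complex.norm_I] at k2
        linarith
      · have := hb w h
        simp only [hM, h]
        linarith
    have h1 : M z ≤ M w := hmax (mem_closedBall_zero_iff.mpr hz)
    have h2 : 0 ≤ δ * ‖z‖ ^ 2 := by positivity
    simp only [hM] at h1 hMw
    linarith
  exact le_of_forall_pos_le_add (fun δ hδ => by linarith [key δ hδ])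

/-- second derivative of a composition with a holomorphic curve -/
lemma SD_comp {E : Type*} [NormedAddCommGroup E] [NormedSpace ℂ E] [NormedSpace ℝ E]
    [IsScalarTower ℝ ℂ E] [CompleteSpace E]
    {ψ : E → ℝ} {γ : ℂ → E} {ζ : ℂ} (hψ : ContDiffAt ℝ 2 ψ (γ ζ))
    (hγ : ∀ᶠ z in 𝓝 ζ, DifferentiableAt ℂ γ z) (v : ℂ) :
    SD (fun z => ψ (γ z)) ζ v (fderiv ℝ (fderiv ℝ ψ) (γ ζ) (v • deriv γ ζ) (v • deriv γ ζ) +
      fderiv ℝ ψ (γ ζ) (v ^ 2 • deriv (deriv γ) ζ)) := by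
  have hline : ∀ t : ℝ, HasDerivAt (fun t : ℝ => ζ + t • v) v t := by
    intro t
    have := ((hasDerivAt_id t).smul_const v).const_add ζ
    simpa using this
  have hlc : Tendsto (fun t : ℝ => ζ + t • v) (𝓝 0) (𝓝 ζ) := by
    have : Continuous fun t : ℝ => ζ + t • v := by fun_prop
    have := this.tendsto 0
    simpa using this
  have hγ2 : DifferentiableAt ℂ (deriv γ) ζ := by
    obtain ⟨r, hr, hball⟩ := Metric.eventually_nhds_iff_ball.mp hγ
    have hd : DifferentiableOn ℂ γ (ball ζ r) := fun z hz => (hball z hz).differentiableWithinAt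
    exact (hd.deriv isOpen_ball).differentiableAt (isOpen_ball.mem_nhds (mem_ball_self hr))
  -- first derivative
  have hγc : ∀ t : ℝ, DifferentiableAt ℂ γ (ζ + t • v) →
      HasDerivAt (fun t : ℝ => γ (ζ + t • v)) (v • deriv γ (ζ + t • v)) t := by
    intro t ht
    exact ht.hasDerivAt.scomp t (hline t)
  have hψd : ∀ᶠ y in 𝓝 (γ ζ), DifferentiableAt ℝ ψ y := by
    filter_upwards [hψ.eventually (by simp)] with y hy
    exact hy.differentiableAt (by norm_num)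
  have hcont : ContinuousAt γ ζ := hγ.self_of_nhds.continuousAt
  refine ⟨fun t => fderiv ℝ ψ (γ (ζ + t • v)) (v • deriv γ (ζ + t • v)), ?_, ?_⟩
  · filter_upwards [hlc.eventually hγ, (hcont.tendsto.comp hlc).eventually hψd] with t h1 h2
    exact h2.hasFDerivAt.comp_hasDerivAt t (hγc t h1)
  · have hψ2 : DifferentiableAt ℝ (fderiv ℝ ψ) (γ ζ) := by
      have : ContDiffAt ℝ 1 (fderiv ℝ ψ) (γ ζ) := hψ.fderiv_right (by norm_num)
      exact this.differentiableAt (by norm_num)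
    have e0 : γ (ζ + (0 : ℝ) • v) = γ ζ := by simp
    have h1 : HasDerivAt (fun t : ℝ => γ (ζ + t • v)) (v • deriv γ ζ) 0 := by
      have := hγc 0 (by simpa using hγ.self_of_nhds)
      simpa using this
    have h2 : HasDerivAt (fun t : ℝ => deriv γ (ζ + t • v)) (v • deriv (deriv γ) ζ) 0 := by
      have h3 : DifferentiableAt ℂ (deriv γ) (ζ + (0 : ℝ) • v) := by simpa using hγ2
      have h3' := h3.hasDerivAt.scomp (0 : ℝ) (hline 0)
      rw [show ζ + (0 : ℝ) • v = ζ by simp] at h3'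
      exact h3'
    have h4 : HasDerivAt (fun t : ℝ => fderiv ℝ ψ (γ (ζ + t • v)))
        (fderiv ℝ (fderiv ℝ ψ) (γ ζ) (v • deriv γ ζ)) 0 := by
      have h5 : HasFDerivAt (fderiv ℝ ψ) (fderiv ℝ (fderiv ℝ ψ) (γ ζ)) (γ (ζ + (0 : ℝ) • v)) := by
        rw [e0]
        exact hψ2.hasFDerivAt
      exact h5.comp_hasDerivAt (0 : ℝ) h1
    have h6 := h4.clm_apply (h2.const_smul v)
    refine h6.congr_deriv ?_
    rw [smul_smul, sq, Pi.smul_apply]
    simp only [zero_smul, add_zero]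

end Pool.Agent.Helper853.Df
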