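import Pool.Agent.Helper853.Df.Fix
import Pool.Agent.Helper853.Df.SD

open scoped Topology ENNReal ComplexConjugate
open MeasureTheory Filter Metric

namespace Pool.Agent.Helper853.Df

lemma summable_bz {c : ℂ} {a : ℕ → ℂ} (ha : Summable fun n => ‖a n‖) : Summable (bz c a) := by
  have h1 : Summable fun n : ℕ => bz c a n := by
    rw [← summable_nat_add_iff 1]
    exact ha.of_norm
  have h2 : HasSum (fun n : ℕ => bz c a (-((n : ℤ) + 1))) 0 := by
    have : ∀ n : ℕ, bz c a (-((n : ℤ) + 1)) = 0 := by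
      intro n
      rw [← Int.negSucc_eq]
      rfl
    simp_rw [this]
    exact hasSum_zero
  exact (HasSum.of_nat_of_neg_add_one (f := bz c a) h1.hasSum h2).summable

/-- the functions on the circle with holomorphic extension -/
lemma ext_hol {q : C(Tc, ℂ)} {C : ℝ} (hC : 0 ≤ C) (hq : LL q C)
    (hneg : ∀ n : ℕ, fourierCoeff q (Int.negSucc n) = 0) :
    ∃ G : ℂ → ℂ, ContinuousOn G (closedBall 0 1) ∧ DifferentiableOn ℂ G (ball 0 1) ∧
      ∀ x, q x = G (cir x) := by
  set b : ℕ → ℂ := fun n => fourierCoeff q ((n + 1 : ℕ) : ℤ) with hb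
  have hQ : QQ b C := by
    intro s
    have h1 := hq.sum_le (s.map ⟨fun n => ((n + 1 : ℕ) : ℤ), fun a b hab => by
      simp only at hab
      omega⟩)
    rw [Finset.sum_map] at h1
    refine le_trans (le_of_eq ?_) h1
    apply Finset.sum_congr rfl
    intro n _
    change _ = (((n + 1 : ℕ) : ℤ) : ℝ) ^ 2 * ‖fourierCoeff q ((n + 1 : ℕ) : ℤ)‖ ^ 2
    push_cast
    rfl
  have hs := hQ.summable hC
  have hcoef : ∀ n : ℤ, fourierCoeff q n = bz (fourierCoeff q 0) b n := by
    intro n
    match n with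
    | Int.ofNat 0 => rfl
    | Int.ofNat (n + 1) => rfl
    | Int.negSucc n => exact hneg n
  have h1 : Summable (fourierCoeff q) := by
    have : (fourierCoeff q) = bz (fourierCoeff q 0) b := funext hcoef
    rw [this]
    exact summable_bz hs
  have h2 := hasSum_fourier_series_of_summable h1
  have h3 := hasSum_Fc (c := fourierCoeff q 0) hs
  have hfun : (fun n : ℤ => fourierCoeff q n • (fourier n : C(Tc, ℂ))) =
      fun n : ℤ => bz (fourierCoeff q 0) b n • (fourier n : C(Tc, ℂ)) := by
    funext n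
    rw [hcoef n]
  rw [hfun] at h2
  have h4 := h2.unique h3
  refine ⟨FF (fourierCoeff q 0) b, continuousOn_FF hs, differentiableOn_FF hs, ?_⟩
  intro x
  conv_lhs => rw [h4]
  rfl

/-- complex conjugation -/
noncomputable def cj (q : C(Tc, ℂ)) : C(Tc, ℂ) := ⟨fun x => conj (q x), by
  have := q.continuous
  fun_prop⟩

lemma cj_apply (q : C(Tc, ℂ)) (x : Tc) : cj q x = conj (q x) := rfl

lemma fourierCoeff_cj (q : C(Tc, ℂ)) (n : ℤ) : fourierCoeff (cj q) n = conj (fourierCoeff q (-n)) := by
  unfold fourierCoeff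
  rw [← integral_conj]
  apply integral_congr_ae
  filter_upwards with x
  rw [cj_apply, smul_eq_mul, smul_eq_mul, map_mul, neg_neg]
  congr 1
  rw [fourier_neg]

lemma N2_cj (q : C(Tc, ℂ)) : N2 (cj q) = N2 q := by
  apply le_antisymm
  · apply N2_mono
    intro x
    rw [cj_apply, RCLike.norm_conj]
  · apply N2_mono
    intro x
    rw [cj_apply, RCLike.norm_conj]

lemma LL.cj {q : C(Tc, ℂ)} {C : ℝ} (h : LL q C) : LL (cj q) C := by
  intro t
  have : shift t (Df.cj q) - Df.cj q = Df.cj (shift t q - q) := by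
    ext x
    simp only [ContinuousMap.sub_apply, shift_apply, cj_apply, map_sub]
  rw [this, N2_cj]
  exact h t

lemma LL.add {p q : C(Tc, ℂ)} {C D : ℝ} (h : LL p C) (h' : LL q D) : LL (p + q) (C + D) := by
  intro t
  have : shift t (p + q) - (p + q) = (shift t p - p) + (shift t q - q) := by
    ext x
    simp only [ContinuousMap.sub_apply, shift_apply, ContinuousMap.add_apply]
    ring
  rw [this]
  refine (N2_add_le _ _).trans ?_
  have := h t
  have := h' t
  linarith

lemma N2_neg (q : C(Tc, ℂ)) : N2 (-q) = N2 q := by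
  unfold N2
  rw [map_neg, norm_neg]

lemma LL.neg {q : C(Tc, ℂ)} {C : ℝ} (h : LL q C) : LL (-q) C := by
  intro t
  have : shift t (-q) - -q = -(shift t q - q) := by
    ext x
    simp only [ContinuousMap.sub_apply, shift_apply, ContinuousMap.neg_apply]
    ring
  rw [this, N2_neg]
  exact h t

/-- real parts extend as real parts of holomorphic functions -/
lemma ext_re {q : C(Tc, ℂ)} {C : ℝ} (hC : 0 ≤ C) (hq : LL q C) :
    ∃ K : ℂ → ℂ, ContinuousOn K (closedBall 0 1) ∧ DifferentiableOn ℂ K (ball 0 1) ∧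
      ∀ x, (q x).re = (K (cir x)).re := by
  set b : ℕ → ℂ := fun n => conj (fourierCoeff q (Int.negSucc n)) with hb
  have hQ : QQ b C := by
    have := QQ_neg hq
    intro s
    refine le_trans (le_of_eq ?_) (this s)
    apply Finset.sum_congr rfl
    intro n _
    simp only [hb, Df.neg, norm_neg]
  have hs := hQ.summable hC
  set p := Fc 0 b hs with hp
  set q' : C(Tc, ℂ) := q + -cj p with hq'
  have hLL : LL q' (C + C) := hq.add (LL_Fc hs hC hQ).cj.neg
  have hneg : ∀ n : ℕ, fourierCoeff q' (Int.negSucc n) = 0 := by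
    intro n
    have e1 : q' = q - cj p := by rw [hq', sub_eq_add_neg]
    rw [e1, fourierCoeff_sub, fourierCoeff_cj, hp, fourierCoeff_Fc]
    have e2 : -(Int.negSucc n) = ((n + 1 : ℕ) : ℤ) := by
      rw [Int.neg_negSucc]
    rw [e2]
    change _ - conj (b n) = 0
    rw [hb]
    simp
  obtain ⟨G, hG1, hG2, hG3⟩ := ext_hol (by linarith) hLL hneg
  refine ⟨fun z => G z + FF 0 b z, hG1.add (continuousOn_FF hs), hG2.add (differentiableOn_FF hs), ?_⟩
  intro x
  have e1 : q x = q' x + conj (p x) := by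
    have : q' x = q x + -(cj p x) := rfl
    rw [this, cj_apply]
    ring
  rw [e1, hG3, Complex.add_re, Complex.add_re, Complex.conj_re]
  rfl

/-- bound of real parts of holomorphic functions -/
lemma re_le_of_sphere {K : ℂ → ℂ} (h1 : ContinuousOn K (closedBall 0 1))
    (h2 : DifferentiableOn ℂ K (ball 0 1)) {M : ℝ} (hM : ∀ z : ℂ, ‖z‖ = 1 → (K z).re ≤ M) {z : ℂ}
    (hz : ‖z‖ ≤ 1) : (K z).re ≤ M := by
  have hc : ContinuousOn (fun z => (K z).re + -M) (closedBall 0 1) :=
    (Complex.continuous_re.comp_continuousOn h1).add continuousOn_const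
  have := max_principle hc (fun z hz => by linarith [hM z hz]) (fun z hz => by
    have hev : ∀ᶠ y in 𝓝 z, DifferentiableAt ℂ K y := by
      filter_upwards [isOpen_ball.mem_nhds (mem_ball_zero_iff.mpr hz)] with y hy
      exact h2.differentiableAt (isOpen_ball.mem_nhds hy)
    have hre : ContDiffAt ℝ 2 (fun y : ℂ => y.re + -M) (K z) := by
      apply ContDiffAt.add _ contDiffAt_const
      exact Complex.reCLM.contDiff.contDiffAt
    have k1 := SD_comp hre hev 1
    have k2 := SD_comp hre hev Complex.I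
    refine ⟨_, _, k1, k2, ?_⟩
    have hf : fderiv ℝ (fun y : ℂ => y.re + -M) = fun _ => Complex.reCLM := by
      ext1 y
      rw [fderiv_add_const]
      exact Complex.reCLM.fderiv
    rw [hf]
    simp) hz
  linarith

end Pool.Agent.Helper853.Df
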