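import Pool.Agent.Helper853.Df.Disc

open scoped Topology ENNReal ComplexConjugate
open MeasureTheory Filter Metric

namespace Pool.Agent.Helper853.Df

lemma LL_Fc {c : ℂ} {a : ℕ → ℂ} (ha : Summable fun n => ‖a n‖) {C : ℝ} (hC : 0 ≤ C)
    (h : QQ a C) : LL (Fc c a ha) C := by
  intro t
  have h1 := hasSum_N2 (shift t (Fc c a ha) - Fc c a ha)
  have h2 : ∀ n : ℤ, ‖fourierCoeff (shift t (Fc c a ha) - Fc c a ha : C(Tc, ℂ)) n‖ ^ 2 =
      ‖((fourier n (t : Tc) : ℂ) - 1) * bz c a n‖ ^ 2 := by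
    intro n
    rw [fourierCoeff_sub, fourierCoeff_shift, fourierCoeff_Fc]
    congr 2
    ring
  simp_rw [h2] at h1
  have h3 := hasSum_bz h1 (fun n => by simp [bz])
  have h4 : ‖((fourier (0 : ℤ) (t : Tc) : ℂ) - 1) * bz c a 0‖ ^ 2 = 0 := by
    rw [fourier_zero]
    simp
  rw [h4, sub_zero] at h3
  have h5 : N2 (shift t (Fc c a ha) - Fc c a ha) ^ 2 ≤ (C * |t|) ^ 2 := by
    apply hasSum_le_of_sum_le h3
    intro s
    calc ∑ n ∈ s, ‖((fourier ((n + 1 : ℕ) : ℤ) (t : Tc) : ℂ) - 1) * bz c a ((n + 1 : ℕ) : ℤ)‖ ^ 2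
        ≤ ∑ n ∈ s, (((n : ℝ) + 1) ^ 2 * ‖a n‖ ^ 2) * |t| ^ 2 := by
          apply Finset.sum_le_sum
          intro n _
          rw [norm_mul, mul_pow]
          have h6 := fourier_sub_one_le ((n + 1 : ℕ) : ℤ) t
          have h7 : |((((n + 1 : ℕ) : ℤ)) : ℝ)| = (n : ℝ) + 1 := by
            push_cast
            exact abs_of_nonneg (by positivity)
          rw [h7] at h6
          have h8 : bz c a ((n + 1 : ℕ) : ℤ) = a n := rfl
          rw [h8]
          calc ‖(fourier ((n + 1 : ℕ) : ℤ) (t : Tc) : ℂ) - 1‖ ^ 2 * ‖a n‖ ^ 2 ≤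
              (((n : ℝ) + 1) * |t|) ^ 2 * ‖a n‖ ^ 2 := by gcongr
            _ = _ := by ring
      _ = (∑ n ∈ s, ((n : ℝ) + 1) ^ 2 * ‖a n‖ ^ 2) * |t| ^ 2 := by rw [Finset.sum_mul]
      _ ≤ C ^ 2 * |t| ^ 2 := by gcongr; exact h s
      _ = (C * |t|) ^ 2 := by ring
  exact le_of_sq_le_sq h5 (by positivity)

/-- the Lipschitz condition for the nonlinearity -/
def HL (h : ℂ → ℂ → ℂ) (ε : ℝ) : Prop :=
  ∀ z z' w w', ‖z‖ = 1 → ‖z'‖ = 1 → ‖h z w - h z' w'‖ ≤ ε * (‖z - z'‖ + ‖w - w'‖)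

section

variable {h : ℂ → ℂ → ℂ} {ε : ℝ} (hε : 0 ≤ ε) (hL : HL h ε)

include hL in
lemma continuous_nem (q : C(Tc, ℂ)) : Continuous fun x : Tc => h (cir x) (q x) := by
  rw [continuous_iff_continuousAt]
  intro x
  rw [ContinuousAt, tendsto_iff_norm_sub_tendsto_zero]
  have h1 : Tendsto (fun y : Tc => ε * (‖cir y - cir x‖ + ‖q y - q x‖)) (𝓝 x) (𝓝 0) := by
    have h2 : Continuous fun y : Tc => ε * (‖cir y - cir x‖ + ‖q y - q x‖) := by
      have := continuous_cir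
      have := q.continuous
      fun_prop
    have h3 := h2.tendsto x
    simpa using h3
  exact squeeze_zero (fun _ => norm_nonneg _)
    (fun y => hL _ _ _ _ (norm_cir y) (norm_cir x)) h1

/-- the superposition operator -/
noncomputable def nem (q : C(Tc, ℂ)) : C(Tc, ℂ) := ⟨fun x => h (cir x) (q x), continuous_nem hL q⟩

lemma nem_apply (q : C(Tc, ℂ)) (x : Tc) : nem hL q x = h (cir x) (q x) := rfl

include hε in
lemma N2_nem_sub (p q : C(Tc, ℂ)) : N2 (nem hL p - nem hL q) ≤ ε * N2 (p - q) := by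
  have h1 : N2 (nem hL p - nem hL q) ≤ N2 ((ε : ℂ) • (p - q)) := by
    apply N2_mono
    intro x
    simp only [ContinuousMap.sub_apply, ContinuousMap.smul_apply, nem_apply]
    have := hL (cir x) (cir x) (p x) (q x) (norm_cir x) (norm_cir x)
    rw [sub_self, norm_zero, zero_add] at this
    rwa [norm_smul, Complex.norm_real, Real.norm_of_nonneg hε]
  refine h1.trans (le_of_eq ?_)
  unfold N2
  rw [map_smul, norm_smul, Complex.norm_real, Real.norm_of_nonneg hε]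

lemma norm_cir_sub (x : Tc) (t : ℝ) : ‖cir (x + t) - cir x‖ ≤ |t| := by
  have h1 : cir (x + t) = cir x * cir t := by
    unfold cir
    rw [fourier_one, fourier_one, fourier_one, AddCircle.toCircle_add]
    rfl
  have h2 : cir x * cir t - cir x = cir x * (cir t - 1) := by ring
  rw [h1, h2, norm_mul, norm_cir, one_mul]
  have := fourier_sub_one_le 1 t
  simpa [cir] using this

include hε in
lemma LL_nem {q : C(Tc, ℂ)} {C : ℝ} (hq : LL q C) : LL (nem hL q) (ε * (1 + C)) := by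
  intro t
  set N : C(Tc, ℂ) := ⟨fun x => ((‖(shift t q - q) x‖ : ℝ) : ℂ), by
    have := (shift t q - q).continuous
    fun_prop⟩ with hN
  have h1 : N2 (shift t (nem hL q) - nem hL q) ≤
      N2 ((ε : ℂ) • (ContinuousMap.const Tc ((|t| : ℝ) : ℂ) + N)) := by
    apply N2_mono
    intro x
    simp only [ContinuousMap.sub_apply, ContinuousMap.smul_apply, nem_apply, shift_apply,
      ContinuousMap.add_apply, ContinuousMap.const_apply]
    have h2 := hL (cir (x + t)) (cir x) (q (x + t)) (q x) (norm_cir _) (norm_cir x)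
    rw [norm_smul, Complex.norm_real, Real.norm_of_nonneg hε]
    have h3 : N x = ((‖q (x + t) - q x‖ : ℝ) : ℂ) := rfl
    rw [h3, ← Complex.ofReal_add, Complex.norm_real, Real.norm_of_nonneg (by positivity)]
    refine h2.trans ?_
    gcongr
    exact norm_cir_sub x t
  have h4 : N2 ((ε : ℂ) • (ContinuousMap.const Tc ((|t| : ℝ) : ℂ) + N)) =
      ε * N2 (ContinuousMap.const Tc ((|t| : ℝ) : ℂ) + N) := by
    unfold N2
    rw [map_smul, norm_smul, Complex.norm_real, Real.norm_of_nonneg hε]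
  have h5 : N2 N ≤ N2 (shift t q - q) := by
    apply N2_mono
    intro x
    have : N x = ((‖(shift t q - q) x‖ : ℝ) : ℂ) := rfl
    rw [this, Complex.norm_real, norm_norm]
  have h6 := N2_add_le (ContinuousMap.const Tc ((|t| : ℝ) : ℂ)) N
  rw [N2_const, Complex.norm_real, Real.norm_of_nonneg (abs_nonneg t)] at h6
  calc _ ≤ _ := h1
    _ = _ := h4
    _ ≤ ε * (|t| + C * |t|) := by
      gcongr
      exact h6.trans (add_le_add le_rfl (h5.trans (hq t)))
    _ = ε * (1 + C) * |t| := by ring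

end

/-- the complete metric space of coefficient sequences -/
def X (C : ℝ) : Set (lp (fun _ : ℕ => ℂ) 2) := {a | QQ a C}

lemma isClosed_X (C : ℝ) : IsClosed (X C) := by
  have : X C = ⋂ s : Finset ℕ, {a | ∑ n ∈ s, ((n : ℝ) + 1) ^ 2 * ‖a n‖ ^ 2 ≤ C ^ 2} := by
    ext a
    simp [X, QQ]
  rw [this]
  apply isClosed_iInter
  intro s
  apply isClosed_le _ continuous_const
  apply continuous_finsetSum
  intro n _
  have : Continuous fun a : lp (fun _ : ℕ => ℂ) 2 => a n :=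
    (lp.evalCLM ℂ (fun _ : ℕ => ℂ) 2 n).continuous
  exact continuous_const.mul (this.norm.pow 2)

lemma lp_norm_sq (a : lp (fun _ : ℕ => ℂ) 2) : HasSum (fun n => ‖a n‖ ^ 2) (‖a‖ ^ 2) := by
  have := lp.hasSum_norm (p := 2) (by simp) a
  simpa using this

lemma memlp_of_QQ {a : ℕ → ℂ} {C : ℝ} (h : QQ a C) : Memℓp a 2 := by
  apply memℓp_gen' (C := C ^ 2)
  intro s
  refine le_trans ?_ (h s)
  apply Finset.sum_le_sum
  intro n _
  simp only [ENNReal.toReal_ofNat, Real.rpow_ofNat]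
  apply le_mul_of_one_le_left (by positivity)
  nlinarith [(Nat.cast_nonneg n : (0 : ℝ) ≤ n)]

/-- the sequence of the negative Fourier coefficients -/
noncomputable def neg (q : C(Tc, ℂ)) (n : ℕ) : ℂ := -conj (fourierCoeff q (Int.negSucc n))

lemma QQ_neg {q : C(Tc, ℂ)} {C : ℝ} (h : LL q C) : QQ (neg q) C := by
  intro s
  have h1 := h.sum_le (s.map ⟨Int.negSucc, fun a b hab => by simpa using hab⟩)
  rw [Finset.sum_map] at h1
  refine le_trans (le_of_eq ?_) h1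
  apply Finset.sum_congr rfl
  intro n _
  simp only [neg, norm_neg, RCLike.norm_conj]
  change _ = ((Int.negSucc n : ℤ) : ℝ) ^ 2 * ‖fourierCoeff q (Int.negSucc n)‖ ^ 2
  rw [Int.cast_negSucc]
  push_cast
  ring

lemma sum_neg_sub_le (p q : C(Tc, ℂ)) (s : Finset ℕ) :
    ∑ n ∈ s, ‖neg p n - neg q n‖ ^ 2 ≤ N2 (p - q) ^ 2 := by
  have h1 := hasSum_N2 (p - q)
  have h2 := sum_le_hasSum (s.map ⟨Int.negSucc, fun a b hab => by simpa using hab⟩)
    (fun i _ => by positivity) h1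
  rw [Finset.sum_map] at h2
  refine le_trans (le_of_eq ?_) h2
  apply Finset.sum_congr rfl
  intro n _
  change _ = ‖fourierCoeff (p - q : C(Tc, ℂ)) (Int.negSucc n)‖ ^ 2
  rw [fourierCoeff_sub]
  simp only [neg]
  have : -conj (fourierCoeff p (Int.negSucc n)) - -conj (fourierCoeff q (Int.negSucc n)) =
      -conj (fourierCoeff p (Int.negSucc n) - fourierCoeff q (Int.negSucc n)) := by
    rw [map_sub]
    ring
  rw [this, norm_neg, RCLike.norm_conj]

section

variable {h : ℂ → ℂ → ℂ} {ε : ℝ} (hε : 0 ≤ ε) (hε2 : ε ≤ 1 / 4) (hL : HL h ε)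

include hε in
lemma sumX {a : ℕ → ℂ} (ha : QQ a (2 * ε)) : Summable fun n => ‖a n‖ :=
  ha.summable (by linarith)

/-- the boundary function of a sequence -/
noncomputable def bd (c : ℂ) (a : X (2 * ε)) : C(Tc, ℂ) := Fc c a.1 (sumX hε a.2)

/-- the fixed point map -/
noncomputable def Phi (c : ℂ) (a : X (2 * ε)) : X (2 * ε) :=
  have hQ : QQ (neg (nem hL (bd hε c a))) (2 * ε) :=
    QQ_neg ((LL_nem hε hL (LL_Fc (sumX hε a.2) (by linarith) a.2)).mono (by nlinarith))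
  ⟨⟨neg (nem hL (bd hε c a)), memlp_of_QQ hQ⟩, hQ⟩

lemma Phi_apply (c : ℂ) (a : X (2 * ε)) (n : ℕ) :
    (Phi hε hε2 hL c a).1 n = neg (nem hL (bd hε c a)) n := rfl

lemma N2_bd_sub (c c' : ℂ) (a b : X (2 * ε)) :
    N2 (bd hε c a - bd hε c' b) ≤ ‖c - c'‖ + ‖a.1 - b.1‖ := by
  have h1 := parseval_sub (c := c) (c' := c') (sumX hε a.2) (sumX hε b.2)
  have h2 := lp_norm_sq (a.1 - b.1)
  have h3 : ∀ n, ‖(a.1 - b.1 : lp (fun _ : ℕ => ℂ) 2) n‖ ^ 2 = ‖a.1 n - b.1 n‖ ^ 2 := by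
    intro n
    rfl
  simp_rw [h3] at h2
  have h4 := h1.unique h2
  have h5 : N2 (bd hε c a - bd hε c' b) ^ 2 = ‖c - c'‖ ^ 2 + ‖a.1 - b.1‖ ^ 2 := by
    unfold bd
    linarith
  apply le_of_sq_le_sq _ (by positivity)
  rw [h5]
  nlinarith [norm_nonneg (c - c'), norm_nonneg (a.1 - b.1)]

lemma norm_Phi_sub (c c' : ℂ) (a b : X (2 * ε)) :
    ‖(Phi hε hε2 hL c a).1 - (Phi hε hε2 hL c' b).1‖ ≤ ε * (‖c - c'‖ + ‖a.1 - b.1‖) := by
  have h1 := lp_norm_sq ((Phi hε hε2 hL c a).1 - (Phi hε hε2 hL c' b).1)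
  have h2 : ‖(Phi hε hε2 hL c a).1 - (Phi hε hε2 hL c' b).1‖ ^ 2 ≤
      N2 (nem hL (bd hε c a) - nem hL (bd hε c' b)) ^ 2 := by
    apply hasSum_le_of_sum_le h1
    intro s
    exact sum_neg_sub_le _ _ s
  have h3 := N2_nem_sub hε hL (bd hε c a) (bd hε c' b)
  have h4 := N2_bd_sub hε c c' a b
  have h5 : ‖(Phi hε hε2 hL c a).1 - (Phi hε hε2 hL c' b).1‖ ≤
      N2 (nem hL (bd hε c a) - nem hL (bd hε c' b)) := le_of_sq_le_sq h2 (N2_nonneg _)
  calc _ ≤ _ := h5
    _ ≤ _ := h3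
    _ ≤ _ := by gcongr

lemma contracting (c : ℂ) : ContractingWith (1 / 4 : NNReal) (Phi hε hε2 hL c) := by
  constructor
  · rw [← NNReal.coe_lt_coe]
    norm_num
  · apply LipschitzWith.of_dist_le_mul
    intro a b
    rw [Subtype.dist_eq, Subtype.dist_eq, dist_eq_norm, dist_eq_norm]
    have h1 := norm_Phi_sub hε hε2 hL c c a b
    rw [sub_self, norm_zero, zero_add] at h1
    refine h1.trans ?_
    gcongr
    push_cast
    exact hε2

instance : CompleteSpace (X (2 * ε)) := (isClosed_X _).completeSpace_coe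

instance : Nonempty (X (2 * ε)) := ⟨⟨0, by
  intro s
  simp
  positivity⟩⟩

/-- the solution -/
noncomputable def sol (c : ℂ) : X (2 * ε) := (contracting hε hε2 hL c).fixedPoint

lemma sol_eq (c : ℂ) : Phi hε hε2 hL c (sol hε hε2 hL c) = sol hε hε2 hL c :=
  (contracting hε hε2 hL c).fixedPoint_isFixedPt

lemma norm_sol_sub (c c' : ℂ) :
    ‖(sol hε hε2 hL c).1 - (sol hε hε2 hL c').1‖ ≤ (1 / 3) * ‖c - c'‖ := by
  have h1 := norm_Phi_sub hε hε2 hL c c' (sol hε hε2 hL c) (sol hε hε2 hL c')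
  rw [sol_eq, sol_eq] at h1
  have h2 := norm_nonneg (c - c')
  have h3 := norm_nonneg ((sol hε hε2 hL c).1 - (sol hε hε2 hL c').1)
  nlinarith

end

end Pool.Agent.Helper853.Df
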