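import Mathlib

open scoped Topology ENNReal ComplexConjugate
open MeasureTheory Filter

namespace Pool.Agent.Helper853.Df

instance factTwoPi : Fact (0 < 2 * Real.pi) := ⟨Real.two_pi_pos⟩

/-- the circle as an additive group -/
abbrev Tc := AddCircle (2 * Real.pi)

/-- the point of the unit circle -/
noncomputable def cir (x : Tc) : ℂ := fourier 1 x

lemma continuous_cir : Continuous cir := (fourier 1).continuous

lemma norm_cir (x : Tc) : ‖cir x‖ = 1 := by
  unfold cir
  rw [fourier_apply, Circle.norm_coe]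

lemma fourier_nat (n : ℕ) (x : Tc) : fourier (n : ℤ) x = cir x ^ n := by
  unfold cir
  rw [fourier_apply, fourier_one, natCast_zsmul, AddCircle.toCircle_nsmul]
  rfl

lemma cir_coe (t : ℝ) : cir (t : Tc) = Complex.exp (t * Complex.I) := by
  unfold cir
  rw [fourier_coe_apply]
  congr 1
  have := Real.pi_pos.ne'
  push_cast
  field_simp

/-- every point of the unit circle is of this form -/
lemma exists_cir {z : ℂ} (hz : ‖z‖ = 1) : ∃ x : Tc, cir x = z := by
  refine ⟨(Complex.arg z : ℝ), ?_⟩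
  rw [cir_coe]
  have := Complex.norm_mul_exp_arg_mul_I z
  rw [hz] at this
  simpa using this

/-- the `L²` norm of a continuous function on the circle -/
noncomputable def N2 (q : C(Tc, ℂ)) : ℝ := ‖ContinuousMap.toLp (E := ℂ) 2 AddCircle.haarAddCircle ℂ q‖

lemma N2_nonneg (q : C(Tc, ℂ)) : 0 ≤ N2 q := norm_nonneg _

lemma N2_add_le (p q : C(Tc, ℂ)) : N2 (p + q) ≤ N2 p + N2 q := by
  unfold N2
  rw [map_add]
  exact norm_add_le _ _

lemma hasSum_N2 (q : C(Tc, ℂ)) : HasSum (fun n : ℤ => ‖fourierCoeff q n‖ ^ 2) (N2 q ^ 2) := by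
  have h := hasSum_sq_fourierCoeff (ContinuousMap.toLp (E := ℂ) 2 AddCircle.haarAddCircle ℂ q)
  simp_rw [fourierCoeff_toLp] at h
  convert h using 1
  unfold N2
  have h2 := @L2.inner_def (Tc) ℂ ℂ _ _ AddCircle.haarAddCircle _ _
    (ContinuousMap.toLp (E := ℂ) 2 AddCircle.haarAddCircle ℂ q)
    (ContinuousMap.toLp (E := ℂ) 2 AddCircle.haarAddCircle ℂ q)
  have h3 := congrArg RCLike.re h2
  rw [← norm_sq_eq_re_inner] at h3
  rw [h3, ← integral_re]
  · simp only [← norm_sq_eq_re_inner]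
  · exact L2.integrable_inner _ _

lemma N2_mono {p q : C(Tc, ℂ)} (h : ∀ x, ‖p x‖ ≤ ‖q x‖) : N2 p ≤ N2 q := by
  unfold N2
  apply Lp.norm_le_norm_of_ae_le
  filter_upwards [ContinuousMap.coeFn_toLp (p := 2) (𝕜 := ℂ) AddCircle.haarAddCircle p,
    ContinuousMap.coeFn_toLp (p := 2) (𝕜 := ℂ) AddCircle.haarAddCircle q] with x h1 h2
  rw [h1, h2]
  exact h x

lemma N2_const (c : ℂ) : N2 (ContinuousMap.const Tc c) = ‖c‖ := by
  have h : N2 (ContinuousMap.const Tc c) ^ 2 = ‖c‖ ^ 2 := by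
    have h1 := hasSum_N2 (ContinuousMap.const Tc c)
    have h2 : ∀ n : ℤ, fourierCoeff (ContinuousMap.const Tc c) n = if n = 0 then c else 0 := by
      intro n
      have e : (fun x : Tc => (ContinuousMap.const Tc c) x) = c • (fun x : Tc => fourier 0 x) := by
        ext x
        simp
      have e2 : fourierCoeff (ContinuousMap.const Tc c) n =
          fourierCoeff (c • (fun x : Tc => fourier 0 x)) n := by rw [← e]
      rw [e2, fourierCoeff.const_smul, fourierCoeff_fourier]
      by_cases hn : n = 0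
      · simp [hn]
      · simp [hn]
    simp_rw [h2] at h1
    have h3 : HasSum (fun n : ℤ => ‖if n = 0 then c else 0‖ ^ 2) (‖c‖ ^ 2) := by
      have := hasSum_ite_eq (0 : ℤ) (‖c‖ ^ 2)
      convert this using 2 with n
      split_ifs <;> simp
    exact h1.unique h3
  have := N2_nonneg (ContinuousMap.const Tc c)
  exact (pow_left_inj₀ this (norm_nonneg c) two_ne_zero).mp h

/-- the Fourier coefficient as a continuous linear functional -/
noncomputable def coefL (m : ℤ) : C(Tc, ℂ) →L[ℂ] ℂ :=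
  (lp.evalCLM ℂ (fun _ : ℤ => ℂ) 2 m).comp
    ((fourierBasis (T := 2 * Real.pi)).repr.toContinuousLinearEquiv.toContinuousLinearMap.comp
      (ContinuousMap.toLp (E := ℂ) 2 AddCircle.haarAddCircle ℂ))

lemma coefL_apply (m : ℤ) (q : C(Tc, ℂ)) : coefL m q = fourierCoeff q m := by
  unfold coefL
  simp only [ContinuousLinearMap.comp_apply]
  change (fourierBasis (T := 2 * Real.pi)).repr _ m = _
  rw [fourierBasis_repr, fourierCoeff_toLp]

lemma fourierCoeff_sub (p q : C(Tc, ℂ)) (m : ℤ) :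
    fourierCoeff (p - q : C(Tc, ℂ)) m = fourierCoeff p m - fourierCoeff q m := by
  rw [← coefL_apply, ← coefL_apply, ← coefL_apply, map_sub]

/-- a continuous function with given summable Fourier coefficients -/
lemma fourierCoeff_of_hasSum {b : ℤ → ℂ} {q : C(Tc, ℂ)}
    (h : HasSum (fun n : ℤ => b n • (fourier n : C(Tc, ℂ))) q) (m : ℤ) : fourierCoeff q m = b m := by
  have h1 := h.mapL (coefL m)
  have h2 : ∀ n : ℤ, coefL m (b n • (fourier n : C(Tc, ℂ))) = if n = m then b m else 0 := by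
    intro n
    rw [map_smul, coefL_apply, fourierCoeff_fourier]
    by_cases hn : n = m
    · rw [hn]; simp
    · have : m ≠ n := fun h => hn h.symm
      simp [hn, this]
  simp_rw [h2, coefL_apply] at h1
  exact h1.unique (hasSum_ite_eq m (b m))

/-- translation -/
noncomputable def shift (t : Tc) (q : C(Tc, ℂ)) : C(Tc, ℂ) :=
  q.comp ⟨fun x => x + t, by fun_prop⟩

lemma shift_apply (t : Tc) (q : C(Tc, ℂ)) (x : Tc) : shift t q x = q (x + t) := rfl

lemma fourierCoeff_shift (t : Tc) (q : C(Tc, ℂ)) (n : ℤ) :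
    fourierCoeff (shift t q) n = fourier n t * fourierCoeff q n := by
  unfold fourierCoeff
  have h1 : ∀ x : Tc, (fourier (-n) x : ℂ) • (shift t q) x =
      (fun y : Tc => (fourier n t : ℂ) * ((fourier (-n) y : ℂ) • q y)) (x + t) := by
    intro x
    simp only [shift_apply, smul_eq_mul]
    have h2 : (fourier (-n) (x + t) : ℂ) = fourier (-n) x * fourier (-n) t := by
      rw [fourier_apply, fourier_apply, fourier_apply, smul_add, AddCircle.toCircle_add]
      rfl
    have h3 : (fourier n t : ℂ) * fourier (-n) t = 1 := by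
      rw [← fourier_add, add_neg_cancel, fourier_zero]
    rw [h2]
    calc (fourier (-n) x : ℂ) * q (x + t) =
        ((fourier n t : ℂ) * fourier (-n) t) * ((fourier (-n) x : ℂ) * q (x + t)) := by
          rw [h3, one_mul]
      _ = _ := by ring
  simp_rw [h1]
  rw [integral_add_right_eq_self (fun y : Tc => (fourier n t : ℂ) * ((fourier (-n) y : ℂ) • q y)),
    integral_const_mul]

/-- a function on the circle which is Lipschitz in the mean square sense -/
def LL (q : C(Tc, ℂ)) (C : ℝ) : Prop := ∀ t : ℝ, N2 (shift t q - q) ≤ C * |t|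

lemma LL.mono {q : C(Tc, ℂ)} {C D : ℝ} (h : LL q C) (hCD : C ≤ D) : LL q D := fun t =>
  (h t).trans (by gcongr)

lemma fourier_sub_one (n : ℤ) (t : ℝ) :
    ‖(fourier n (t : Tc) : ℂ) - 1‖ = ‖Complex.exp ((n * t : ℝ) * Complex.I) - 1‖ := by
  rw [fourier_coe_apply]
  congr 3
  have := Real.pi_pos.ne'
  push_cast
  field_simp

lemma fourier_sub_one_le (n : ℤ) (t : ℝ) :
    ‖(fourier n (t : Tc) : ℂ) - 1‖ ≤ |(n : ℝ)| * |t| := by
  rw [fourier_sub_one, mul_comm _ Complex.I]
  have := Real.norm_exp_I_mul_ofReal_sub_one_le (x := (n * t : ℝ))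
  refine this.trans ?_
  rw [Real.norm_eq_abs, abs_mul]

/-- estimate of the Fourier coefficients -/
lemma LL.sum_le {q : C(Tc, ℂ)} {C : ℝ} (h : LL q C) (s : Finset ℤ) :
    ∑ n ∈ s, (n : ℝ) ^ 2 * ‖fourierCoeff q n‖ ^ 2 ≤ C ^ 2 := by
  -- the difference quotient
  have key : ∀ t : ℝ, 0 < t → ∑ n ∈ s, (‖(fourier n (t : Tc) : ℂ) - 1‖ / t) ^ 2 *
      ‖fourierCoeff q n‖ ^ 2 ≤ C ^ 2 := by
    intro t ht
    have h1 := hasSum_N2 (shift t q - q)
    have h2 : ∀ n : ℤ, ‖fourierCoeff (shift t q - q : C(Tc, ℂ)) n‖ ^ 2 =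
        ‖(fourier n (t : Tc) : ℂ) - 1‖ ^ 2 * ‖fourierCoeff q n‖ ^ 2 := by
      intro n
      rw [fourierCoeff_sub, fourierCoeff_shift, ← mul_pow, ← norm_mul]
      congr 2
      ring
    simp_rw [h2] at h1
    have h3 := sum_le_hasSum s (fun i _ => by positivity) h1
    have h4 : N2 (shift t q - q) ^ 2 ≤ (C * t) ^ 2 := by
      have := h t
      rw [abs_of_pos ht] at this
      have h0 := N2_nonneg (shift t q - q)
      gcongr
    have h5 : ∑ n ∈ s, (‖(fourier n (t : Tc) : ℂ) - 1‖ / t) ^ 2 * ‖fourierCoeff q n‖ ^ 2 =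
        (∑ n ∈ s, ‖(fourier n (t : Tc) : ℂ) - 1‖ ^ 2 * ‖fourierCoeff q n‖ ^ 2) / t ^ 2 := by
      rw [Finset.sum_div]
      apply Finset.sum_congr rfl
      intro n _
      field_simp
    rw [h5, div_le_iff₀ (by positivity)]
    calc _ ≤ _ := h3
      _ ≤ _ := h4
      _ = C ^ 2 * t ^ 2 := by ring
  have lim : Tendsto (fun t : ℝ => ∑ n ∈ s, (‖(fourier n (t : Tc) : ℂ) - 1‖ / t) ^ 2 *
      ‖fourierCoeff q n‖ ^ 2) (𝓝[>] 0) (𝓝 (∑ n ∈ s, (n : ℝ) ^ 2 * ‖fourierCoeff q n‖ ^ 2)) := by
    apply tendsto_finsetSum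
    intro n _
    apply Tendsto.mul_const
    have hd : HasDerivAt (fun t : ℝ => Complex.exp ((n * t : ℝ) * Complex.I)) (n * Complex.I) 0 := by
      have e1 : HasDerivAt (fun t : ℝ => ((n * t : ℝ) : ℂ) * Complex.I) (n * Complex.I) 0 := by
        have := ((hasDerivAt_id (0 : ℝ)).const_mul (n : ℝ)).ofReal_comp.mul_const Complex.I
        simpa using this
      have := e1.cexp
      simpa using this
    have hs := hd.tendsto_slope_zero_right
    have hs2 := (hs.norm).pow 2
    simp only [zero_add] at hs2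
    have e2 : ‖((n : ℂ) * Complex.I)‖ ^ 2 = (n : ℝ) ^ 2 := by
      rw [norm_mul, Complex.norm_I, mul_one, Complex.norm_intCast, sq_abs]
    rw [e2] at hs2
    refine hs2.congr' ?_
    filter_upwards [self_mem_nhdsWithin] with t ht
    have ht' : 0 < t := ht
    rw [norm_smul, fourier_sub_one, norm_inv, Real.norm_of_nonneg ht'.le]
    simp
    ring
  apply le_of_tendsto lim
  filter_upwards [self_mem_nhdsWithin] with t ht
  exact key t ht

end Pool.Agent.Helper853.Df
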