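import Pool.Agent.Helper853.Df.Norm
import Pool.Agent.Helper853.Df.Harm

open scoped Topology ContDiff ComplexOrder ENNReal ComplexConjugate
open MeasureTheory Filter Metric InnerProductSpace

namespace Pool.Agent.Helper853.Df

lemma harm_line {φ : C2 → ℝ} {x₀ b : C2} {δ : ℝ} (hφ : ContDiff ℝ 2 φ)
    (h : ∀ ζ ∈ ball (0 : ℂ) δ, lap2 φ (x₀ + ζ • b) b = 0) :
    HarmonicOnNhd (fun ζ : ℂ => φ (x₀ + ζ • b)) (ball 0 δ) := by
  have hγd : ∀ z : ℂ, HasDerivAt (fun ζ : ℂ => x₀ + ζ • b) b z := by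
    intro z
    have := ((hasDerivAt_id z).smul_const b).const_add x₀
    simpa using this
  have hγ1 : deriv (fun ζ : ℂ => x₀ + ζ • b) = fun _ => b := funext fun z => (hγd z).deriv
  have haff : ContDiff ℝ 2 fun ζ : ℂ => x₀ + ζ • b := by fun_prop
  have hm : ContDiff ℝ 2 fun ζ : ℂ => φ (x₀ + ζ • b) := hφ.comp haff
  have key : ∀ ζ v : ℂ, fderiv ℝ (fderiv ℝ fun ζ : ℂ => φ (x₀ + ζ • b)) ζ v v =
      fderiv ℝ (fderiv ℝ φ) (x₀ + ζ • b) (v • b) (v • b) := by
    intro ζ v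
    have h1 := SD_comp (γ := fun ζ : ℂ => x₀ + ζ • b) (ζ := ζ) (ψ := φ) hφ.contDiffAt
      (Filter.Eventually.of_forall fun z => (hγd z).differentiableAt) v
    have h2 := SD_comp (γ := fun ζ : ℂ => ζ) (ζ := ζ) (ψ := fun ζ : ℂ => φ (x₀ + ζ • b))
      hm.contDiffAt (Filter.Eventually.of_forall fun z => differentiableAt_id) v
    have e1 : deriv (fun ζ : ℂ => ζ) = fun _ => 1 := funext fun z => (hasDerivAt_id z).deriv
    rw [hγ1] at h1
    rw [e1] at h2
    have h3 := h2.unique h1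
    simpa using h3
  have hlap : ∀ ζ ∈ ball (0 : ℂ) δ, Laplacian.laplacian
      (fun ζ : ℂ => φ (x₀ + ζ • b)) ζ = 0 := by
    intro ζ hζ
    rw [laplacian_eq_iteratedFDeriv_complexPlane]
    simp only [iteratedFDeriv_two_apply, Matrix.cons_val_zero, Matrix.cons_val_one]
    rw [key, key, one_smul]
    exact h ζ hζ
  intro ζ hζ
  refine ⟨hm.contDiffAt, ?_⟩
  filter_upwards [isOpen_ball.mem_nhds hζ] with y hy
  exact hlap y hy

end Pool.Agent.Helper853.Df
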