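import Pool.Agent.Helper853.Df.Ext

open scoped Topology ENNReal ComplexConjugate ContDiff
open MeasureTheory Filter Metric

namespace Pool.Agent.Helper853.Df

/-- the closed polydisc -/
def Pd : Set (ℂ × ℂ) := {x | ‖x.1‖ ≤ 1 ∧ ‖x.2‖ ≤ 2}

/-- the deviation from the model -/
noncomputable def eta (ψ : ℂ × ℂ → ℝ) (x : ℂ × ℂ) : ℝ := ψ x - ‖x.2‖ ^ 2

/-- normalised maximal functions -/
structure Nrm (ψ : ℂ × ℂ → ℝ) (N : Set (ℂ × ℂ)) (ε : ℝ) : Prop where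
  isOpen : IsOpen N
  sub : Pd ⊆ N
  cd : ContDiffOn ℝ 2 ψ N
  lev : ∀ x ∈ N, ∀ v : ℂ × ℂ, 0 ≤ fderiv ℝ (fderiv ℝ ψ) x v v +
    fderiv ℝ (fderiv ℝ ψ) x (Complex.I • v) (Complex.I • v)
  lip : ∀ x ∈ Pd, ∀ y ∈ Pd, ‖fderiv ℝ (eta ψ) x - fderiv ℝ (eta ψ) y‖ ≤ ε * ‖x - y‖
  d0 : fderiv ℝ (eta ψ) 0 = 0
  v0 : ψ 0 = 0
  mx : ∀ L : ℂ × ℂ → ℂ, ContinuousOn L Pd →
    ContDiffOn ℂ ∞ L {x : ℂ × ℂ | ‖x.1‖ < 1 ∧ ‖x.2‖ < 2} →
    (∀ x ∈ Pd, ‖x.1‖ = 1 ∨ ‖x.2‖ = 2 → (L x).re < ψ x) → ∀ x ∈ Pd, (L x).re ≤ ψ x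

lemma convex_Pd : Convex ℝ Pd := by
  have : Pd = closedBall (0 : ℂ) 1 ×ˢ closedBall (0 : ℂ) 2 := by
    ext x
    simp [Pd]
  rw [this]
  exact (convex_closedBall _ _).prod (convex_closedBall _ _)

lemma zero_mem_Pd : (0 : ℂ × ℂ) ∈ Pd := by simp [Pd]

lemma norm_le_of_mem {x : ℂ × ℂ} (hx : x ∈ Pd) : ‖x‖ ≤ 2 := by
  rw [Prod.norm_def]
  exact max_le (by linarith [hx.1]) hx.2

section

variable {ψ : ℂ × ℂ → ℝ} {N : Set (ℂ × ℂ)} {ε : ℝ} (H : Nrm ψ N ε) (hε : 0 ≤ ε)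

include H in
lemma diff_eta {x : ℂ × ℂ} (hx : x ∈ Pd) : DifferentiableAt ℝ (eta ψ) x := by
  unfold eta
  apply DifferentiableAt.sub
  · exact (H.cd.contDiffAt (H.isOpen.mem_nhds (H.sub hx))).differentiableAt (by norm_num)
  · have : ContDiff ℝ 2 fun x : ℂ × ℂ => ‖x.2‖ ^ 2 := contDiff_snd.norm_sq ℝ
    exact this.contDiffAt.differentiableAt (by norm_num)

include H hε in
lemma norm_deta_le {x : ℂ × ℂ} (hx : x ∈ Pd) : ‖fderiv ℝ (eta ψ) x‖ ≤ 2 * ε := by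
  have h1 := H.lip x hx 0 zero_mem_Pd
  rw [H.d0, sub_zero, sub_zero] at h1
  have := norm_le_of_mem hx
  nlinarith

include H hε in
lemma eta_sub_le {x y : ℂ × ℂ} (hx : x ∈ Pd) (hy : y ∈ Pd) :
    |eta ψ x - eta ψ y| ≤ 2 * ε * ‖x - y‖ := by
  have := convex_Pd.norm_image_sub_le_of_norm_hasFDerivWithin_le (f := eta ψ)
    (f' := fun x => fderiv ℝ (eta ψ) x) (C := 2 * ε)
    (fun z hz => (diff_eta H hz).hasFDerivAt.hasFDerivWithinAt)
    (fun z hz => norm_deta_le H hε hz) hy hx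
  rwa [Real.norm_eq_abs] at this

include H hε in
lemma eta_taylor {x y : ℂ × ℂ} (hx : x ∈ Pd) (hy : y ∈ Pd) :
    |eta ψ y - eta ψ x - fderiv ℝ (eta ψ) x (y - x)| ≤ ε * ‖y - x‖ ^ 2 := by
  have hconv : Convex ℝ (Pd ∩ closedBall x ‖y - x‖) := convex_Pd.inter (convex_closedBall _ _)
  have := hconv.norm_image_sub_le_of_norm_hasFDerivWithin_le' (f := eta ψ)
    (f' := fun x => fderiv ℝ (eta ψ) x) (φ := fderiv ℝ (eta ψ) x) (C := ε * ‖y - x‖)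
    (fun z hz => (diff_eta H hz.1).hasFDerivAt.hasFDerivWithinAt)
    (fun z hz => by
      refine (H.lip z hz.1 x hx).trans ?_
      have := hz.2
      rw [mem_closedBall, dist_eq_norm] at this
      gcongr) (x := x) (y := y) ⟨hx, mem_closedBall_self (norm_nonneg _)⟩
    ⟨hy, by rw [mem_closedBall, dist_eq_norm]⟩
  rw [Real.norm_eq_abs] at this
  calc _ ≤ _ := this
    _ = _ := by ring

/-- the nonlinearity: the `w`-derivative of `η` -/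
noncomputable def hh (ψ : ℂ × ℂ → ℝ) (x : ℂ × ℂ) : ℂ :=
  (1 / 2) * ((fderiv ℝ (eta ψ) x (0, 1) : ℝ) - Complex.I * (fderiv ℝ (eta ψ) x (0, Complex.I) : ℝ))

lemma deta_apply (x : ℂ × ℂ) (v : ℂ) : fderiv ℝ (eta ψ) x (0, v) = 2 * (hh ψ x * v).re := by
  have h1 : ((0 : ℂ), v) = v.re • ((0 : ℂ), (1 : ℂ)) + v.im • ((0 : ℂ), Complex.I) := by
    ext <;> simp
  rw [h1, map_add, map_smul, map_smul]
  unfold hh
  simp
  ring

lemma norm_zero_one : ‖((0 : ℂ), (1 : ℂ))‖ = 1 := by simp [Prod.norm_def]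

lemma norm_zero_I : ‖((0 : ℂ), Complex.I)‖ = 1 := by simp [Prod.norm_def]

lemma norm_half_le (a b : ℝ) {M : ℝ} (ha : |a| ≤ M) (hb : |b| ≤ M) :
    ‖(1 / 2 : ℂ) * ((a : ℂ) - Complex.I * (b : ℂ))‖ ≤ M := by
  rw [norm_mul]
  have h1 : ‖(1 / 2 : ℂ)‖ = 1 / 2 := by simp
  have h2 : ‖(a : ℂ) - Complex.I * (b : ℂ)‖ ≤ |a| + |b| := by
    refine (norm_sub_le _ _).trans ?_
    rw [norm_mul, Complex.norm_I, one_mul, Complex.norm_real, Complex.norm_real]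
    rfl
  rw [h1]
  linarith

include H in
lemma hh_sub_le {x y : ℂ × ℂ} (hx : x ∈ Pd) (hy : y ∈ Pd) : ‖hh ψ x - hh ψ y‖ ≤ ε * ‖x - y‖ := by
  have e : hh ψ x - hh ψ y = (1 / 2) *
      ((((fderiv ℝ (eta ψ) x - fderiv ℝ (eta ψ) y) (0, 1) : ℝ) : ℂ) -
        Complex.I * (((fderiv ℝ (eta ψ) x - fderiv ℝ (eta ψ) y) (0, Complex.I) : ℝ) : ℂ)) := by
    unfold hh
    simp only [_root_.sub_apply]
    push_cast
    ring
  rw [e]
  have h1 := H.lip x hx y hy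
  apply norm_half_le
  · have := (fderiv ℝ (eta ψ) x - fderiv ℝ (eta ψ) y).le_opNorm (0, 1)
    rw [norm_zero_one, mul_one, Real.norm_eq_abs] at this
    linarith
  · have := (fderiv ℝ (eta ψ) x - fderiv ℝ (eta ψ) y).le_opNorm (0, Complex.I)
    rw [norm_zero_I, mul_one, Real.norm_eq_abs] at this
    linarith

include H hε in
lemma hh_le {x : ℂ × ℂ} (hx : x ∈ Pd) : ‖hh ψ x‖ ≤ 2 * ε := by
  have h1 := norm_deta_le H hε hx
  unfold hh
  apply norm_half_le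
  · have := (fderiv ℝ (eta ψ) x).le_opNorm (0, 1)
    rw [norm_zero_one, mul_one, Real.norm_eq_abs] at this
    linarith
  · have := (fderiv ℝ (eta ψ) x).le_opNorm (0, Complex.I)
    rw [norm_zero_I, mul_one, Real.norm_eq_abs] at this
    linarith

include H hε in
/-- strict convexity in the second variable -/
lemma strict {z w₁ w₂ : ℂ} (hz : ‖z‖ ≤ 1) (h1 : ‖w₁‖ ≤ 2) (h2 : ‖w₂‖ ≤ 2) :
    ψ (z, w₁) + 2 * ((conj w₁ + hh ψ (z, w₁)) * (w₂ - w₁)).re + (1 - ε) * ‖w₂ - w₁‖ ^ 2 ≤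
      ψ (z, w₂) := by
  have h3 := eta_taylor H hε (x := (z, w₁)) (y := (z, w₂)) ⟨hz, h1⟩ ⟨hz, h2⟩
  have e1 : ((z, w₂) : ℂ × ℂ) - (z, w₁) = (0, w₂ - w₁) := by
    ext <;> simp
  rw [e1, deta_apply] at h3
  have e2 : ‖((0 : ℂ), w₂ - w₁)‖ = ‖w₂ - w₁‖ := by simp [Prod.norm_def]
  rw [e2] at h3
  have h4 := (abs_le.mp h3).1
  simp only [eta] at h4
  have e3 : ‖w₂‖ ^ 2 = ‖w₁‖ ^ 2 + 2 * (conj w₁ * (w₂ - w₁)).re + ‖w₂ - w₁‖ ^ 2 := by
    rw [Complex.sq_norm, Complex.sq_norm, Complex.sq_norm, Complex.normSq_apply,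
      Complex.normSq_apply, Complex.normSq_apply]
    simp
    ring
  rw [e3] at h4
  rw [add_mul, Complex.add_re]
  linarith

end

/-- clamping -/
noncomputable def cl (x : ℝ) : ℝ := max (-1) (min x 1)

lemma cl_sub_le (x y : ℝ) : |cl x - cl y| ≤ |x - y| := by
  unfold cl
  have h1 := abs_max_sub_max_le_abs (min x 1) (min y 1) (-1)
  rw [max_comm (-1), max_comm (-1)]
  refine h1.trans ?_
  exact abs_min_sub_min_le_max x 1 y 1 |>.trans (by simp)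

lemma abs_cl_le (x : ℝ) : |cl x| ≤ 1 := by
  unfold cl
  rw [abs_le]
  exact ⟨le_max_left _ _, max_le (by norm_num) (min_le_right _ _)⟩

lemma cl_of_abs_le {x : ℝ} (h : |x| ≤ 1) : cl x = x := by
  unfold cl
  rw [abs_le] at h
  rw [min_eq_left h.2, max_eq_right h.1]

/-- the projection onto the square -/
noncomputable def prj (w : ℂ) : ℂ := ⟨cl w.re, cl w.im⟩

lemma prj_sub_le (w w' : ℂ) : ‖prj w - prj w'‖ ≤ ‖w - w'‖ := by
  have h : ‖prj w - prj w'‖ ^ 2 ≤ ‖w - w'‖ ^ 2 := by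
    rw [Complex.sq_norm, Complex.sq_norm, Complex.normSq_apply, Complex.normSq_apply]
    have h1 := sq_le_sq' (neg_le_of_abs_le (cl_sub_le w.re w'.re))
      (le_of_abs_le (cl_sub_le w.re w'.re))
    have h2 := sq_le_sq' (neg_le_of_abs_le (cl_sub_le w.im w'.im))
      (le_of_abs_le (cl_sub_le w.im w'.im))
    rw [sq_abs] at h1 h2
    simp only [prj, Complex.sub_re, Complex.sub_im]
    nlinarith
  exact le_of_sq_le_sq h (norm_nonneg _)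

lemma norm_prj_le (w : ℂ) : ‖prj w‖ ≤ 2 := by
  have h := Complex.norm_le_abs_re_add_abs_im (prj w)
  have h1 := abs_cl_le w.re
  have h2 := abs_cl_le w.im
  have e1 : (prj w).re = cl w.re := rfl
  have e2 : (prj w).im = cl w.im := rfl
  rw [e1, e2] at h
  linarith

lemma prj_of_norm_le {w : ℂ} (h : ‖w‖ ≤ 1) : prj w = w := by
  apply Complex.ext
  · exact cl_of_abs_le ((Complex.abs_re_le_norm w).trans h)
  · exact cl_of_abs_le ((Complex.abs_im_le_norm w).trans h)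

section

variable {ψ : ℂ × ℂ → ℝ} {N : Set (ℂ × ℂ)} {ε : ℝ} (H : Nrm ψ N ε) (hε : 0 ≤ ε) (hε4 : ε ≤ 1 / 64)

include H hε in
lemma HL_hh : HL (fun z w => hh ψ (z, prj w)) ε := by
  intro z z' w w' hz hz'
  refine (hh_sub_le H ⟨hz.le, norm_prj_le w⟩ ⟨hz'.le, norm_prj_le w'⟩).trans ?_
  gcongr
  rw [Prod.norm_def]
  have := prj_sub_le w w'
  apply max_le
  · simp only [Prod.fst_sub]
    linarith [norm_nonneg (w - w')]
  · simp only [Prod.snd_sub]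
    linarith [norm_nonneg (z - z')]

include H hε hε4 in
lemma HL_psi : HL (fun z w => ((ψ (z, prj w) : ℝ) : ℂ)) 5 := by
  intro z z' w w' hz hz'
  rw [← Complex.ofReal_sub, Complex.norm_real, Real.norm_eq_abs]
  have h1 := eta_sub_le H hε (x := (z, prj w)) (y := (z', prj w')) ⟨hz.le, norm_prj_le w⟩
    ⟨hz'.le, norm_prj_le w'⟩
  have h2 := prj_sub_le w w'
  have h3 : ‖((z, prj w) : ℂ × ℂ) - (z', prj w')‖ ≤ ‖z - z'‖ + ‖w - w'‖ := by
    rw [Prod.norm_def]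
    apply max_le
    · simp only [Prod.fst_sub]
      linarith [norm_nonneg (w - w')]
    · simp only [Prod.snd_sub]
      linarith [norm_nonneg (z - z')]
  have h4 : |‖prj w‖ ^ 2 - ‖prj w'‖ ^ 2| ≤ 4 * ‖w - w'‖ := by
    have e : ‖prj w‖ ^ 2 - ‖prj w'‖ ^ 2 = (‖prj w‖ + ‖prj w'‖) * (‖prj w‖ - ‖prj w'‖) := by ring
    rw [e, abs_mul, abs_of_nonneg (by positivity)]
    have h5 := abs_norm_sub_norm_le (prj w) (prj w')
    have h6 := norm_prj_le w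
    have h7 := norm_prj_le w'
    calc (‖prj w‖ + ‖prj w'‖) * |‖prj w‖ - ‖prj w'‖| ≤ (2 + 2) * ‖w - w'‖ := by
          gcongr
          exact h5.trans h2
      _ = 4 * ‖w - w'‖ := by ring
  have e2 : ψ (z, prj w) - ψ (z', prj w') = (eta ψ (z, prj w) - eta ψ (z', prj w')) +
      (‖prj w‖ ^ 2 - ‖prj w'‖ ^ 2) := by
    simp only [eta]
    ring
  rw [e2]
  refine (abs_add_le _ _).trans ?_
  have h8 : 2 * ε * ‖((z, prj w) : ℂ × ℂ) - (z', prj w')‖ ≤ 1 * (‖z - z'‖ + ‖w - w'‖) := by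
    gcongr
    linarith
  have := norm_nonneg (z - z')
  linarith

end

end Pool.Agent.Helper853.Df
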