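import Pool.Agent.Helper853.Df.Local

open scoped Topology ENNReal ComplexConjugate ContDiff
open MeasureTheory Filter Metric

namespace Pool.Agent.Helper853.Df

lemma fourierCoeff_add' (p q : C(Tc, ℂ)) (m : ℤ) :
    fourierCoeff (p + q : C(Tc, ℂ)) m = fourierCoeff p m + fourierCoeff q m := by
  rw [← coefL_apply, ← coefL_apply, ← coefL_apply, map_add]

section

variable {ψ : ℂ × ℂ → ℝ} {N : Set (ℂ × ℂ)} {ε : ℝ} (H : Nrm ψ N ε) (hε : 0 ≤ ε) (hε4 : ε ≤ 1 / 64)

/-- the coefficients of the disc with centre `c` -/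
noncomputable def aa (c : ℂ) : X (2 * ε) :=
  sol hε (hε4.trans (by norm_num)) (HL_hh H hε) c

/-- the disc with centre `c` -/
noncomputable def ff (c : ℂ) : ℂ → ℂ := FF c (aa H hε hε4 c).1

lemma ff_zero (c : ℂ) : ff H hε hε4 c 0 = c := FF_zero _ _

lemma summable_aa (c : ℂ) : Summable fun n => ‖(aa H hε hε4 c).1 n‖ := sumX hε (aa H hε hε4 c).2

lemma ff_sub_le (c : ℂ) {z : ℂ} (hz : ‖z‖ ≤ 1) : ‖ff H hε hε4 c z - c‖ ≤ 1 / 16 := by
  have h1 := norm_FF_sub_le (c := c) (summable_aa H hε hε4 c) hz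
  have h2 := QQ.tsum_le (C := 2 * ε) (by linarith) (aa H hε hε4 c).2
  unfold ff
  linarith

lemma norm_ff_le {c : ℂ} (hc : ‖c‖ ≤ 1 / 8) {z : ℂ} (hz : ‖z‖ ≤ 1) :
    ‖ff H hε hε4 c z‖ ≤ 3 / 16 := by
  have h1 := ff_sub_le H hε hε4 c hz
  have h2 := norm_sub_norm_le (ff H hε hε4 c z) c
  linarith

lemma continuousOn_ff (c : ℂ) : ContinuousOn (ff H hε hε4 c) (closedBall 0 1) :=
  continuousOn_FF (summable_aa H hε hε4 c)

lemma differentiableOn_ff (c : ℂ) : DifferentiableOn ℂ (ff H hε hε4 c) (ball 0 1) :=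
  differentiableOn_FF (summable_aa H hε hε4 c)

/-- the boundary function -/
noncomputable def bb (c : ℂ) : C(Tc, ℂ) := bd hε c (aa H hε hε4 c)

lemma bb_apply (c : ℂ) (x : Tc) : bb H hε hε4 c x = ff H hε hε4 c (cir x) := rfl

lemma LL_bb (c : ℂ) : LL (bb H hε hε4 c) (2 * ε) :=
  LL_Fc (summable_aa H hε hε4 c) (by linarith) (aa H hε hε4 c).2

/-- the attached derivative is holomorphic -/
lemma exists_G {c : ℂ} (hc : ‖c‖ ≤ 1 / 8) :
    ∃ G : ℂ → ℂ, ContinuousOn G (closedBall 0 1) ∧ DifferentiableOn ℂ G (ball 0 1) ∧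
      ∀ z : ℂ, ‖z‖ = 1 → G z = conj (ff H hε hε4 c z) + hh ψ (z, ff H hε hε4 c z) := by
  set q : C(Tc, ℂ) := cj (bb H hε hε4 c) + nem (HL_hh H hε) (bb H hε hε4 c) with hq
  have hLL : LL q (2 * ε + ε * (1 + 2 * ε)) :=
    (LL_bb H hε hε4 c).cj.add (LL_nem hε (HL_hh H hε) (LL_bb H hε hε4 c))
  have hneg : ∀ n : ℕ, fourierCoeff q (Int.negSucc n) = 0 := by
    intro n
    rw [hq, fourierCoeff_add', fourierCoeff_cj]
    have e2 : -(Int.negSucc n) = ((n + 1 : ℕ) : ℤ) := by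
      rw [Int.neg_negSucc]
    have e3 : fourierCoeff (bb H hε hε4 c) ((n + 1 : ℕ) : ℤ) = (aa H hε hε4 c).1 n :=
      fourierCoeff_Fc (summable_aa H hε hε4 c) _
    have e4 : (aa H hε hε4 c).1 n = neg (nem (HL_hh H hε) (bb H hε hε4 c)) n := by
      have h1 := sol_eq hε (hε4.trans (by norm_num)) (HL_hh H hε) c
      have h2 := Phi_apply hε (hε4.trans (by norm_num)) (HL_hh H hε) c (aa H hε hε4 c) n
      rw [← show Phi hε (hε4.trans (by norm_num)) (HL_hh H hε) c (aa H hε hε4 c) =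
        aa H hε hε4 c from h1]
      exact h2
    rw [e2, e3, e4]
    simp [neg]
  obtain ⟨G, hG1, hG2, hG3⟩ := ext_hol (by nlinarith) hLL hneg
  refine ⟨G, hG1, hG2, ?_⟩
  intro z hz
  obtain ⟨x, rfl⟩ := exists_cir hz
  rw [← hG3]
  have e1 : q x = conj (bb H hε hε4 c x) + hh ψ (cir x, prj (bb H hε hε4 c x)) := rfl
  rw [e1, bb_apply, prj_of_norm_le]
  linarith [norm_ff_le H hε hε4 hc (norm_cir x).le]

/-- the values on the boundary are real parts of a holomorphic function -/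
lemma exists_K {c : ℂ} (hc : ‖c‖ ≤ 1 / 8) :
    ∃ K : ℂ → ℂ, ContinuousOn K (closedBall 0 1) ∧ DifferentiableOn ℂ K (ball 0 1) ∧
      ∀ z : ℂ, ‖z‖ = 1 → (K z).re = ψ (z, ff H hε hε4 c z) := by
  have hLL := LL_nem (by norm_num) (HL_psi H hε hε4) (LL_bb H hε hε4 c)
  obtain ⟨K, hK1, hK2, hK3⟩ := ext_re (by nlinarith) hLL
  refine ⟨K, hK1, hK2, ?_⟩
  intro z hz
  obtain ⟨x, rfl⟩ := exists_cir hz
  rw [← hK3]
  have e1 : (nem (HL_psi H hε hε4) (bb H hε hε4 c) x).re = ψ (cir x, prj (bb H hε hε4 c x)) := by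
    rw [nem_apply, Complex.ofReal_re]
  rw [e1, bb_apply, prj_of_norm_le]
  linarith [norm_ff_le H hε hε4 hc (norm_cir x).le]

include H hε hε4 in
lemma abs_eta_le {x : ℂ × ℂ} (hx : x ∈ Pd) : |eta ψ x| ≤ 1 / 16 := by
  have h1 := eta_sub_le H hε hx zero_mem_Pd
  have h2 : eta ψ 0 = 0 := by simp [eta, H.v0]
  rw [h2, sub_zero, sub_zero] at h1
  have := norm_le_of_mem hx
  nlinarith

/-- the main local theorem -/
theorem local_main {c : ℂ} (hc : ‖c‖ ≤ 1 / 8) : ∃ L : ℂ × ℂ → ℂ, ContinuousOn L Pd ∧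
    ContDiffOn ℂ ∞ L {x : ℂ × ℂ | ‖x.1‖ < 1 ∧ ‖x.2‖ < 2} ∧
    (∀ x ∈ Pd, (L x).re ≤ ψ x) ∧
    (∀ z, ‖z‖ ≤ 1 → ψ (z, ff H hε hε4 c z) = (L (z, ff H hε hε4 c z)).re) ∧
    (∀ x ∈ Pd, ψ x = (L x).re → x.2 = ff H hε hε4 c x.1) := by
  obtain ⟨G, hG1, hG2, hG3⟩ := exists_G H hε hε4 hc
  obtain ⟨K, hK1, hK2, hK3⟩ := exists_K H hε hε4 hc
  set f := ff H hε hε4 c with hf
  have hfb : ∀ z : ℂ, ‖z‖ ≤ 1 → ‖f z‖ ≤ 3 / 16 := fun z hz => norm_ff_le H hε hε4 hc hz
  have hfP : ∀ z : ℂ, ‖z‖ ≤ 1 → (z, f z) ∈ Pd := fun z hz => ⟨hz, by linarith [hfb z hz]⟩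
  set L : ℂ × ℂ → ℂ := fun x => K x.1 + 2 * (G x.1 * (x.2 - f x.1)) with hL
  have hmaps : Set.MapsTo (fun x : ℂ × ℂ => x.1) Pd (closedBall 0 1) := fun x hx =>
    mem_closedBall_zero_iff.mpr hx.1
  have hmaps2 : Set.MapsTo (fun x : ℂ × ℂ => x.1) {x : ℂ × ℂ | ‖x.1‖ < 1 ∧ ‖x.2‖ < 2}
      (ball 0 1) := fun x hx => mem_ball_zero_iff.mpr hx.1
  have hLc : ContinuousOn L Pd := by
    have k1 := hK1.comp continuousOn_fst hmaps
    have k2 := hG1.comp continuousOn_fst hmaps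
    have k3 := (continuousOn_ff H hε hε4 c).comp continuousOn_fst hmaps
    exact k1.add (continuousOn_const.mul (k2.mul (continuousOn_snd.sub k3)))
  have hLd : ContDiffOn ℂ ∞ L {x : ℂ × ℂ | ‖x.1‖ < 1 ∧ ‖x.2‖ < 2} := by
    have k1 := (hK2.contDiffOn (n := ∞) isOpen_ball).comp contDiffOn_fst hmaps2
    have k2 := (hG2.contDiffOn (n := ∞) isOpen_ball).comp contDiffOn_fst hmaps2
    have k3 := ((differentiableOn_ff H hε hε4 c).contDiffOn (n := ∞) isOpen_ball).comp
      contDiffOn_fst hmaps2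
    exact k1.add (contDiffOn_const.mul (k2.mul (contDiffOn_snd.sub k3)))
  -- bounds
  have hKb : ∀ z : ℂ, ‖z‖ ≤ 1 → (K z).re ≤ 1 / 8 := by
    intro z hz
    apply re_le_of_sphere hK1 hK2 _ hz
    intro z hz
    rw [hK3 z hz]
    have h1 := (abs_le.mp (abs_eta_le H hε hε4 (hfP z hz.le))).2
    have h2 := hfb z hz.le
    simp only [eta] at h1
    have h3 := norm_nonneg (f z)
    nlinarith
  have hGb : ∀ z : ℂ, ‖z‖ ≤ 1 → ‖G z‖ ≤ 9 / 32 := by
    intro z hz
    have hdc : DiffContOnCl ℂ G (ball 0 1) := ⟨hG2, by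
      rw [closure_ball _ one_ne_zero]
      exact hG1⟩
    apply Complex.norm_le_of_forall_mem_frontier_norm_le isBounded_ball hdc
    · intro y hy
      rw [frontier_ball _ one_ne_zero, mem_sphere_zero_iff_norm] at hy
      rw [hG3 y hy]
      refine (norm_add_le _ _).trans ?_
      rw [RCLike.norm_conj]
      have h1 := hfb y hy.le
      have h2 := hh_le H hε (hfP y hy.le)
      linarith
    · rw [closure_ball _ one_ne_zero]
      exact mem_closedBall_zero_iff.mpr hz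
  -- boundary values
  have hbd : ∀ x ∈ Pd, ‖x.1‖ = 1 ∨ ‖x.2‖ = 2 → (L x).re ≤ ψ x := by
    rintro ⟨z, w⟩ ⟨hz, hw⟩ hor
    simp only at hz hw hor
    have e1 : (L (z, w)).re = (K z).re + 2 * (G z * (w - f z)).re := by
      simp only [hL, Complex.add_re]
      congr 1
      simp
    rw [e1]
    rcases hor with h1 | h1
    · rw [hK3 z h1, hG3 z h1]
      have h2 := strict H hε (z := z) (w₁ := f z) (w₂ := w) hz (by linarith [hfb z hz]) hw
      have h3 : 0 ≤ (1 - ε) * ‖w - f z‖ ^ 2 := by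
        have : 0 ≤ 1 - ε := by linarith
        positivity
      linarith
    · have h2 := hKb z hz
      have h3 : (G z * (w - f z)).re ≤ 9 / 32 * (2 + 3 / 16) := by
        refine (Complex.re_le_norm _).trans ?_
        rw [norm_mul]
        have h4 := norm_sub_le w (f z)
        have h5 := hfb z hz
        have h6 := hGb z hz
        gcongr
        linarith
      have h4 := (abs_le.mp (abs_eta_le H hε hε4 (x := (z, w)) ⟨hz, hw⟩)).1
      simp only [eta] at h4
      rw [h1] at h4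
      linarith
  -- comparison
  have hcmp : ∀ x ∈ Pd, (L x).re ≤ ψ x := by
    intro x hx
    apply le_of_forall_pos_le_add
    intro δ hδ
    have h1 := H.mx (fun x => L x - (δ : ℂ)) (hLc.sub continuousOn_const)
      (hLd.sub contDiffOn_const)
      (fun y hy hor => by
        have := hbd y hy hor
        rw [Complex.sub_re, Complex.ofReal_re]
        linarith) x hx
    rw [Complex.sub_re, Complex.ofReal_re] at h1
    linarith
  have hLf : ∀ z : ℂ, L (z, f z) = K z := by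
    intro z
    simp [hL]
  -- equality on the disc
  have heq : ∀ z, ‖z‖ ≤ 1 → ψ (z, f z) = (L (z, f z)).re := by
    intro z hz
    apply le_antisymm _ (hcmp _ (hfP z hz))
    rw [hLf]
    have hψc : ContinuousOn ψ Pd := H.cd.continuousOn.mono H.sub
    have hgc : ContinuousOn (fun z : ℂ => (z, f z)) (closedBall 0 1) :=
      continuousOn_id.prodMk (continuousOn_ff H hε hε4 c)
    have hmc : ContinuousOn (fun z => ψ (z, f z) + -(K z).re) (closedBall 0 1) :=
      (hψc.comp hgc (fun z hz => hfP z (mem_closedBall_zero_iff.mp hz))).add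
        (Complex.continuous_re.comp_continuousOn hK1).neg
    have := max_principle hmc (fun z hz => by rw [hK3 z hz]; simp [hf]) (fun z hz => by
      have hfev : ∀ᶠ y in 𝓝 z, DifferentiableAt ℂ (fun y : ℂ => (y, f y)) y := by
        filter_upwards [isOpen_ball.mem_nhds (mem_ball_zero_iff.mpr hz)] with y hy
        exact differentiableAt_id.prodMk
          ((differentiableOn_ff H hε hε4 c).differentiableAt (isOpen_ball.mem_nhds hy))
      have hKev : ∀ᶠ y in 𝓝 z, DifferentiableAt ℂ K y := by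
        filter_upwards [isOpen_ball.mem_nhds (mem_ball_zero_iff.mpr hz)] with y hy
        exact hK2.differentiableAt (isOpen_ball.mem_nhds hy)
      have hψ2 : ContDiffAt ℝ 2 ψ ((fun y : ℂ => (y, f y)) z) :=
        H.cd.contDiffAt (H.isOpen.mem_nhds (H.sub (hfP z hz.le)))
      have hre : ContDiffAt ℝ 2 (fun y : ℂ => y.re) (K z) := Complex.reCLM.contDiff.contDiffAt
      have k1 := (SD_comp (γ := fun y : ℂ => (y, f y)) hψ2 hfev 1).add
        (SD_comp (γ := K) hre hKev 1).neg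
      have k2 := (SD_comp (γ := fun y : ℂ => (y, f y)) hψ2 hfev Complex.I).add
        (SD_comp (γ := K) hre hKev Complex.I).neg
      refine ⟨_, _, k1, k2, ?_⟩
      have hf' : fderiv ℝ (fun y : ℂ => y.re) = fun _ => Complex.reCLM := by
        ext1 y
        exact Complex.reCLM.fderiv
      have hf2 : fderiv ℝ (fun _ : ℂ => Complex.reCLM) (K z) = 0 :=
        (hasFDerivAt_const Complex.reCLM (K z)).fderiv
      rw [hf', hf2]
      have hlev := H.lev _ (H.sub (hfP z hz.le)) (deriv (fun y : ℂ => (y, f y)) z)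
      simp only [_root_.zero_apply, one_smul, one_pow, Complex.I_sq, neg_smul, map_neg]
      linarith) hz
    linarith
  refine ⟨L, hLc, hLd, hcmp, heq, ?_⟩
  rintro ⟨z, w⟩ ⟨hz, hw⟩ h1
  simp only at hz hw h1 ⊢
  -- uniqueness of the contact point
  set m : ℂ := (w + f z) / 2 with hm
  have hmn : ‖m‖ ≤ 2 := by
    rw [hm, norm_div]
    have := norm_add_le w (f z)
    have := hfb z hz
    simp only [Complex.norm_ofNat]
    linarith
  have s1 := strict H hε (z := z) (w₁ := m) (w₂ := w) hz hmn hw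
  have s2 := strict H hε (z := z) (w₁ := m) (w₂ := f z) hz hmn (by linarith [hfb z hz])
  have d1 : w - m = (w - f z) / 2 := by rw [hm]; ring
  have d2 : f z - m = -((w - f z) / 2) := by rw [hm]; ring
  rw [d1] at s1
  rw [d2, norm_neg, mul_neg, Complex.neg_re] at s2
  have c1 := hcmp (z, m) ⟨hz, hmn⟩
  have c2 := heq z hz
  have e1 : ∀ y : ℂ, (L (z, y)).re = (K z).re + 2 * (G z * (y - f z)).re := by
    intro y
    simp only [hL, Complex.add_re]
    congr 1
    simp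
  rw [e1] at c1 h1 c2
  have e2 : G z * (m - f z) = (G z * (w - f z)) / 2 := by
    rw [hm]
    ring
  have e3 : ((G z * (w - f z)) / 2).re = (G z * (w - f z)).re / 2 := by
    simp
  rw [e2, e3] at c1
  rw [sub_self, mul_zero, Complex.zero_re] at c2
  have h5 : (1 - ε) * ‖(w - f z) / 2‖ ^ 2 ≤ 0 := by linarith
  have h6 : ‖(w - f z) / 2‖ ^ 2 ≤ 0 := by
    by_contra hcon
    push Not at hcon
    have : 0 < 1 - ε := by linarith
    have := mul_pos this hcon
    linarith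
  have h7 : (w - f z) / 2 = 0 := by
    have : ‖(w - f z) / 2‖ = 0 := by
      have := norm_nonneg ((w - f z) / 2)
      nlinarith
    exact norm_eq_zero.mp this
  have h8 : w - f z = 0 := by
    have : w - f z = 2 * ((w - f z) / 2) := by ring
    rw [this, h7, mul_zero]
  exact sub_eq_zero.mp h8

end

end Pool.Agent.Helper853.Df
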