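import Pool.Agent.Helper853.Df.Touch

open scoped Topology ContDiff ComplexOrder ENNReal ComplexConjugate
open MeasureTheory Filter Metric

namespace Pool.Agent.Helper853.Df

/-- Euclidean norm squared -/
noncomputable def eu (x : C2) : ℝ := ‖x 0‖ ^ 2 + ‖x 1‖ ^ 2

lemma contDiff_proj (i : Fin 2) : ContDiff ℂ ∞ fun x : C2 => x i := contDiff_apply ℂ ℂ i

lemma contDiff_eu : ContDiff ℝ ∞ eu :=
  (contDiff_normSq (contDiff_proj 0)).add (contDiff_normSq (contDiff_proj 1))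

lemma fderiv_proj (i : Fin 2) (x b : C2) : fderiv ℝ (fun x : C2 => x i) x b = b i := by
  have h : HasFDerivAt (fun x : C2 => x i) (ContinuousLinearMap.proj (R := ℝ) i) x :=
    (ContinuousLinearMap.proj (R := ℝ) (φ := fun _ : Fin 2 => ℂ) i).hasFDerivAt
  rw [h.fderiv]
  rfl

lemma lap2_eu (x b : C2) : lap2 eu x b = 4 * eu b := by
  have h := lap2_add (u := fun y : C2 => ‖y 0‖ ^ 2) (v := fun y : C2 => ‖y 1‖ ^ 2) (x := x)
    ((contDiff_normSq (contDiff_proj 0)).of_le ENat.LEInfty.out).contDiffAt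
    ((contDiff_normSq (contDiff_proj 1)).of_le ENat.LEInfty.out).contDiffAt b
  rw [lap2_normSq (contDiff_proj 0), lap2_normSq (contDiff_proj 1), fderiv_proj, fderiv_proj] at h
  have e : lap2 eu x b = lap2 (fun y : C2 => ‖y 0‖ ^ 2 + ‖y 1‖ ^ 2) x b := rfl
  rw [e, h]
  unfold eu
  ring

lemma eu_pos {b : C2} (hb : b ≠ 0) : 0 < eu b := by
  unfold eu
  by_contra h
  push Not at h
  apply hb
  have h0 : ‖b 0‖ ^ 2 = 0 := by nlinarith [sq_nonneg ‖b 0‖, sq_nonneg ‖b 1‖]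
  have h1 : ‖b 1‖ ^ 2 = 0 := by nlinarith [sq_nonneg ‖b 0‖, sq_nonneg ‖b 1‖]
  funext i
  fin_cases i
  · simpa using h0
  · simpa using h1

lemma eu_nonneg (b : C2) : 0 ≤ eu b := by unfold eu; positivity

lemma eu_le (b : C2) : eu b ≤ 2 * ‖b‖ ^ 2 := by
  unfold eu
  have h0 := norm_le_pi_norm b 0
  have h1 := norm_le_pi_norm b 1
  have h2 := norm_nonneg (b 0)
  have h3 := norm_nonneg (b 1)
  nlinarith

/-- A function with degenerate Levi form at every point of a bounded open set is maximal. -/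
theorem maximal_of_degenerate {Ω : Set C2} (hΩ : IsOpen Ω) {R : ℝ} (hR : Ω ⊆ ball 0 R)
    {φ : C2 → ℝ} (hφ : ContDiffOn ℝ 2 φ Ω)
    (hdeg : ∀ x ∈ Ω, ∃ b : C2, b ≠ 0 ∧ lap2 φ x b ≤ 0) : IsMaximalOn Ω φ := by
  rintro v hv ⟨K, hK, hKΩ, hle⟩ z hz
  by_contra hcon
  push Not at hcon
  have hRpos : 0 < R := by
    have := hR hz
    rw [mem_ball_zero_iff] at this
    exact (norm_nonneg z).trans_lt this
  have hz_top : v z ≠ ⊤ := hv.2.1 z hz
  have hz_bot : v z ≠ ⊥ := fun h => by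
    rw [h] at hcon
    exact absurd hcon (by simp)
  set vz := (v z).toReal with hvz
  have hvzc : v z = (vz : EReal) := (EReal.coe_toReal hz_top hz_bot).symm
  rw [hvzc, EReal.coe_lt_coe_iff] at hcon
  have hzK : z ∈ K := by
    by_contra h
    have := hle z ⟨hz, h⟩
    rw [hvzc, EReal.coe_le_coe_iff] at this
    linarith
  set δ : ℝ := (vz - φ z) / (4 * R ^ 2) with hδ
  have hδpos : 0 < δ := by
    have : 0 < vz - φ z := by linarith
    positivity
  have hδR : ∀ y ∈ Ω, δ * eu y < vz - φ z := by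
    intro y hy
    have h1 := hR hy
    rw [mem_ball_zero_iff] at h1
    have h2 := eu_le y
    have h3 : ‖y‖ ^ 2 ≤ R ^ 2 := by gcongr
    calc δ * eu y ≤ δ * (2 * R ^ 2) := by
          gcongr
          linarith
      _ = (vz - φ z) / 2 := by
        rw [hδ]
        field_simp
        ring
      _ < vz - φ z := by linarith
  set g : C2 → ℝ := fun x => δ * eu x - φ x with hg
  have hgc : ContinuousOn g K := (continuousOn_const.mul contDiff_eu.continuous.continuousOn).sub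
    (hφ.continuousOn.mono hKΩ)
  have husc : UpperSemicontinuousOn (fun x => v x + ((g x : ℝ) : EReal)) K := by
    apply UpperSemicontinuousOn.add' (hv.2.2.1.mono hKΩ)
    · exact (continuous_coe_real_ereal.comp_continuousOn hgc).upperSemicontinuousOn
    · intro x _
      exact EReal.continuousAt_add (Or.inr (EReal.coe_ne_bot _)) (Or.inr (EReal.coe_ne_top _))
  obtain ⟨x₁, hx₁, hmax⟩ := UpperSemicontinuousOn.exists_isMaxOn ⟨z, hzK⟩ hK husc
  have h0 : v z + ((g z : ℝ) : EReal) ≤ v x₁ + ((g x₁ : ℝ) : EReal) := hmax hzK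
  have h1_top : v x₁ ≠ ⊤ := hv.2.1 x₁ (hKΩ hx₁)
  have h1_bot : v x₁ ≠ ⊥ := fun h => by
    rw [hvzc, h, EReal.bot_add, le_bot_iff, ← EReal.coe_add] at h0
    exact EReal.coe_ne_bot _ h0
  set w := (v x₁).toReal with hw
  have hwc : v x₁ = (w : EReal) := (EReal.coe_toReal h1_top h1_bot).symm
  have h0' : vz + g z ≤ w + g x₁ := by
    rw [hvzc, hwc, ← EReal.coe_add, ← EReal.coe_add, EReal.coe_le_coe_iff] at h0
    exact h0
  have hall : ∀ y ∈ Ω, v y ≤ ((w + g x₁ - g y : ℝ) : EReal) := by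
    intro y hy
    by_cases hyK : y ∈ K
    · have h2 : v y + ((g y : ℝ) : EReal) ≤ v x₁ + ((g x₁ : ℝ) : EReal) := hmax hyK
      by_cases hyb : v y = ⊥
      · rw [hyb]
        exact bot_le
      · have hyc : v y = ((v y).toReal : EReal) := (EReal.coe_toReal (hv.2.1 y hy) hyb).symm
        rw [hyc, hwc, ← EReal.coe_add, ← EReal.coe_add, EReal.coe_le_coe_iff] at h2
        rw [hyc, EReal.coe_le_coe_iff]
        linarith
    · refine (hle y ⟨hy, hyK⟩).trans ?_
      rw [EReal.coe_le_coe_iff]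
      have h2 := hδR y hy
      have h3 : 0 ≤ δ * eu z := mul_nonneg hδpos.le (eu_nonneg z)
      simp only [hg] at h0' ⊢
      linarith
  obtain ⟨b, hb, hb0⟩ := hdeg x₁ (hKΩ hx₁)
  have hφc : ContDiffAt ℝ 2 φ x₁ := hφ.contDiffAt (hΩ.mem_nhds (hKΩ hx₁))
  have heuc : ContDiffAt ℝ 2 eu x₁ := (contDiff_eu.of_le ENat.LEInfty.out).contDiffAt
  have e : (fun y => w + g x₁ - g y) = fun y => (φ y + (-δ) * eu y) + (w + g x₁) := by
    funext y
    simp only [hg]
    ring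
  have h5 := touch_above hΩ hv (m := fun y => w + g x₁ - g y) (hKΩ hx₁) (by
      rw [e]
      exact (hφc.add (contDiffAt_const.mul heuc)).add contDiffAt_const) (by
      filter_upwards [hΩ.mem_nhds (hKΩ hx₁)] with y hy
      exact hall y hy) (by
      rw [hwc]
      congr 1
      ring) b
  rw [e, lap2_add_const, lap2_add hφc (contDiffAt_const.mul heuc), lap2_const_mul heuc,
    lap2_eu] at h5
  have h6 := eu_pos hb
  have h7 : 0 < δ * (4 * eu b) := by positivity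
  linarith

/-- Uniform limits of functions with degenerate Levi form are maximal. -/
theorem maximal_of_approx {Ω : Set C2} (hΩ : IsOpen Ω) {R : ℝ} (hR : Ω ⊆ ball 0 R)
    {φ : C2 → ℝ} (h : ∀ δ : ℝ, 0 < δ → ∃ ψ : C2 → ℝ, ContDiffOn ℝ 2 ψ Ω ∧
      (∀ x ∈ Ω, ∃ b : C2, b ≠ 0 ∧ lap2 ψ x b ≤ 0) ∧ ∀ x ∈ Ω, ψ x ≤ φ x ∧ φ x ≤ ψ x + δ) :
    IsMaximalOn Ω φ := by
  rintro v hv ⟨K, hK, hKΩ, hle⟩ z hz
  have key : ∀ δ : ℝ, 0 < δ → v z ≤ ((φ z + δ : ℝ) : EReal) := by
    intro δ hδ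
    obtain ⟨ψ, h1, h2, h3⟩ := h δ hδ
    have hm : IsMaximalOn Ω fun x => ψ x + δ := by
      refine maximal_of_degenerate hΩ hR (h1.add contDiffOn_const) ?_
      intro x hx
      obtain ⟨b, hb, hb0⟩ := h2 x hx
      exact ⟨b, hb, by rw [lap2_add_const]; exact hb0⟩
    have h4 := hm v hv ⟨K, hK, hKΩ, fun y hy => (hle y hy).trans (by
      rw [EReal.coe_le_coe_iff]
      exact (h3 y hy.1).2)⟩ z hz
    refine h4.trans ?_
    rw [EReal.coe_le_coe_iff]
    linarith [(h3 z hz).1]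
  by_cases hb : v z = ⊥
  · rw [hb]
    exact bot_le
  · have hc : v z = ((v z).toReal : EReal) := (EReal.coe_toReal (hv.2.1 z hz) hb).symm
    rw [hc, EReal.coe_le_coe_iff]
    apply le_of_forall_pos_le_add
    intro δ hδ
    have := key δ hδ
    rwa [hc, EReal.coe_le_coe_iff] at this

/-- Uniform limits from below of psh functions are psh. -/
theorem isPshOn_of_approx {Ω : Set C2} (hne : Ω.Nonempty)
    {φ : C2 → ℝ} (hφ : ContinuousOn φ Ω) (h : ∀ δ : ℝ, 0 < δ → ∃ ψ : C2 → ℝ,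
      ContDiff ℝ 2 ψ ∧ (∀ x ∈ Ω, ∀ b : C2, 0 ≤ lap2 ψ x b) ∧
        ∀ x ∈ Ω, ψ x ≤ φ x ∧ φ x ≤ ψ x + δ) :
    IsPshOn Ω fun x => (φ x : EReal) := by
  refine ⟨?_, fun z _ => EReal.coe_ne_top _, ?_, ?_⟩
  · obtain ⟨z, hz⟩ := hne
    exact ⟨z, hz, EReal.coe_ne_bot _⟩
  · exact (continuous_coe_real_ereal.comp_continuousOn hφ).upperSemicontinuousOn
  intro a b M hab
  rw [EReal.coe_le_coe_iff]
  apply le_of_forall_pos_le_add
  intro δ hδ
  obtain ⟨ψ, h1, h2, h3⟩ := h δ hδ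
  have hψ : IsPshOn Ω fun x => (ψ x : EReal) := isPshOn_of_touch hne h1.continuous.continuousOn
    (fun x hx b => ⟨ψ, h1.contDiffAt, Filter.Eventually.of_forall fun _ => le_rfl, rfl,
      h2 x hx b⟩)
  have h4 := hψ.2.2.2 a b M hab
  rw [EReal.coe_le_coe_iff] at h4
  have ha : a ∈ Ω := by simpa using hab 0 (by simp)
  have hpi : (0 : ℝ) < 2 * Real.pi := by positivity
  have hcirc : ∀ θ : ℝ, a + Complex.exp (θ * Complex.I) • b ∈ Ω := fun θ =>
    hab _ (by rw [Complex.norm_exp_ofReal_mul_I])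
  have hc1 : Continuous fun θ : ℝ => max (ψ (a + Complex.exp (θ * Complex.I) • b)) M :=
    (h1.continuous.comp (continuous_circ a b)).max continuous_const
  have hc2 : Continuous fun θ : ℝ => max (φ (a + Complex.exp (θ * Complex.I) • b)) M :=
    (hφ.comp_continuous (continuous_circ a b) hcirc).max continuous_const
  have h5 : ∫ θ in (0 : ℝ)..(2 * Real.pi),
      (max ((ψ (a + Complex.exp (θ * Complex.I) • b) : ℝ) : EReal) (M : EReal)).toReal ≤
      ∫ θ in (0 : ℝ)..(2 * Real.pi),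
      (max ((φ (a + Complex.exp (θ * Complex.I) • b) : ℝ) : EReal) (M : EReal)).toReal := by
    simp_rw [coe_max', EReal.toReal_coe]
    apply intervalIntegral.integral_mono_on hpi.le (hc1.intervalIntegrable _ _)
      (hc2.intervalIntegrable _ _)
    intro θ _
    exact max_le_max (h3 _ (hcirc θ)).1 le_rfl
  have h6 := mul_le_mul_of_nonneg_left h5 (inv_nonneg.mpr hpi.le)
  linarith [(h3 a ha).2]

end Pool.Agent.Helper853.Df
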