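import Pool.Agent.Helper853.Df.Wer

open scoped Topology ContDiff ComplexOrder ENNReal ComplexConjugate
open MeasureTheory Filter Metric

namespace Pool.Agent.Helper853.Df

variable (p : ℕ → ℂ)

lemma ep_le_one (k : ℕ) : ep p k ≤ 1 := by
  have h1 := al_le_quarter p k
  have h2 := al_pos p k
  unfold ep
  rw [div_le_one (by positivity)]
  nlinarith [norm_nonneg (p k)]

/-- a dense sequence visits each nonempty open set at arbitrarily late times -/
lemma late_visit (hp : Dense (Set.range p)) {V : Set ℂ} (hV : IsOpen V) (hne : V.Nonempty)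
    (N : ℕ) : ∃ k, N ≤ k ∧ p k ∈ V := by
  have hfin : (p '' Set.Iio N).Finite := (Set.finite_Iio N).image p
  have hV' : IsOpen (V \ (p '' Set.Iio N)) := hV.sdiff hfin.isClosed
  have hne' : (V \ (p '' Set.Iio N)).Nonempty := by
    by_contra hcon
    rw [Set.not_nonempty_iff_eq_empty, Set.sdiff_eq_empty] at hcon
    obtain ⟨x, hx⟩ := hne
    have h1 : V.Infinite := infinite_of_mem_nhds x (hV.mem_nhds hx)
    exact h1 (hfin.subset hcon)
  obtain ⟨y, ⟨k, rfl⟩, hy⟩ := hp.exists_mem_open hV' hne'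
  refine ⟨k, ?_, hy.1⟩
  by_contra hcon
  push Not at hcon
  exact hy.2 ⟨k, hcon, rfl⟩

lemma norm_le_half {x : C2} (hx : x ∈ EE p) (k : ℕ) : ‖hk p k x‖ ≤ 1 / 2 := by
  apply le_of_sq_le_sq _ (by positivity)
  have := hx k
  have := al_le_quarter p k
  norm_num
  linarith

/-- the compact set `EE` contains no nonconstant holomorphic disc -/
theorem no_disc (hp : Dense (Set.range p)) {γ : ℂ → C2} {ζ₀ : ℂ} {ρ : ℝ} (hρ : 0 < ρ)
    (hγ : DifferentiableOn ℂ γ (ball ζ₀ ρ)) (hE : ∀ ζ ∈ ball ζ₀ ρ, γ ζ ∈ EE p) :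
    ∀ ζ ∈ ball ζ₀ ρ, γ ζ = γ ζ₀ := by
  have hc0 : ζ₀ ∈ ball ζ₀ ρ := mem_ball_self hρ
  have hpre : IsPreconnected (ball ζ₀ ρ) := (convex_ball ζ₀ ρ).isPreconnected
  have hZ : ∀ i : Fin 2, DifferentiableOn ℂ (fun ζ => γ ζ i) (ball ζ₀ ρ) := fun i =>
    differentiableOn_pi.mp hγ i
  have hH : ∀ k, DifferentiableOn ℂ (fun ζ => hk p k (γ ζ)) (ball ζ₀ ρ) := fun k =>
    ((contDiff_hk p k).differentiable (by simp)).comp_differentiableOn hγ
  by_cases hA : ∀ ζ ∈ ball ζ₀ ρ, deriv (fun ζ => γ ζ 0) ζ = 0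
  · -- the first coordinate is constant
    have hconst : ∀ ζ ∈ ball ζ₀ ρ, γ ζ 0 = γ ζ₀ 0 := by
      intro ζ hζ
      exact isOpen_ball.is_const_of_deriv_eq_zero hpre (hZ 0) (fun y hy => hA y hy) hζ hc0
    rcases ((hZ 1).analyticOnNhd isOpen_ball).is_constant_or_isOpen hpre with ⟨w, hw⟩ | hopen
    · intro ζ hζ
      funext i
      fin_cases i
      · exact hconst ζ hζ
      · exact (hw ζ hζ).trans (hw ζ₀ hc0).symm
    · exfalso
      have h1 := hopen (ball ζ₀ ρ) subset_rfl isOpen_ball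
      obtain ⟨δ, hδ, hsub⟩ := Metric.isOpen_iff.mp h1 (γ ζ₀ 1) ⟨ζ₀, hc0, rfl⟩
      apply no_vertical p (z := γ ζ₀ 0) hδ
      intro w hw
      obtain ⟨ζ, hζ, hζw⟩ := hsub hw
      have e : (![γ ζ₀ 0, w] : C2) = γ ζ := by
        funext i
        fin_cases i
        · exact (hconst ζ hζ).symm
        · exact hζw.symm
      rw [e]
      exact hE ζ hζ
  · exfalso
    push Not at hA
    obtain ⟨ζ₁, hζ₁, hd⟩ := hA
    set Z : ℂ → ℂ := fun ζ => γ ζ 0 with hZdef
    set c : ℝ := ‖deriv Z ζ₁‖ / 2 with hc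
    have hcpos : 0 < c := by
      have := norm_pos_iff.mpr hd
      positivity
    have hZan : AnalyticOnNhd ℂ Z (ball ζ₀ ρ) := (hZ 0).analyticOnNhd isOpen_ball
    have hdc : ContinuousAt (fun ζ => ‖deriv Z ζ‖) ζ₁ := ((hZan ζ₁ hζ₁).deriv.continuousAt).norm
    have hev : ∀ᶠ ζ in 𝓝 ζ₁, ζ ∈ ball ζ₀ ρ ∧ c < ‖deriv Z ζ‖ := by
      refine Filter.Eventually.and (isOpen_ball.mem_nhds hζ₁) ?_
      apply hdc.eventually_const_lt
      rw [hc]
      have := norm_pos_iff.mpr hd
      linarith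
    obtain ⟨δ', hδ', hball⟩ := Metric.eventually_nhds_iff_ball.mp hev
    set δ : ℝ := δ' / 2 with hδ
    have hδpos : 0 < δ := by positivity
    have hVopen : IsOpen (Z '' ball ζ₁ δ) := by
      rcases hZan.is_constant_or_isOpen hpre with ⟨w, hw⟩ | hopen
      · exfalso
        apply hd
        have : Z =ᶠ[𝓝 ζ₁] fun _ => w := by
          filter_upwards [isOpen_ball.mem_nhds hζ₁] with y hy
          exact hw y hy
        rw [this.deriv_eq]
        simp
      · apply hopen _ _ isOpen_ball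
        intro y hy
        exact (hball y (ball_subset_ball (by linarith) hy)).1
    obtain ⟨N, hN⟩ := exists_nat_gt (4 / (c * δ))
    obtain ⟨k, hkN, ζ, hζ, hζp⟩ := late_visit p hp hVopen
      ⟨Z ζ₁, ζ₁, mem_ball_self hδpos, rfl⟩ N
    have hcl : closedBall ζ (δ / 2) ⊆ ball ζ₁ δ' := by
      intro y hy
      rw [mem_closedBall] at hy
      rw [mem_ball] at hζ ⊢
      have := dist_triangle y ζ ζ₁
      linarith
    have hcl' : closedBall ζ (δ / 2) ⊆ ball ζ₀ ρ := fun y hy => (hball y (hcl hy)).1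
    have hζmem : ζ ∈ ball ζ₀ ρ := hcl' (mem_closedBall_self (by positivity))
    have hζd : c < ‖deriv Z ζ‖ := (hball ζ (hcl (mem_closedBall_self (by positivity)))).2
    set r : ℝ := ep p k / (k + 1) with hr
    have hepos := ep_pos p k
    have hrpos : 0 < r := by positivity
    have hr1 : r ≤ 1 := by
      rw [hr, div_le_one (by positivity)]
      have := ep_le_one p k
      have : (0 : ℝ) ≤ k := by positivity
      linarith
    -- Cauchy estimates
    have hC0 : ‖deriv (fun ζ => hk p k (γ ζ)) ζ‖ ≤ (1 / 2) / (δ / 2) := by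
      apply Complex.norm_deriv_le_of_forall_mem_sphere_norm_le (by positivity)
      · refine ⟨(hH k).mono (ball_subset_closedBall.trans hcl'), ?_⟩
        rw [closure_ball _ (by positivity : δ / 2 ≠ 0)]
        exact (hH k).continuousOn.mono hcl'
      · intro y hy
        exact norm_le_half p (hE y (hcl' (sphere_subset_closedBall hy))) k
    have hsmall : ∀ x ∈ EE p, ‖hk p (k + 1) x‖ ≤ r ^ 2 := by
      intro x hx
      apply le_of_sq_le_sq _ (by positivity)
      calc ‖hk p (k + 1) x‖ ^ 2 ≤ al p (k + 1) := hx (k + 1)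
        _ ≤ r ^ 4 := al_succ_le' p k
        _ = (r ^ 2) ^ 2 := by ring
    have hC1 : ‖deriv (fun ζ => hk p (k + 1) (γ ζ)) ζ‖ ≤ r ^ 2 / (δ / 2) := by
      apply Complex.norm_deriv_le_of_forall_mem_sphere_norm_le (by positivity)
      · refine ⟨(hH (k + 1)).mono (ball_subset_closedBall.trans hcl'), ?_⟩
        rw [closure_ball _ (by positivity : δ / 2 ≠ 0)]
        exact (hH (k + 1)).continuousOn.mono hcl'
      · intro y hy
        exact hsmall _ (hE y (hcl' (sphere_subset_closedBall hy)))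
    have hval : ‖hk p k (γ ζ)‖ ≤ r := by
      have h1 := hsmall _ (hE ζ hζmem)
      have h2 : hk p (k + 1) (γ ζ) = (hk p k (γ ζ)) ^ 2 := by
        have h3 : γ ζ 0 - p k = 0 := by
          rw [← hζp]
          simp [hZdef]
        change (hk p k (γ ζ)) ^ 2 - (ep p k : ℂ) * (γ ζ 0 - p k) = _
        rw [h3, mul_zero, sub_zero]
      rw [h2, norm_pow] at h1
      exact le_of_sq_le_sq h1 hrpos.le
    -- derivative of the recursion
    have hd1 : HasDerivAt (fun ζ => hk p (k + 1) (γ ζ))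
        (2 * hk p k (γ ζ) * deriv (fun ζ => hk p k (γ ζ)) ζ - (ep p k : ℂ) * deriv Z ζ) ζ := by
      have h1 : HasDerivAt (fun ζ => hk p k (γ ζ)) (deriv (fun ζ => hk p k (γ ζ)) ζ) ζ :=
        ((hH k).differentiableAt (isOpen_ball.mem_nhds hζmem)).hasDerivAt
      have h2 : HasDerivAt Z (deriv Z ζ) ζ :=
        ((hZ 0).differentiableAt (isOpen_ball.mem_nhds hζmem)).hasDerivAt
      have h3 := (h1.pow 2).sub ((h2.sub_const (p k)).const_mul (ep p k : ℂ))
      refine h3.congr_deriv ?_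
      push_cast
      ring
    have hd2 := hd1.deriv
    have h5 : (ep p k : ℂ) * deriv Z ζ = 2 * hk p k (γ ζ) * deriv (fun ζ => hk p k (γ ζ)) ζ -
        deriv (fun ζ => hk p (k + 1) (γ ζ)) ζ := by
      rw [hd2]
      ring
    have h6 : ep p k * ‖deriv Z ζ‖ ≤ 2 * r * ((1 / 2) / (δ / 2)) + r ^ 2 / (δ / 2) := by
      have h7 : ‖(ep p k : ℂ) * deriv Z ζ‖ = ep p k * ‖deriv Z ζ‖ := by
        rw [norm_mul, Complex.norm_real, Real.norm_of_nonneg hepos.le]
      rw [← h7, h5]
      refine (norm_sub_le _ _).trans (add_le_add ?_ hC1)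
      rw [norm_mul, norm_mul]
      have : ‖(2 : ℂ)‖ = 2 := by simp
      rw [this]
      gcongr
    have h8 : 2 * r * ((1 / 2) / (δ / 2)) + r ^ 2 / (δ / 2) ≤ r * (4 / δ) := by
      have e1 : 2 * r * ((1 / 2) / (δ / 2)) + r ^ 2 / (δ / 2) = r * ((2 + 2 * r) / δ) := by
        field_simp
      rw [e1]
      gcongr
      linarith
    have h9 : ep p k * c ≤ r * (4 / δ) := by
      have : ep p k * c ≤ ep p k * ‖deriv Z ζ‖ := by gcongr
      linarith
    have h10 : c ≤ 4 / (δ * (k + 1)) := by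
      have e1 : r * (4 / δ) = ep p k * (4 / (δ * (k + 1))) := by
        rw [hr]
        field_simp
      rw [e1] at h9
      exact le_of_mul_le_mul_left h9 hepos
    have h11 : (N : ℝ) ≤ k := by exact_mod_cast hkN
    rw [le_div_iff₀ (by positivity)] at h10
    rw [div_lt_iff₀ (by positivity)] at hN
    nlinarith [mul_pos hcpos hδpos]

end Pool.Agent.Helper853.Df
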