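import Pool.Agent.Helper853.Df.Deg
import Pool.Agent.Helper853.Df.Main

open scoped Topology ENNReal ComplexConjugate ContDiff
open MeasureTheory Filter Metric

namespace Pool.Agent.Helper853.Df

/-- uniqueness of second derivatives -/
lemma SD.unique {m : ℂ → ℝ} {ζ v : ℂ} {s s' : ℝ} (h : SD m ζ v s) (h' : SD m ζ v s') : s = s' := by
  obtain ⟨m₁, a₁, b₁⟩ := h
  obtain ⟨m₂, a₂, b₂⟩ := h'
  have : m₁ =ᶠ[𝓝 0] m₂ := by
    filter_upwards [a₁, a₂] with t h1 h2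
    exact h1.unique h2
  exact b₁.unique (b₂.congr_of_eventuallyEq this)

lemma SD.congr {m m' : ℂ → ℝ} {ζ v : ℂ} {s : ℝ} (h : SD m ζ v s) (hm : ∀ z, m' z = m z) :
    SD m' ζ v s := by
  have : m' = m := funext hm
  rwa [this]

lemma SD.const_mul {m : ℂ → ℝ} {ζ v : ℂ} {s : ℝ} (h : SD m ζ v s) (c : ℝ) :
    SD (fun z => c * m z) ζ v (c * s) := by
  obtain ⟨m₁, a₁, b₁⟩ := h
  refine ⟨fun t => c * m₁ t, ?_, b₁.const_mul c⟩
  filter_upwards [a₁] with t h1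
  exact h1.const_mul c

section affine

variable {E : Type*} [NormedAddCommGroup E] [NormedSpace ℂ E] [NormedSpace ℝ E]
  [IsScalarTower ℝ ℂ E] [CompleteSpace E]

/-- the Levi form computed along an affine complex line -/
lemma SD_line {ψ : E → ℝ} {x b : E} (hψ : ContDiffAt ℝ 2 ψ x) (v : ℂ) :
    SD (fun ζ : ℂ => ψ (x + ζ • b)) 0 v (fderiv ℝ (fderiv ℝ ψ) x (v • b) (v • b)) := by
  have hγd : ∀ z : ℂ, HasDerivAt (fun ζ : ℂ => x + ζ • b) b z := by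
    intro z
    have := ((hasDerivAt_id z).smul_const b).const_add x
    simpa using this
  have hγ1 : deriv (fun ζ : ℂ => x + ζ • b) = fun _ => b := funext fun z => (hγd z).deriv
  have h0 : (fun ζ : ℂ => x + ζ • b) 0 = x := by simp
  have h1 : ContDiffAt ℝ 2 ψ ((fun ζ : ℂ => x + ζ • b) 0) := by rw [h0]; exact hψ
  have hγ : ∀ᶠ y in 𝓝 (0 : ℂ), DifferentiableAt ℂ (fun ζ : ℂ => x + ζ • b) y :=
    Eventually.of_forall fun y => (hγd y).differentiableAt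
  have := SD_comp (γ := fun ζ : ℂ => x + ζ • b) h1 hγ v
  rw [hγ1] at this
  simpa using this

/-- real parts of holomorphic functions of one variable -/
lemma SD_re {K : ℂ → ℂ} (hK : ∀ᶠ z in 𝓝 (0 : ℂ), DifferentiableAt ℂ K z) (v : ℂ) :
    SD (fun z => (K z).re) 0 v (v ^ 2 * deriv (deriv K) 0).re := by
  have hre : ContDiffAt ℝ 2 (fun y : ℂ => y.re) (K 0) := Complex.reCLM.contDiff.contDiffAt
  have := SD_comp (γ := K) hre hK v
  have hf' : fderiv ℝ (fun y : ℂ => y.re) = fun _ => Complex.reCLM := by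
    ext1 y
    exact Complex.reCLM.fderiv
  have hf2 : fderiv ℝ (fun _ : ℂ => Complex.reCLM) (K 0) = 0 :=
    (hasFDerivAt_const Complex.reCLM (K 0)).fderiv
  rw [hf', hf2] at this
  simpa using this

/-- Real parts of holomorphic functions have vanishing Levi form. -/
lemma levi_re {f : E → ℂ} {x : E} (hf : ∀ᶠ y in 𝓝 x, DifferentiableAt ℂ f y)
    (h2 : ContDiffAt ℝ 2 (fun y => (f y).re) x) (b : E) :
    fderiv ℝ (fderiv ℝ (fun y => (f y).re)) x b b +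
      fderiv ℝ (fderiv ℝ (fun y => (f y).re)) x (Complex.I • b) (Complex.I • b) = 0 := by
  have hγd : ∀ z : ℂ, HasDerivAt (fun ζ : ℂ => x + ζ • b) b z := by
    intro z
    have := ((hasDerivAt_id z).smul_const b).const_add x
    simpa using this
  have ht : Tendsto (fun ζ : ℂ => x + ζ • b) (𝓝 0) (𝓝 x) := by
    have := (hγd 0).continuousAt.tendsto
    simpa using this
  have hK : ∀ᶠ z in 𝓝 (0 : ℂ), DifferentiableAt ℂ (fun ζ : ℂ => f (x + ζ • b)) z := by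
    filter_upwards [ht.eventually hf] with z hz
    exact hz.comp z (hγd z).differentiableAt
  have e1 := (SD_line h2 (b := b) 1).unique (SD_re hK 1)
  have e2 := (SD_line h2 (b := b) Complex.I).unique (SD_re hK Complex.I)
  rw [one_smul, one_pow, one_mul] at e1
  rw [Complex.I_sq, neg_one_mul, Complex.neg_re] at e2
  rw [e1, e2]
  ring

end affine

section algebra

variable {φ : C2 → ℝ} {x₀ : C2}

/-- the bilinear form of second derivatives -/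
noncomputable def BB (φ : C2 → ℝ) (x₀ u v : C2) : ℝ := fderiv ℝ (fderiv ℝ φ) x₀ u v

lemma BB_add_left (u u' v : C2) : BB φ x₀ (u + u') v = BB φ x₀ u v + BB φ x₀ u' v := by
  simp [BB]

lemma BB_add_right (u v v' : C2) : BB φ x₀ u (v + v') = BB φ x₀ u v + BB φ x₀ u v' := by
  simp [BB]

lemma BB_smul_left (a : ℝ) (u v : C2) : BB φ x₀ (a • u) v = a * BB φ x₀ u v := by
  simp [BB]

lemma BB_smul_right (a : ℝ) (u v : C2) : BB φ x₀ u (a • v) = a * BB φ x₀ u v := by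
  simp [BB]

lemma BB_symm (h : ContDiffAt ℝ 2 φ x₀) (u v : C2) : BB φ x₀ u v = BB φ x₀ v u := snd_symm h u v

lemma lap2_eq (u : C2) : lap2 φ x₀ u = BB φ x₀ u u + BB φ x₀ (Complex.I • u) (Complex.I • u) := rfl

/-- cross terms vanish -/
lemma cross_zero (h : ContDiffAt ℝ 2 φ x₀) (hpos : ∀ b, 0 ≤ lap2 φ x₀ b) {u₀ : C2}
    (h0 : lap2 φ x₀ u₀ = 0) (v : C2) :
    BB φ x₀ u₀ v + BB φ x₀ (Complex.I • u₀) (Complex.I • v) = 0 := by
  have key : ∀ t : ℝ, 0 ≤ lap2 φ x₀ v +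
      2 * t * (BB φ x₀ u₀ v + BB φ x₀ (Complex.I • u₀) (Complex.I • v)) := by
    intro t
    have h1 := hpos (v + t • u₀)
    rw [lap2_eq, smul_add, smul_comm Complex.I t u₀] at h1
    simp only [BB_add_left, BB_add_right, BB_smul_left, BB_smul_right] at h1
    rw [lap2_eq] at h0 ⊢
    rw [BB_symm h v u₀, BB_symm h (Complex.I • v) (Complex.I • u₀)] at h1
    have h5 : t ^ 2 * (BB φ x₀ u₀ u₀ + BB φ x₀ (Complex.I • u₀) (Complex.I • u₀)) = 0 := by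
      rw [h0, mul_zero]
    linarith
  set d := BB φ x₀ u₀ v + BB φ x₀ (Complex.I • u₀) (Complex.I • v) with hd
  set l := lap2 φ x₀ v with hl
  by_contra hne
  have h1 := key (-(l + 1) / (2 * d))
  have h2 : 2 * (-(l + 1) / (2 * d)) * d = -(l + 1) := by
    field_simp
  rw [h2] at h1
  linarith

/-- the pluriharmonic polynomial -/
noncomputable def QQp (φ : C2 → ℝ) (x₀ u₀ u₁ : C2) (x : ℂ × ℂ) : ℂ :=
  (φ x₀ : ℂ) + (x.1 * ((fderiv ℝ φ x₀ u₀ : ℝ) - Complex.I * (fderiv ℝ φ x₀ (Complex.I • u₀) : ℝ)) +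
    x.2 * ((fderiv ℝ φ x₀ u₁ : ℝ) - Complex.I * (fderiv ℝ φ x₀ (Complex.I • u₁) : ℝ))) +
  (1 / 4) * (x.1 ^ 2 * ((BB φ x₀ u₀ u₀ - BB φ x₀ (Complex.I • u₀) (Complex.I • u₀) : ℝ) -
      2 * Complex.I * (BB φ x₀ u₀ (Complex.I • u₀) : ℝ)) +
    2 * x.1 * x.2 * ((BB φ x₀ u₀ u₁ - BB φ x₀ (Complex.I • u₀) (Complex.I • u₁) : ℝ) -
      Complex.I * ((BB φ x₀ u₀ (Complex.I • u₁) + BB φ x₀ (Complex.I • u₀) u₁ : ℝ))) +
    x.2 ^ 2 * ((BB φ x₀ u₁ u₁ - BB φ x₀ (Complex.I • u₁) (Complex.I • u₁) : ℝ) -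
      2 * Complex.I * (BB φ x₀ u₁ (Complex.I • u₁) : ℝ)))

lemma contDiff_QQp (u₀ u₁ : C2) : ContDiff ℂ ∞ (QQp φ x₀ u₀ u₁) := by
  unfold QQp
  fun_prop

lemma complex_smul_eq (z : ℂ) (u : C2) : z • u = z.re • u + z.im • (Complex.I • u) := by
  conv_lhs => rw [← Complex.re_add_im z]
  rw [add_smul, mul_smul]
  rfl

lemma I_smul_I (u : C2) : Complex.I • Complex.I • u = -u := by
  rw [smul_smul, Complex.I_mul_I, neg_one_smul]

/-- the second order expansion -/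
lemma QQp_re (h : ContDiffAt ℝ 2 φ x₀) (hpos : ∀ b, 0 ≤ lap2 φ x₀ b) {u₀ : C2}
    (h0 : lap2 φ x₀ u₀ = 0) (u₁ : C2) (x : ℂ × ℂ) :
    (QQp φ x₀ u₀ u₁ x).re = φ x₀ + fderiv ℝ φ x₀ (x.1 • u₀ + x.2 • u₁) +
      (1 / 2) * BB φ x₀ (x.1 • u₀ + x.2 • u₁) (x.1 • u₀ + x.2 • u₁) -
      (lap2 φ x₀ u₁ / 4) * ‖x.2‖ ^ 2 := by
  have c1 := cross_zero h hpos h0 u₁
  have c2 := cross_zero h hpos h0 (Complex.I • u₁)
  rw [I_smul_I] at c2
  have hneg : BB φ x₀ (Complex.I • u₀) (-u₁) = -BB φ x₀ (Complex.I • u₀) u₁ := by simp [BB]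
  rw [hneg] at c2
  rw [lap2_eq] at h0
  rw [complex_smul_eq x.1, complex_smul_eq x.2]
  simp only [map_add, map_smul, BB_add_left, BB_add_right, BB_smul_left, BB_smul_right, smul_eq_mul]
  rw [BB_symm h (Complex.I • u₀) u₀, BB_symm h u₁ u₀, BB_symm h u₁ (Complex.I • u₀),
    BB_symm h (Complex.I • u₁) u₀, BB_symm h (Complex.I • u₁) (Complex.I • u₀),
    BB_symm h (Complex.I • u₁) u₁]
  unfold QQp
  rw [lap2_eq, Complex.sq_norm, Complex.normSq_apply]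
  simp [pow_two]
  linear_combination (-(1 / 4)) * (x.1.re ^ 2 + x.1.im ^ 2) * h0 -
    (1 / 2) * (x.1.re * x.2.re + x.1.im * x.2.im) * c1 +
    (1 / 2) * (x.1.im * x.2.re - x.1.re * x.2.im) * c2

end algebra

end Pool.Agent.Helper853.Df
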