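import Pool.Agent.Helper853.Df.MaxCrit

open scoped Topology ContDiff ComplexOrder ENNReal ComplexConjugate
open MeasureTheory Filter Metric

namespace Pool.Agent.Helper853.Df

/-- the density -/
noncomputable def shp (a b τ : ℝ) : ℝ := Real.smoothTransition ((τ - a) / (b - a)) / τ

/-- a smooth function which vanishes for `t ≤ a` and is `log t` up to a constant for `t ≥ b` -/
noncomputable def sh (a b t : ℝ) : ℝ := ∫ τ in (0 : ℝ)..t, shp a b τ

section

variable {a b : ℝ} (ha : 0 < a) (hab : a < b)

include hab in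
lemma shp_of_le {τ : ℝ} (h : τ ≤ a) : shp a b τ = 0 := by
  unfold shp
  rw [Real.smoothTransition.zero_of_nonpos, zero_div]
  apply div_nonpos_of_nonpos_of_nonneg <;> linarith

lemma contDiff_tr : ContDiff ℝ ∞ fun τ => Real.smoothTransition ((τ - a) / (b - a)) :=
  (Real.smoothTransition.contDiff (n := ⊤)).comp (by fun_prop)

include ha hab in
lemma contDiff_shp : ContDiff ℝ ∞ (shp a b) := by
  rw [contDiff_iff_contDiffAt]
  intro τ
  by_cases hτ : τ < a
  · have h1 : shp a b =ᶠ[𝓝 τ] fun _ => 0 := by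
      filter_upwards [isOpen_Iio.mem_nhds hτ] with y hy
      exact shp_of_le hab (le_of_lt hy)
    exact contDiffAt_const.congr_of_eventuallyEq h1
  · push Not at hτ
    exact contDiff_tr.contDiffAt.div contDiffAt_id (by
      have : 0 < τ := ha.trans_le hτ
      exact this.ne')

include ha hab in
lemma hasDerivAt_sh (t : ℝ) : HasDerivAt (sh a b) (shp a b t) t := by
  have hc : Continuous (shp a b) := (contDiff_shp ha hab).continuous
  exact intervalIntegral.integral_hasDerivAt_right (hc.intervalIntegrable _ _)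
    (hc.stronglyMeasurableAtFilter _ _) hc.continuousAt

include ha hab in
lemma deriv_sh : deriv (sh a b) = shp a b := funext fun t => (hasDerivAt_sh ha hab t).deriv

include ha hab in
lemma contDiff_sh : ContDiff ℝ ∞ (sh a b) := by
  rw [contDiff_infty_iff_deriv]
  refine ⟨fun s => (hasDerivAt_sh ha hab s).differentiableAt, ?_⟩
  rw [deriv_sh ha hab]
  exact contDiff_shp ha hab

include ha hab in
lemma sh_of_le {t : ℝ} (ht : t ≤ a) : sh a b t = 0 := by
  unfold sh
  apply intervalIntegral.integral_zero_ae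
  filter_upwards with τ hτ
  apply shp_of_le hab
  have := hτ.2
  rcases le_total 0 t with h | h
  · rw [max_eq_right h] at this
    linarith
  · rw [max_eq_left h] at this
    linarith

lemma shp_nonneg {τ : ℝ} (h : 0 ≤ τ) : 0 ≤ shp a b τ :=
  div_nonneg (Real.smoothTransition.nonneg _) h

lemma sh_nonneg {t : ℝ} (ht : 0 ≤ t) : 0 ≤ sh a b t := by
  unfold sh
  apply intervalIntegral.integral_nonneg ht
  intro u hu
  exact shp_nonneg hu.1

include ha hab in
lemma sh_pos {t : ℝ} (ht : a < t) : 0 < sh a b t := by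
  have hc : Continuous (shp a b) := (contDiff_shp ha hab).continuous
  have e : sh a b t = sh a b a + ∫ τ in a..t, shp a b τ := by
    unfold sh
    rw [intervalIntegral.integral_add_adjacent_intervals (hc.intervalIntegrable _ _)
      (hc.intervalIntegrable _ _)]
  rw [e, sh_of_le ha hab le_rfl, zero_add]
  apply intervalIntegral.intervalIntegral_pos_of_pos_on (hc.intervalIntegrable _ _) _ ht
  intro x hx
  unfold shp
  apply div_pos
  · apply Real.smoothTransition.pos_of_pos
    apply div_pos <;> linarith [hx.1]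
  · linarith [hx.1]

include ha hab in
/-- the Laplacian density -/
lemma shp_lap_nonneg {t : ℝ} (_ht : 0 ≤ t) : 0 ≤ deriv (shp a b) t * t + shp a b t := by
  have h1 : HasDerivAt (fun τ => shp a b τ * τ) (deriv (shp a b) t * t + shp a b t * 1) t :=
    (((contDiff_shp ha hab).differentiable (by simp)).differentiableAt.hasDerivAt).mul
      (hasDerivAt_id t)
  rw [mul_one] at h1
  have h2 : (fun τ => shp a b τ * τ) = fun τ => Real.smoothTransition ((τ - a) / (b - a)) := by
    funext τ
    by_cases hτ : τ = 0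
    · rw [hτ, mul_zero, Real.smoothTransition.zero_of_nonpos]
      apply div_nonpos_of_nonpos_of_nonneg <;> linarith
    · unfold shp
      field_simp
  rw [h2] at h1
  rw [← h1.deriv]
  apply Monotone.deriv_nonneg
  intro x y hxy
  apply Real.smoothTransition.monotone
  have : 0 < b - a := by linarith
  gcongr

include ha hab in
lemma shp_lap_zero {t : ℝ} (ht : t < a ∨ b < t) : deriv (shp a b) t * t + shp a b t = 0 := by
  have h1 : HasDerivAt (fun τ => shp a b τ * τ) (deriv (shp a b) t * t + shp a b t * 1) t :=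
    (((contDiff_shp ha hab).differentiable (by simp)).differentiableAt.hasDerivAt).mul
      (hasDerivAt_id t)
  rw [mul_one] at h1
  have h2 : (fun τ => shp a b τ * τ) = fun τ => Real.smoothTransition ((τ - a) / (b - a)) := by
    funext τ
    by_cases hτ : τ = 0
    · rw [hτ, mul_zero, Real.smoothTransition.zero_of_nonpos]
      apply div_nonpos_of_nonpos_of_nonneg <;> linarith
    · unfold shp
      field_simp
  rw [h2] at h1
  rw [← h1.deriv]
  rcases ht with h | h
  · have : (fun τ => Real.smoothTransition ((τ - a) / (b - a))) =ᶠ[𝓝 t] fun _ => 0 := by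
      filter_upwards [isOpen_Iio.mem_nhds h] with y hy
      apply Real.smoothTransition.zero_of_nonpos
      have hy' : y < a := hy
      apply div_nonpos_of_nonpos_of_nonneg <;> linarith
    rw [this.deriv_eq]
    simp
  · have : (fun τ => Real.smoothTransition ((τ - a) / (b - a))) =ᶠ[𝓝 t] fun _ => 1 := by
      filter_upwards [isOpen_Ioi.mem_nhds h] with y hy
      apply Real.smoothTransition.one_of_one_le
      have hy' : b < y := hy
      rw [le_div_iff₀ (by linarith)]
      linarith
    rw [this.deriv_eq]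
    simp

lemma fderiv_normSq {f : C2 → ℂ} (hf : ContDiff ℂ ∞ f) (x v : C2) :
    fderiv ℝ (fun y => ‖f y‖ ^ 2) x v = 2 * (conj (f x) * fderiv ℝ f x v).re := by
  have hR : DifferentiableAt ℝ f x := ((hf.restrict_scalars ℝ).differentiable
    (by simp)).differentiableAt
  have h : HasFDerivAt (fun y => ‖f y‖ ^ 2) (2 • (innerSL ℝ (f x)).comp (fderiv ℝ f x)) x :=
    hR.hasFDerivAt.norm_sq
  rw [h.fderiv]
  simp only [_root_.smul_apply, ContinuousLinearMap.comp_apply, innerSL_apply_apply, nsmul_eq_mul]
  rw [Complex.inner]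
  simp
  ring

include ha hab in
/-- Levi form of the building block. -/
lemma lap2_sh {f : C2 → ℂ} (hf : ContDiff ℂ ∞ f) (x v : C2) :
    lap2 (fun y => sh a b (‖f y‖ ^ 2)) x v = 4 * ‖fderiv ℝ f x v‖ ^ 2 *
      (deriv (shp a b) (‖f x‖ ^ 2) * ‖f x‖ ^ 2 + shp a b (‖f x‖ ^ 2)) := by
  have hd : DifferentiableAt ℂ f x := (hf.differentiable (by simp)).differentiableAt
  have hc : ContDiffAt ℝ 2 (fun y => ‖f y‖ ^ 2) x :=
    ((contDiff_normSq hf).of_le ENat.LEInfty.out).contDiffAt
  rw [lap2_comp (contDiff_sh ha hab) hc, deriv_sh ha hab, lap2_normSq hf, fderiv_normSq hf,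
    fderiv_normSq hf, fderiv_smul_I hd]
  set Z := fderiv ℝ f x v with hZ
  have e2 : (2 * (conj (f x) * Z).re) ^ 2 + (2 * (conj (f x) * (Complex.I * Z)).re) ^ 2 =
      4 * (‖f x‖ ^ 2 * ‖Z‖ ^ 2) := by
    rw [Complex.sq_norm, Complex.sq_norm, Complex.normSq_apply, Complex.normSq_apply]
    simp
    ring
  rw [e2]
  ring

lemma contDiff_block (ha : 0 < a) (hab : a < b) {f : C2 → ℂ} (hf : ContDiff ℂ ∞ f) :
    ContDiff ℝ ∞ fun y => sh a b (‖f y‖ ^ 2) :=
  (contDiff_sh ha hab).comp (contDiff_normSq hf)

/-- a nonconstant linear form on two-space has a kernel -/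
lemma exists_ker {f : C2 → ℂ} (hf : ContDiff ℂ ∞ f) (x : C2) :
    ∃ v : C2, v ≠ 0 ∧ fderiv ℝ f x v = 0 := by
  have hd : DifferentiableAt ℂ f x := (hf.differentiable (by simp)).differentiableAt
  rw [hd.fderiv_restrictScalars ℝ]
  set L := fderiv ℂ f x with hL
  have h1 : Module.finrank ℂ ℂ < Module.finrank ℂ C2 := by simp
  obtain ⟨v, hv, hv0⟩ := Submodule.exists_mem_ne_zero_of_ne_bot
    (LinearMap.ker_ne_bot_of_finrank_lt (f := (L : C2 →ₗ[ℂ] ℂ)) h1)
  exact ⟨v, hv0, hv⟩

end

end Pool.Agent.Helper853.Df
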