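import Pool.Agent.Helper853.Df.Crit
import Pool.Agent.Helper853.Zm.LocalPsh

open scoped Topology ContDiff ComplexOrder ENNReal ComplexConjugate
open MeasureTheory Filter Metric

namespace Pool.Agent.Helper853.Df

section

variable {n : ℕ}

/-- A smooth function with the sub-mean value property on small discs has nonnegative Levi
form. -/
theorem lap2_nonneg_centre {V : Set (Fin n → ℂ)} (hV : IsOpen V) {u : (Fin n → ℂ) → ℝ}
    (hc : ContinuousOn u V)
    {a : Fin n → ℂ} (h : ∀ b : Fin n → ℂ, (∀ t : ℂ, ‖t‖ ≤ 1 → a + t • b ∈ V) → u a ≤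
      (2 * Real.pi)⁻¹ * ∫ θ in (0 : ℝ)..(2 * Real.pi), u (a + Complex.exp (θ * Complex.I) • b))
    (ha : a ∈ V) (hu : ContDiffAt ℝ 2 u a) (b : Fin n → ℂ) :
    0 ≤ lap2 u a b := by
  by_contra hneg
  push Not at hneg
  set B := fderiv ℝ (fderiv ℝ u) a with hB
  set D := fderiv ℝ u a with hD
  set q := -lap2 u a b with hq
  have hqpos : 0 < q := by rw [hq]; linarith
  set ε : ℝ := q / (8 * (‖b‖ ^ 2 + 1)) with hε
  have hεpos : 0 < ε := by positivity
  obtain ⟨δ₁, hδ₁, hT⟩ := taylor2 hu hεpos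
  obtain ⟨δ₂, hδ₂, hVδ⟩ := Metric.mem_nhds_iff.mp (hV.mem_nhds ha)
  set δ : ℝ := min δ₁ δ₂ with hδdef
  have hδ : 0 < δ := lt_min hδ₁ hδ₂
  -- choose small t
  set t : ℝ := δ / (2 * (‖b‖ + 1)) with ht
  have htpos : 0 < t := by positivity
  have htb : t * ‖b‖ < δ := by
    rw [ht, div_mul_eq_mul_div, div_lt_iff₀ (by positivity)]
    nlinarith [norm_nonneg b]
  have hdisc : ∀ z : ℂ, ‖z‖ ≤ 1 → a + z • (t • b) ∈ V := by
    intro z hz
    apply hVδ
    rw [Metric.mem_ball, dist_eq_norm, add_sub_cancel_left, norm_smul, norm_smul,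
      Real.norm_of_nonneg htpos.le]
    calc ‖z‖ * (t * ‖b‖) ≤ 1 * (t * ‖b‖) := by gcongr
      _ < δ₂ := by
        rw [one_mul]
        exact lt_of_lt_of_le htb (min_le_right _ _)
  have hs := h (t • b) hdisc
  have hpi : (0 : ℝ) < 2 * Real.pi := by positivity
  -- pointwise upper bound
  have hpt : ∀ θ : ℝ, u (a + Complex.exp (θ * Complex.I) • (t • b)) ≤
      u a + (t * Real.cos θ * D b + t * Real.sin θ * D (Complex.I • b)) +
        (1 / 2) * (t ^ 2 * Real.cos θ ^ 2 * B b b +
          2 * (t ^ 2 * (Real.sin θ * Real.cos θ)) * B b (Complex.I • b) +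
          t ^ 2 * Real.sin θ ^ 2 * B (Complex.I • b) (Complex.I • b)) +
        ε * (t * ‖b‖) ^ 2 := by
    intro θ
    set h' := Complex.exp (θ * Complex.I) • (t • b) with hh'
    have hn : ‖h'‖ = t * ‖b‖ := by
      rw [hh', norm_smul, Complex.norm_exp_ofReal_mul_I, one_mul, norm_smul, Real.norm_of_nonneg
        htpos.le]
    have h1 := hT h' (by rw [hn]; exact lt_of_lt_of_le htb (min_le_left _ _))
    rw [hn] at h1
    have h2 := (abs_le.mp h1).2
    have h3 : h' = (t * Real.cos θ) • b + (t * Real.sin θ) • (Complex.I • b) := circ_smul t θ b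
    have h4 : D h' = t * Real.cos θ * D b + t * Real.sin θ * D (Complex.I • b) := by
      rw [h3, map_add, map_smul, map_smul]
      simp
    have h5 : B h' h' = t ^ 2 * Real.cos θ ^ 2 * B b b +
          2 * (t ^ 2 * (Real.sin θ * Real.cos θ)) * B b (Complex.I • b) +
          t ^ 2 * Real.sin θ ^ 2 * B (Complex.I • b) (Complex.I • b) := by
      have hsym : B (Complex.I • b) b = B b (Complex.I • b) := snd_symm hu _ _
      rw [h3]
      simp only [map_add, map_smul, _root_.add_apply, _root_.smul_apply, smul_eq_mul, hsym]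
      ring
    rw [← hD, h4, ← hB, h5] at h2
    linarith
  have hcc : Continuous fun θ : ℝ => u (a + Complex.exp (θ * Complex.I) • (t • b)) := by
    apply hc.comp_continuous (continuous_circ a _)
    intro θ
    apply hdisc
    rw [Complex.norm_exp_ofReal_mul_I]
  have hint := intervalIntegral.integral_mono_on (μ := volume) (a := 0) (b := 2 * Real.pi) hpi.le
    (hcc.intervalIntegrable _ _) (g := fun θ => u a + (t * Real.cos θ * D b +
      t * Real.sin θ * D (Complex.I • b)) +
        (1 / 2) * (t ^ 2 * Real.cos θ ^ 2 * B b b +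
          2 * (t ^ 2 * (Real.sin θ * Real.cos θ)) * B b (Complex.I • b) +
          t ^ 2 * Real.sin θ ^ 2 * B (Complex.I • b) (Complex.I • b)) +
        ε * (t * ‖b‖) ^ 2) (by apply Continuous.intervalIntegrable; fun_prop)
    (fun θ _ => hpt θ)
  have hval : ∫ θ in (0 : ℝ)..(2 * Real.pi), (u a + (t * Real.cos θ * D b +
      t * Real.sin θ * D (Complex.I • b)) +
        (1 / 2) * (t ^ 2 * Real.cos θ ^ 2 * B b b +
          2 * (t ^ 2 * (Real.sin θ * Real.cos θ)) * B b (Complex.I • b) +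
          t ^ 2 * Real.sin θ ^ 2 * B (Complex.I • b) (Complex.I • b)) +
        ε * (t * ‖b‖) ^ 2) = 2 * Real.pi * (u a) + Real.pi * t ^ 2 / 2 * lap2 u a b +
          2 * Real.pi * (ε * (t * ‖b‖) ^ 2) := by
    have e : ∀ θ : ℝ, (u a + (t * Real.cos θ * D b +
      t * Real.sin θ * D (Complex.I • b)) +
        (1 / 2) * (t ^ 2 * Real.cos θ ^ 2 * B b b +
          2 * (t ^ 2 * (Real.sin θ * Real.cos θ)) * B b (Complex.I • b) +
          t ^ 2 * Real.sin θ ^ 2 * B (Complex.I • b) (Complex.I • b)) +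
        ε * (t * ‖b‖) ^ 2) = (u a + ε * (t * ‖b‖) ^ 2) + (t * D b) * Real.cos θ +
          (t * D (Complex.I • b)) * Real.sin θ + (1 / 2 * t ^ 2 * B b b) * Real.cos θ ^ 2 +
          (t ^ 2 * B b (Complex.I • b)) * (Real.sin θ * Real.cos θ) +
          (1 / 2 * t ^ 2 * B (Complex.I • b) (Complex.I • b)) * Real.sin θ ^ 2 := by
      intro θ; ring
    simp_rw [e]
    have i1 : ∀ c : ℝ, IntervalIntegrable (fun _ : ℝ => c) volume 0 (2 * Real.pi) :=
      fun c => intervalIntegrable_const
    have i2 : ∀ c : ℝ, IntervalIntegrable (fun θ => c * Real.cos θ) volume 0 (2 * Real.pi) :=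
      fun c => (by fun_prop : Continuous fun θ => c * Real.cos θ).intervalIntegrable _ _
    have i3 : ∀ c : ℝ, IntervalIntegrable (fun θ => c * Real.sin θ) volume 0 (2 * Real.pi) :=
      fun c => (by fun_prop : Continuous fun θ => c * Real.sin θ).intervalIntegrable _ _
    have i4 : ∀ c : ℝ, IntervalIntegrable (fun θ => c * Real.cos θ ^ 2) volume 0 (2 * Real.pi) :=
      fun c => (by fun_prop : Continuous fun θ => c * Real.cos θ ^ 2).intervalIntegrable _ _
    have i5 : ∀ c : ℝ, IntervalIntegrable (fun θ => c * (Real.sin θ * Real.cos θ)) volume 0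
        (2 * Real.pi) :=
      fun c => (by fun_prop : Continuous fun θ => c * (Real.sin θ * Real.cos θ)).intervalIntegrable
        _ _
    have i6 : ∀ c : ℝ, IntervalIntegrable (fun θ => c * Real.sin θ ^ 2) volume 0 (2 * Real.pi) :=
      fun c => (by fun_prop : Continuous fun θ => c * Real.sin θ ^ 2).intervalIntegrable _ _
    rw [intervalIntegral.integral_add (((((i1 _).add (i2 _)).add (i3 _)).add (i4 _)).add (i5 _))
        (i6 _),
      intervalIntegral.integral_add ((((i1 _).add (i2 _)).add (i3 _)).add (i4 _)) (i5 _),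
      intervalIntegral.integral_add (((i1 _).add (i2 _)).add (i3 _)) (i4 _),
      intervalIntegral.integral_add ((i1 _).add (i2 _)) (i3 _),
      intervalIntegral.integral_add (i1 _) (i2 _)]
    simp only [intervalIntegral.integral_const_mul, intervalIntegral.integral_const,
      integral_cos, integral_sin, integral_cos_sq, integral_sin_sq, integral_sin_mul_cos₁]
    simp only [Real.sin_two_pi, Real.sin_zero, Real.cos_two_pi, Real.cos_zero]
    unfold lap2
    rw [← hB]
    simp
    ring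
  rw [hval] at hint
  have h6 : (2 * Real.pi)⁻¹ * ∫ θ in (0 : ℝ)..(2 * Real.pi),
      u (a + Complex.exp (θ * Complex.I) • (t • b)) ≤
      (2 * Real.pi)⁻¹ * (2 * Real.pi * (u a) + Real.pi * t ^ 2 / 2 * lap2 u a b +
          2 * Real.pi * (ε * (t * ‖b‖) ^ 2)) :=
    mul_le_mul_of_nonneg_left hint (by positivity)
  have h7 : (2 * Real.pi)⁻¹ * (2 * Real.pi * (u a) + Real.pi * t ^ 2 / 2 * lap2 u a b +
          2 * Real.pi * (ε * (t * ‖b‖) ^ 2)) =
      u a + t ^ 2 / 4 * lap2 u a b + ε * (t * ‖b‖) ^ 2 := by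
    have := Real.pi_pos.ne'
    field_simp
    ring
  rw [h7] at h6
  have h8 := hs.trans h6
  have h9 : ε * ‖b‖ ^ 2 ≤ q / 8 := by
    rw [hε, div_mul_eq_mul_div, div_le_iff₀ (by positivity)]
    nlinarith [sq_nonneg ‖b‖]
  have h10 : 0 < t ^ 2 := by positivity
  have h11 : lap2 u a b = -q := by rw [hq]; ring
  rw [h11] at h8
  nlinarith

end

/-- viscosity form of plurisubharmonicity -/
theorem touch_above {Ω : Set C2} (hΩ : IsOpen Ω) {v : C2 → EReal} (hv : IsPshOn Ω v)
    {m : C2 → ℝ} {x : C2} (hx : x ∈ Ω) (hm : ContDiffAt ℝ 2 m x)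
    (hle : ∀ᶠ y in 𝓝 x, v y ≤ (m y : EReal)) (heq : v x = (m x : EReal)) (b : C2) :
    0 ≤ lap2 m x b := by
  have hev : ∀ᶠ y in 𝓝 x, y ∈ Ω ∧ v y ≤ (m y : EReal) ∧ ContDiffAt ℝ 2 m y :=
    Filter.Eventually.and (hΩ.mem_nhds hx) (hle.and (hm.eventually (by simp)))
  obtain ⟨δ, hδ, hball⟩ := Metric.eventually_nhds_iff_ball.mp hev
  have hmc : ContinuousOn m (ball x δ) := fun y hy =>
    (hball y hy).2.2.continuousAt.continuousWithinAt
  refine lap2_nonneg_centre isOpen_ball hmc ?_ (mem_ball_self hδ) hm b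
  intro b' hb'
  have hcirc : ∀ θ : ℝ, x + Complex.exp (θ * Complex.I) • b' ∈ ball x δ := fun θ =>
    hb' _ (by rw [Complex.norm_exp_ofReal_mul_I])
  have hcc : Continuous fun θ : ℝ => m (x + Complex.exp (θ * Complex.I) • b') :=
    hmc.comp_continuous (continuous_circ x b') hcirc
  obtain ⟨M, hM⟩ := (isCompact_Icc (a := (0 : ℝ)) (b := 2 * Real.pi)).image hcc |>.bddBelow
  have h1 := hv.2.2.2 x b' M (fun t ht => (hball _ (hb' t ht)).1)
  rw [heq, EReal.coe_le_coe_iff] at h1
  refine h1.trans ?_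
  have hpi : (0 : ℝ) < 2 * Real.pi := by positivity
  apply mul_le_mul_of_nonneg_left _ (by positivity)
  set g : ℝ → EReal := fun θ => v (x + Complex.exp (θ * Complex.I) • b') with hg
  have husc : UpperSemicontinuous g := by
    rw [← upperSemicontinuousOn_univ_iff]
    exact UpperSemicontinuousOn.comp (s := Ω)
      (g := fun θ : ℝ => x + Complex.exp (θ * Complex.I) • b') hv.2.2.1
      (continuous_circ x b').continuousOn (fun θ _ => (hball _ (hcirc θ)).1)
  have hmeas : Measurable fun θ => (max (g θ) (M : EReal)).toReal :=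
    (husc.measurable.max measurable_const).ereal_toReal
  have hupper : ∀ θ ∈ Set.Icc (0 : ℝ) (2 * Real.pi), (max (g θ) (M : EReal)).toReal ≤
      m (x + Complex.exp (θ * Complex.I) • b') := by
    intro θ hθ
    have h2 : max (g θ) (M : EReal) ≤ ((m (x + Complex.exp (θ * Complex.I) • b') : ℝ) : EReal) := by
      apply max_le (hball _ (hcirc θ)).2.1
      rw [EReal.coe_le_coe_iff]
      exact hM ⟨θ, hθ, rfl⟩
    have h3 : max (g θ) (M : EReal) ≠ ⊥ := by
      intro h
      have := le_max_right (g θ) (M : EReal)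
      rw [h, le_bot_iff] at this
      exact EReal.coe_ne_bot _ this
    have h4 := EReal.toReal_le_toReal h2 h3 (EReal.coe_ne_top _)
    rwa [EReal.toReal_coe] at h4
  have hlower : ∀ θ ∈ Set.Icc (0 : ℝ) (2 * Real.pi), M ≤ (max (g θ) (M : EReal)).toReal := by
    intro θ hθ
    have h2 : max (g θ) (M : EReal) ≤ ((m (x + Complex.exp (θ * Complex.I) • b') : ℝ) : EReal) := by
      apply max_le (hball _ (hcirc θ)).2.1
      rw [EReal.coe_le_coe_iff]
      exact hM ⟨θ, hθ, rfl⟩
    have h3 : max (g θ) (M : EReal) ≠ ⊤ := by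
      intro h
      rw [h, top_le_iff] at h2
      exact EReal.coe_ne_top _ h2
    have h4 := EReal.toReal_le_toReal (le_max_right (g θ) (M : EReal)) (EReal.coe_ne_bot _) h3
    rwa [EReal.toReal_coe] at h4
  obtain ⟨C, hC⟩ := (isCompact_Icc (a := (0 : ℝ)) (b := 2 * Real.pi)).image hcc |>.bddAbove
  have hint : IntervalIntegrable (fun θ => (max (g θ) (M : EReal)).toReal) volume 0
      (2 * Real.pi) := by
    rw [intervalIntegrable_iff_integrableOn_Icc_of_le hpi.le]
    apply Measure.integrableOn_of_bounded (M := max |M| |C|)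
      (by rw [Real.volume_Icc]; exact ENNReal.ofReal_ne_top) hmeas.aestronglyMeasurable
    rw [ae_restrict_iff' measurableSet_Icc]
    filter_upwards with θ hθ
    have h2 := hlower θ hθ
    have h3 := (hupper θ hθ).trans (hC ⟨θ, hθ, rfl⟩)
    rw [Real.norm_eq_abs]
    exact abs_le_max_abs_abs h2 h3
  exact intervalIntegral.integral_mono_on hpi.le hint (hcc.intervalIntegrable _ _) hupper

end Pool.Agent.Helper853.Df
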