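import Pool.Agent.Helper853.Df.Shell

open scoped Topology ContDiff ComplexOrder ENNReal ComplexConjugate
open MeasureTheory Filter Metric

namespace Pool.Agent.Helper853.Df

/-- the radii -/
noncomputable def al (p : ℕ → ℂ) : ℕ → ℝ
  | 0 => 1 / 4
  | k + 1 => min (min ((al p k / 4) ^ 2 / 2) ((al p k / (4 * (1 + ‖p k‖)) / (k + 1)) ^ 4))
      ((1 / ((k : ℝ) + 2)) ^ (2 ^ (k + 2)))

/-- the coefficients -/
noncomputable def ep (p : ℕ → ℂ) (k : ℕ) : ℝ := al p k / (4 * (1 + ‖p k‖))

/-- the polynomials -/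
noncomputable def hk (p : ℕ → ℂ) : ℕ → C2 → ℂ
  | 0 => fun x => x 1
  | k + 1 => fun x => (hk p k x) ^ 2 - (ep p k : ℂ) * (x 0 - p k)

variable (p : ℕ → ℂ)

lemma al_pos (k : ℕ) : 0 < al p k := by
  induction k with
  | zero => norm_num [al]
  | succ k ih =>
    have : 0 < 4 * (1 + ‖p k‖) := by positivity
    rw [al]
    refine lt_min (lt_min (by positivity) (by positivity)) (by positivity)

lemma ep_pos (k : ℕ) : 0 < ep p k := by
  have := al_pos p k
  unfold ep
  positivity

lemma al_succ_le (k : ℕ) : al p (k + 1) ≤ (al p k / 4) ^ 2 / 2 := by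
  rw [al]
  exact (min_le_left _ _).trans (min_le_left _ _)

lemma al_succ_le' (k : ℕ) : al p (k + 1) ≤ (ep p k / (k + 1)) ^ 4 := by
  rw [al]
  exact (min_le_left _ _).trans (min_le_right _ _)

lemma al_le (k : ℕ) : al p k ≤ (1 / ((k : ℝ) + 1)) ^ (2 ^ (k + 1)) := by
  cases k with
  | zero => norm_num [al]
  | succ k =>
    rw [al]
    refine (min_le_right _ _).trans (le_of_eq ?_)
    push_cast
    ring_nf

lemma al_le_quarter (k : ℕ) : al p k ≤ 1 / 4 := by
  induction k with
  | zero => norm_num [al]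
  | succ k ih =>
    have h1 := al_succ_le p k
    have h2 := al_pos p k
    nlinarith

lemma contDiff_hk (k : ℕ) : ContDiff ℂ ∞ (hk p k) := by
  induction k with
  | zero => exact contDiff_proj 1
  | succ k ih =>
    exact (ih.pow 2).sub (contDiff_const.mul ((contDiff_proj 0).sub contDiff_const))

/-- nesting of the shells -/
lemma nest {k : ℕ} {x : C2} (hx : ‖x 0‖ ≤ 1) (h : ‖hk p (k + 1) x‖ ^ 2 ≤ 2 * al p (k + 1)) :
    ‖hk p k x‖ ^ 2 < al p k := by
  have h1 := al_succ_le p k
  have h2 := al_pos p k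
  have h3 : ‖hk p (k + 1) x‖ ≤ al p k / 4 := by
    apply le_of_sq_le_sq _ (by positivity)
    linarith
  have h4 : (hk p k x) ^ 2 = hk p (k + 1) x + (ep p k : ℂ) * (x 0 - p k) := by
    rw [hk]
    ring
  have h5 : ‖hk p k x‖ ^ 2 ≤ ‖hk p (k + 1) x‖ + ep p k * (1 + ‖p k‖) := by
    rw [← norm_pow, h4]
    refine (norm_add_le _ _).trans ?_
    rw [norm_mul, Complex.norm_real, Real.norm_of_nonneg (ep_pos p k).le]
    gcongr
    · exact (ep_pos p k).le
    · exact (norm_sub_le _ _).trans (by linarith)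
  have h6 : ep p k * (1 + ‖p k‖) = al p k / 4 := by
    unfold ep
    have : (1 + ‖p k‖) ≠ 0 := by positivity
    field_simp
  rw [h6] at h5
  linarith

lemma nest_lt {j k : ℕ} (hjk : j < k) {x : C2} (hx : ‖x 0‖ ≤ 1)
    (h : ‖hk p k x‖ ^ 2 ≤ 2 * al p k) : ‖hk p j x‖ ^ 2 < al p j := by
  induction k with
  | zero => omega
  | succ k ih =>
    have h1 := nest p hx h
    rcases Nat.lt_succ_iff_lt_or_eq.mp hjk with h2 | h2
    · exact ih h2 (by linarith [al_pos p k])
    · rw [h2]
      exact h1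

/-- the set -/
def EE : Set C2 := {x | ∀ k, ‖hk p k x‖ ^ 2 ≤ al p k}

/-- the polynomials are monic in the second variable -/
lemma exists_poly (z : ℂ) (k : ℕ) : ∃ P : Polynomial ℂ, P.Monic ∧ P.natDegree = 2 ^ k ∧
    ∀ w : ℂ, hk p k ![z, w] = P.eval w := by
  induction k with
  | zero =>
    refine ⟨Polynomial.X, Polynomial.monic_X, by simp, ?_⟩
    intro w
    simp [hk]
  | succ k ih =>
    obtain ⟨P, hP, hdeg, hev⟩ := ih
    have h1 : (P ^ 2).natDegree = 2 ^ (k + 1) := by
      rw [hP.natDegree_pow, hdeg, pow_succ]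
      ring
    refine ⟨P ^ 2 - Polynomial.C ((ep p k : ℂ) * (z - p k)), ?_, ?_, ?_⟩
    · apply (hP.pow 2).sub_of_left
      refine (Polynomial.degree_C_le).trans_lt ?_
      rw [Polynomial.degree_eq_natDegree (hP.pow 2).ne_zero, h1]
      exact_mod_cast (by positivity : 0 < 2 ^ (k + 1))
    · rw [Polynomial.natDegree_sub_C, h1]
    · intro w
      rw [hk]
      simp [hev]

lemma fibre_nonempty {z : ℂ} (hz : ‖z‖ ≤ 1) : ∃ w : ℂ, ![z, w] ∈ EE p := by
  set K : ℕ → Set ℂ := fun k => {w | ‖hk p k ![z, w]‖ ^ 2 ≤ al p k} with hK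
  have hcont : ∀ k, Continuous fun w : ℂ => ‖hk p k ![z, w]‖ ^ 2 := by
    intro k
    have h1 : Continuous fun w : ℂ => (![z, w] : C2) := by fun_prop
    exact (((contDiff_hk p k).continuous.comp h1).norm).pow 2
  have hclosed : ∀ k, IsClosed (K k) := fun k => isClosed_le (hcont k) continuous_const
  have hne : ∀ k, (K k).Nonempty := by
    intro k
    obtain ⟨P, hP, hdeg, hev⟩ := exists_poly p z k
    obtain ⟨w, hw⟩ := IsAlgClosed.exists_root P (by
      rw [Polynomial.degree_eq_natDegree hP.ne_zero, hdeg]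
      exact_mod_cast (by positivity : 2 ^ k ≠ 0))
    refine ⟨w, ?_⟩
    have h1 : hk p k ![z, w] = 0 := by
      rw [hev]
      exact hw
    change ‖hk p k ![z, w]‖ ^ 2 ≤ al p k
    rw [h1]
    simpa using (al_pos p k).le
  have hcomp : IsCompact (K 0) := by
    apply IsCompact.of_isClosed_subset (isCompact_closedBall (0 : ℂ) 1) (hclosed 0)
    intro w hw
    have h1 : ‖w‖ ^ 2 ≤ 1 / 4 := by
      have : ‖hk p 0 ![z, w]‖ ^ 2 ≤ al p 0 := hw
      simpa [hk, al] using this
    rw [mem_closedBall_zero_iff]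
    nlinarith [norm_nonneg w]
  have hsub : ∀ k, K (k + 1) ⊆ K k := by
    intro k w hw
    have h1 : ‖hk p (k + 1) ![z, w]‖ ^ 2 ≤ al p (k + 1) := hw
    exact (nest p (x := ![z, w]) (by simpa using hz) (by linarith [al_pos p (k + 1)])).le
  obtain ⟨w, hw⟩ := IsCompact.nonempty_iInter_of_sequence_nonempty_isCompact_isClosed K hsub hne
    hcomp hclosed
  refine ⟨w, fun k => ?_⟩
  exact Set.mem_iInter.mp hw k

/-- there is no vertical disc -/
lemma no_vertical {z : ℂ} {w₁ : ℂ} {δ : ℝ} (hδ : 0 < δ)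
    (h : ∀ w ∈ ball w₁ δ, ![z, w] ∈ EE p) : False := by
  obtain ⟨k, hk'⟩ := exists_nat_gt (2 / δ)
  obtain ⟨P, hP, hdeg, hev⟩ := exists_poly p z k
  have hδ2 : 0 < δ / 2 := by positivity
  set n := 2 ^ k with hn
  set r : ℝ := (1 / ((k : ℝ) + 1)) ^ n with hr
  have hbound : ∀ w ∈ sphere w₁ (δ / 2), ‖P.eval w‖ ≤ r := by
    intro w hw
    have h1 := h w (by
      rw [mem_sphere] at hw
      rw [mem_ball, hw]
      linarith) k
    rw [hev] at h1
    apply le_of_sq_le_sq _ (by positivity)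
    calc ‖P.eval w‖ ^ 2 ≤ al p k := h1
      _ ≤ (1 / ((k : ℝ) + 1)) ^ (2 ^ (k + 1)) := al_le p k
      _ = r ^ 2 := by
        rw [hr, hn, ← pow_mul, pow_succ]
  have hder : ∀ m : ℕ, iteratedDeriv m (fun w => P.eval w) =
      fun w => (Polynomial.derivative^[m] P).eval w := by
    intro m
    induction m with
    | zero => simp
    | succ m ih =>
      rw [iteratedDeriv_succ, ih]
      funext w
      rw [Polynomial.deriv, Function.iterate_succ_apply']
  have hlead : (Polynomial.derivative^[n] P).eval w₁ = (n.factorial : ℂ) := by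
    have h1 : (Polynomial.derivative^[n] P).natDegree = 0 := by
      have := Polynomial.natDegree_iterate_derivative P n
      rw [hdeg, Nat.sub_self] at this
      omega
    rw [Polynomial.eq_C_of_natDegree_eq_zero h1, Polynomial.eval_C,
      Polynomial.coeff_iterate_derivative, zero_add, Nat.descFactorial_self]
    have h2 : P.coeff n = 1 := by
      rw [← hdeg]
      exact hP
    rw [h2]
    simp
  have hC := Complex.norm_iteratedDeriv_le_of_forall_mem_sphere_norm_le (c := w₁) (R := δ / 2)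
    (C := r) (f := fun w => P.eval w) n hδ2 (P.differentiable.diffContOnCl) hbound
  rw [hder n] at hC
  simp only at hC
  rw [hlead, Complex.norm_natCast] at hC
  have hfac : (0 : ℝ) < n.factorial := by exact_mod_cast n.factorial_pos
  rw [mul_div_assoc] at hC
  have h3 : 1 ≤ r / (δ / 2) ^ n := by
    by_contra hcon
    push Not at hcon
    have : (n.factorial : ℝ) * (r / (δ / 2) ^ n) < n.factorial * 1 := by gcongr
    linarith
  rw [le_div_iff₀ (by positivity), one_mul, hr] at h3
  have h4 : (1 / ((k : ℝ) + 1)) < δ / 2 := by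
    rw [div_lt_iff₀ (by positivity)]
    rw [div_lt_iff₀ hδ] at hk'
    nlinarith
  have h5 : (1 / ((k : ℝ) + 1)) ^ n < (δ / 2) ^ n := by
    apply pow_lt_pow_left₀ h4 (by positivity)
    positivity
  linarith

end Pool.Agent.Helper853.Df
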