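import Pool.Agent.Helper853.Df.NoDisc
import Pool.Agent.Helper853.Df.Line
import Pool.Agent.Helper853.Df.Bridge

open scoped Topology ContDiff ComplexOrder ENNReal ComplexConjugate
open MeasureTheory Filter Metric InnerProductSpace

namespace Pool.Agent.Helper853.Df

/-- constants making a series of smooth functions converge -/
lemma exists_coeffs (g : ℕ → C2 → ℝ) (hg : ∀ n, ContDiff ℝ ∞ (g n))
    (hs : ∀ n, HasCompactSupport (g n)) : ∃ r : ℕ → ℝ, (∀ n, 0 < r n) ∧
      ∀ n, ∀ i ≤ n, ∀ x, ‖iteratedFDeriv ℝ i (fun y => r n * g n y) x‖ ≤ (1 / 2) ^ n := by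
  have : ∀ n : ℕ, ∃ r : ℝ, 0 < r ∧ ∀ i ≤ n, ∀ x,
      ‖iteratedFDeriv ℝ i (fun y => r * g n y) x‖ ≤ (1 / 2) ^ n := by
    intro n
    have : ∀ i, ∃ R, ∀ x, ‖iteratedFDeriv ℝ i (fun x => g n x) x‖ ≤ R := by
      intro i
      have : BddAbove (Set.range fun x => ‖iteratedFDeriv ℝ i (fun x : C2 => g n x) x‖) := by
        apply ((hg n).continuous_iteratedFDeriv
          (mod_cast le_top)).norm.bddAbove_range_of_hasCompactSupport
        apply HasCompactSupport.comp_left _ norm_zero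
        apply (hs n).iteratedFDeriv
      rcases this with ⟨R, hR⟩
      exact ⟨R, fun x => hR (Set.mem_range_self _)⟩
    choose R hR using this
    let M := max (((Finset.range (n + 1)).image R).max' (by simp)) 1
    have hM : 0 < M := lt_of_lt_of_le one_pos (le_max_right _ _)
    have IR : ∀ i ≤ n, R i ≤ M := by
      intro i hi
      refine le_trans ?_ (le_max_left _ _)
      apply Finset.le_max'
      apply Finset.mem_image_of_mem
      simp only [Finset.mem_range]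
      lia
    refine ⟨M⁻¹ * (1 / 2) ^ n, by positivity, fun i hi x => ?_⟩
    have e : (fun y => M⁻¹ * (1 / 2) ^ n * g n y) = (M⁻¹ * (1 / 2) ^ n) • g n := by
      funext y
      simp
    rw [e]
    calc
      ‖iteratedFDeriv ℝ i ((M⁻¹ * (1 / 2) ^ n) • g n) x‖ =
          ‖(M⁻¹ * (1 / 2 : ℝ) ^ n) • iteratedFDeriv ℝ i (g n) x‖ := by
        rw [iteratedFDeriv_const_smul_apply]
        exact (hg n).contDiffAt.of_le (mod_cast le_top)
      _ = M⁻¹ * (1 / 2) ^ n * ‖iteratedFDeriv ℝ i (g n) x‖ := by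
        rw [norm_smul _ (iteratedFDeriv ℝ i (g n) x), Real.norm_of_nonneg]; positivity
      _ ≤ M⁻¹ * (1 / 2) ^ n * M := by gcongr; exact (hR i x).trans (IR i hi)
      _ = (1 / 2) ^ n := by field_simp
  choose r rpos hr using this
  exact ⟨r, rpos, hr⟩

/-- the dense sequence -/
noncomputable def pp : ℕ → ℂ := TopologicalSpace.denseSeq ℂ

lemma dense_pp : Dense (Set.range pp) := TopologicalSpace.denseRange_denseSeq ℂ

/-- the building blocks -/
noncomputable def bk (k : ℕ) (x : C2) : ℝ := sh (al pp k) (2 * al pp k) (‖hk pp k x‖ ^ 2)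

lemma al_lt (k : ℕ) : al pp k < 2 * al pp k := by linarith [al_pos pp k]

lemma contDiff_bk (k : ℕ) : ContDiff ℝ ∞ (bk k) :=
  contDiff_block (al_pos pp k) (al_lt k) (contDiff_hk pp k)

lemma bk_nonneg (k : ℕ) (x : C2) : 0 ≤ bk k x := sh_nonneg (by positivity)

lemma lap2_bk_nonneg (k : ℕ) (x b : C2) : 0 ≤ lap2 (bk k) x b := by
  have h := lap2_sh (al_pos pp k) (al_lt k) (contDiff_hk pp k) x b
  have e : lap2 (bk k) x b = _ := h
  rw [e]
  have := shp_lap_nonneg (al_pos pp k) (al_lt k) (t := ‖hk pp k x‖ ^ 2) (by positivity)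
  positivity

lemma exists_degen {x : C2} (hx : ‖x 0‖ ≤ 1) : ∃ b : C2, b ≠ 0 ∧ ∀ k, lap2 (bk k) x b = 0 := by
  by_cases hS : ∃ k, al pp k ≤ ‖hk pp k x‖ ^ 2 ∧ ‖hk pp k x‖ ^ 2 ≤ 2 * al pp k
  · obtain ⟨k, hk1, hk2⟩ := hS
    obtain ⟨b, hb, hb0⟩ := exists_ker (contDiff_hk pp k) x
    refine ⟨b, hb, fun j => ?_⟩
    have e : lap2 (bk j) x b = _ := lap2_sh (al_pos pp j) (al_lt j) (contDiff_hk pp j) x b
    rw [e]
    rcases lt_trichotomy j k with h | h | h
    · have h1 := nest_lt pp h hx hk2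
      rw [shp_lap_zero (al_pos pp j) (al_lt j) (Or.inl h1), mul_zero]
    · rw [h, hb0, norm_zero]
      ring
    · by_cases h2 : ‖hk pp j x‖ ^ 2 ≤ 2 * al pp j
      · have h1 := nest_lt pp h hx h2
        linarith
      · push Not at h2
        rw [shp_lap_zero (al_pos pp j) (al_lt j) (Or.inr h2), mul_zero]
  · push Not at hS
    refine ⟨Pi.single 0 1, by simp, fun j => ?_⟩
    have e : lap2 (bk j) x (Pi.single 0 1) = _ :=
      lap2_sh (al_pos pp j) (al_lt j) (contDiff_hk pp j) x (Pi.single 0 1)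
    rw [e, shp_lap_zero (al_pos pp j) (al_lt j), mul_zero]
    by_cases h : ‖hk pp j x‖ ^ 2 < al pp j
    · exact Or.inl h
    · push Not at h
      exact Or.inr (hS j h)

lemma bk_zero_iff (k : ℕ) (x : C2) : bk k x = 0 ↔ ‖hk pp k x‖ ^ 2 ≤ al pp k := by
  constructor
  · intro h
    by_contra hcon
    push Not at hcon
    have := sh_pos (al_pos pp k) (al_lt k) hcon
    unfold bk at h
    linarith
  · intro h
    exact sh_of_le (al_pos pp k) (al_lt k) h

/-- The function. -/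
theorem exists_phi : ∃ φ : C2 → ℝ, ContDiff ℝ ∞ φ ∧
    IsPshOn (ball 0 1) (fun x => (φ x : EReal)) ∧ IsMaximalOn (ball 0 1) φ ∧
    (∀ x ∈ ball (0 : C2) 1, 0 ≤ φ x) ∧ ∀ x ∈ ball (0 : C2) 1, φ x = 0 ↔ x ∈ EE pp := by
  obtain ⟨χ, hχ, hχc, -, hχ1⟩ := exists_cutoff (Ω := ball (0 : C2) 2) (L := closedBall (0 : C2) 1)
    isOpen_ball (isCompact_closedBall 0 1) (closedBall_subset_ball (by norm_num))
  set g : ℕ → C2 → ℝ := fun k x => χ x * bk k x with hg
  have hgs : ∀ n, ContDiff ℝ ∞ (g n) := fun n => hχ.mul (contDiff_bk n)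
  have hgc : ∀ n, HasCompactSupport (g n) := fun n => hχc.mul_right
  obtain ⟨r, hr, hrb⟩ := exists_coeffs g hgs hgc
  set φ : C2 → ℝ := fun x => ∑' k, r k * g k x with hφ
  have hsum2 : Summable fun k : ℕ => (1 / 2 : ℝ) ^ k := summable_geometric_two
  have hφs : ContDiff ℝ ∞ φ := by
    apply contDiff_tsum_of_eventually (v := fun _ k => (1 / 2 : ℝ) ^ k)
      (fun k => contDiff_const.mul (hgs k)) (fun k _ => hsum2)
    intro i _
    simp only [Nat.cofinite_eq_atTop, Filter.eventually_atTop]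
    exact ⟨i, fun n hn x => hrb n i hn x⟩
  have hbound : ∀ k x, ‖r k * g k x‖ ≤ (1 / 2) ^ k := by
    intro k x
    have := hrb k 0 (Nat.zero_le k) x
    rwa [norm_iteratedFDeriv_zero] at this
  have hsm : ∀ x, Summable fun k => r k * g k x := fun x =>
    Summable.of_norm_bounded hsum2 (fun k => hbound k x)
  have hχΩ : ∀ x ∈ ball (0 : C2) 1, χ x = 1 := fun x hx =>
    (hχ1 x (ball_subset_closedBall hx)).self_of_nhds
  have hgΩ : ∀ x ∈ ball (0 : C2) 1, ∀ k, g k x = bk k x := by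
    intro x hx k
    simp only [hg]
    rw [hχΩ x hx, one_mul]
  have hterm : ∀ x ∈ ball (0 : C2) 1, ∀ k, 0 ≤ r k * g k x := by
    intro x hx k
    rw [hgΩ x hx k]
    exact mul_nonneg (hr k).le (bk_nonneg k x)
  -- the partial sums
  set S : ℕ → C2 → ℝ := fun N x => ∑ j : Fin N, r j * bk j x with hS
  have hSs : ∀ N, ContDiff ℝ ∞ (S N) := fun N =>
    ContDiff.sum fun j _ => contDiff_const.mul (contDiff_bk j)
  have hSlap : ∀ N x b, lap2 (S N) x b = ∑ j : Fin N, r j * lap2 (bk j) x b := by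
    intro N x b
    have hb2 : ∀ j, ContDiffAt ℝ 2 (bk j) x := fun j =>
      ((contDiff_bk j).of_le ENat.LEInfty.out).contDiffAt
    have := lap2_sum (fun (j : Fin N) y => r j * bk j y) (x := x)
      (fun j => contDiffAt_const.mul (hb2 j)) b
    simp only [hS]
    rw [this]
    apply Finset.sum_congr rfl
    intro j _
    exact lap2_const_mul (hb2 j) _ b
  have hSle : ∀ N, ∀ x ∈ ball (0 : C2) 1, S N x ≤ φ x ∧ φ x ≤ S N x + 2 * (1 / 2) ^ N := by
    intro N x hx
    have e1 : S N x = ∑ j ∈ Finset.range N, r j * g j x := by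
      simp only [hS]
      rw [Fin.sum_univ_eq_sum_range (fun j => r j * bk j x)]
      apply Finset.sum_congr rfl
      intro j _
      rw [hgΩ x hx]
    have e2 : φ x = S N x + ∑' j, r (j + N) * g (j + N) x := by
      rw [e1]
      exact ((hsm x).sum_add_tsum_nat_add N).symm
    have h3 : 0 ≤ ∑' j, r (j + N) * g (j + N) x := tsum_nonneg fun j => hterm x hx _
    have h4 : ∑' j, r (j + N) * g (j + N) x ≤ 2 * (1 / 2) ^ N := by
      have h5 : HasSum (fun j : ℕ => (1 / 2 : ℝ) ^ (j + N)) (2 * (1 / 2) ^ N) := by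
        have := hasSum_geometric_two.mul_right ((1 / 2 : ℝ) ^ N)
        simpa [pow_add] using this
      rw [← h5.tsum_eq]
      apply Summable.tsum_le_tsum _ ((summable_nat_add_iff N).mpr (hsm x)) h5.summable
      intro j
      exact (le_abs_self _).trans (hbound (j + N) x)
    constructor <;> linarith
  have happrox : ∀ δ : ℝ, 0 < δ → ∃ N : ℕ, 2 * (1 / 2 : ℝ) ^ N ≤ δ := by
    intro δ hδ
    obtain ⟨N, hN⟩ := exists_pow_lt_of_lt_one (half_pos hδ) (by norm_num : (1 / 2 : ℝ) < 1)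
    exact ⟨N, by linarith⟩
  have hx0 : ∀ x ∈ ball (0 : C2) 1, ‖x 0‖ ≤ 1 := by
    intro x hx
    rw [mem_ball_zero_iff] at hx
    exact (norm_le_pi_norm x 0).trans hx.le
  refine ⟨φ, hφs, ?_, ?_, ?_, ?_⟩
  · apply isPshOn_of_approx ⟨0, mem_ball_self one_pos⟩ hφs.continuous.continuousOn
    intro δ hδ
    obtain ⟨N, hN⟩ := happrox δ hδ
    refine ⟨S N, (hSs N).of_le ENat.LEInfty.out, ?_, ?_⟩
    · intro x _ b
      rw [hSlap]
      exact Finset.sum_nonneg fun j _ => mul_nonneg (hr j).le (lap2_bk_nonneg j x b)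
    · intro x hx
      have := hSle N x hx
      exact ⟨this.1, by linarith⟩
  · apply maximal_of_approx isOpen_ball (R := 1) subset_rfl
    intro δ hδ
    obtain ⟨N, hN⟩ := happrox δ hδ
    refine ⟨S N, ((hSs N).of_le ENat.LEInfty.out).contDiffOn, ?_, ?_⟩
    · intro x hx
      obtain ⟨b, hb, hb0⟩ := exists_degen (hx0 x hx)
      refine ⟨b, hb, ?_⟩
      rw [hSlap]
      apply le_of_eq
      apply Finset.sum_eq_zero
      intro j _
      rw [hb0, mul_zero]
    · intro x hx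
      have := hSle N x hx
      exact ⟨this.1, by linarith⟩
  · intro x hx
    exact tsum_nonneg fun k => hterm x hx k
  · intro x hx
    constructor
    · intro h k
      rw [← bk_zero_iff]
      have h1 : r k * g k x ≤ φ x := (hsm x).le_tsum k fun j _ => hterm x hx j
      rw [h, hgΩ x hx] at h1
      have h2 := bk_nonneg k x
      have h3 := hr k
      by_contra hne
      have h4 : 0 < bk k x := lt_of_le_of_ne h2 (Ne.symm hne)
      have : 0 < r k * bk k x := mul_pos h3 h4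
      linarith
    · intro h
      simp only [hφ]
      have : (fun k => r k * g k x) = fun _ => 0 := by
        funext k
        rw [hgΩ x hx, (bk_zero_iff k x).mpr (h k), mul_zero]
      rw [this, tsum_zero]

/-- Every holomorphic disc through `x` in `Ω` along which `φ` is harmonic is constant. -/
def NoHarmonicDiscThrough (Ω : Set C2) (φ : C2 → ℝ) (x : C2) : Prop :=
  ∀ (γ : ℂ → C2) (ρ : ℝ), 0 < ρ → DifferentiableOn ℂ γ (ball 0 ρ) → γ 0 = x →
    (∀ ζ ∈ ball (0 : ℂ) ρ, γ ζ ∈ Ω) → HarmonicOnNhd (fun ζ => φ (γ ζ)) (ball (0 : ℂ) ρ) →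
      ∀ ζ ∈ ball (0 : ℂ) ρ, γ ζ = x

theorem exists_bad : ∃ φ : C2 → ℝ, ContDiff ℝ ∞ φ ∧
    IsPshOn (ball 0 1) (fun x => (φ x : EReal)) ∧ IsMaximalOn (ball 0 1) φ ∧
    ∀ z : ℂ, ‖z‖ < 1 → ∃ w : ℂ, ![z, w] ∈ supp (ball 0 1) φ ∧
      NoHarmonicDiscThrough (ball 0 1) φ ![z, w] := by
  obtain ⟨φ, hφ, hpsh, hmax, hnn, hzero⟩ := exists_phi
  refine ⟨φ, hφ, hpsh, hmax, ?_⟩
  intro z hz
  obtain ⟨w, hw⟩ := fibre_nonempty pp hz.le
  set x₀ : C2 := ![z, w] with hx₀
  have hw1 : ‖w‖ < 1 := by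
    have h1 : ‖w‖ ^ 2 ≤ 1 / 4 := by
      have h2 : ‖w‖ ^ 2 ≤ al pp 0 := hw 0
      simpa [al] using h2
    nlinarith [norm_nonneg w]
  have hx₀Ω : x₀ ∈ ball (0 : C2) 1 := by
    rw [mem_ball_zero_iff, pi_norm_lt_iff one_pos]
    intro i
    fin_cases i
    · exact hz
    · exact hw1
  have hφ0 : φ x₀ = 0 := (hzero x₀ hx₀Ω).mpr hw
  refine ⟨w, ⟨hx₀Ω, ?_⟩, ?_⟩
  · by_contra hcon
    rw [Metric.mem_closure_iff] at hcon
    push Not at hcon
    obtain ⟨ε, hε, hε'⟩ := hcon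
    obtain ⟨ε₂, hε₂, hΩ₂⟩ := Metric.isOpen_iff.mp (isOpen_ball (x := (0 : C2)) (ε := 1)) x₀ hx₀Ω
    set δ := min ε ε₂ with hδ
    have hδpos : 0 < δ := lt_min hε hε₂
    set b : C2 := Pi.single 1 1 with hb
    have hbn : ‖b‖ = 1 := by simp [hb, Pi.norm_single]
    have hin : ∀ ζ ∈ ball (0 : ℂ) δ, x₀ + ζ • b ∈ ball (0 : C2) 1 ∧
        lap2 φ (x₀ + ζ • b) b = 0 := by
      intro ζ hζ
      rw [mem_ball_zero_iff] at hζ
      have hd : dist (x₀ + ζ • b) x₀ < δ := by
        rw [dist_eq_norm, add_sub_cancel_left, norm_smul, hbn, mul_one]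
        exact hζ
      have h1 : x₀ + ζ • b ∈ ball (0 : C2) 1 := hΩ₂ (by
        rw [mem_ball]
        exact hd.trans_le (min_le_right _ _))
      refine ⟨h1, ?_⟩
      by_contra hne
      have hlev := lev_of_psh isOpen_ball ((hφ.of_le ENat.LEInfty.out).contDiffOn) hpsh
      have h2 : x₀ + ζ • b ∈ nonzeroSet (ball 0 1) φ := ⟨h1, (cHess_ne_zero_iff
        (hφ.of_le ENat.LEInfty.out).contDiffAt (hlev _ h1)).mpr ⟨b, hne⟩⟩
      have h3 := hε' _ h2
      rw [dist_comm] at h3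
      have := hd.trans_le (min_le_left ε ε₂)
      linarith
    have hharm := harm_line (x₀ := x₀) (b := b) (δ := δ) (hφ.of_le ENat.LEInfty.out)
      (fun ζ hζ => (hin ζ hζ).2)
    have hz0 := harm_zero hδpos hharm (by simpa using hφ0) (fun ζ hζ => hnn _ (hin ζ hζ).1)
    apply no_vertical pp (z := z) (w₁ := w) hδpos
    intro w' hw'
    have e : (![z, w'] : C2) = x₀ + (w' - w) • b := by
      funext i
      fin_cases i <;> simp [hx₀, hb]
    have hmem : w' - w ∈ ball (0 : ℂ) δ := by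
      rw [mem_ball_zero_iff, ← dist_eq_norm]
      exact hw'
    rw [e]
    exact (hzero _ (hin _ hmem).1).mp (hz0 _ hmem)
  · intro γ ρ hρ hγ h0 hΩ hharm
    have hz0 := harm_zero hρ hharm (by
      simp only [h0]
      exact hφ0) (fun ζ hζ => hnn _ (hΩ ζ hζ))
    have h1 := no_disc pp dense_pp hρ hγ (fun ζ hζ => (hzero _ (hΩ ζ hζ)).mp (hz0 ζ hζ))
    intro ζ hζ
    rw [h1 ζ hζ, h0]

end Pool.Agent.Helper853.Df
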